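import Pool.Agent.H2.Sch.Bil

/-! Abel summation over singular values. -/

open Module Finset
open scoped InnerProductSpace

namespace SchEmb

lemma abel_sum {M : Type*} [AddCommGroup M] [Module ℝ M] (s : ℕ → ℝ) (v : ℕ → M) (N : ℕ) :
    ∑ a ∈ range N, (s a - s (a + 1)) • (∑ l ∈ range (a + 1), v l) =
      (∑ l ∈ range N, s l • v l) - s N • ∑ l ∈ range N, v l := by
  induction N with
  | zero => simp
  | succ n ih =>
    rw [sum_range_succ, ih, sum_range_succ (fun l => s l • v l), sum_range_succ v]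
    module

/-- `A` is a combination with nonincreasing coefficients `s` whose partial sums are flat. -/
def FlatRep {N : ℕ} (A : Mt N) (s : ℕ → ℝ) : Prop :=
  ∃ v : ℕ → Mt N, A = ∑ l ∈ range N, s l • v l ∧ ∀ a, 1 ≤ a → a ≤ N →
    ∃ X Y : Matrix (Fin N) (Fin a) ℝ, IsContr X ∧ IsContr Y ∧ ∑ l ∈ range a, v l = X * Y.transpose

/-- Admissible coefficient sequences. -/
structure Adm (N : ℕ) (s : ℕ → ℝ) : Prop where
  anti : Antitone s
  nonneg : ∀ l, 0 ≤ s l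
  zero : s N = 0

/-- `ℓ_1` norm. -/
noncomputable def S1 (N : ℕ) (s : ℕ → ℝ) : ℝ := ∑ l ∈ range N, (s l - s (l + 1)) * ((l + 1 : ℕ) : ℝ)

/-- Lorentz norm. -/
noncomputable def S2 (N : ℕ) (s : ℕ → ℝ) : ℝ := ∑ l ∈ range N, (s l - s (l + 1)) * √((l + 1 : ℕ) : ℝ)

lemma FlatRep.eq {N : ℕ} {A : Mt N} {s : ℕ → ℝ} (h : FlatRep A s) (hs : Adm N s) :
    ∃ F : ℕ → Mt N, A = ∑ a ∈ range N, (s a - s (a + 1)) • F a ∧ ∀ a ∈ range N,
      ∃ X Y : Matrix (Fin N) (Fin (a + 1)) ℝ, IsContr X ∧ IsContr Y ∧ F a = X * Y.transpose := by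
  obtain ⟨v, hv1, hv2⟩ := h
  refine ⟨fun a => ∑ l ∈ range (a + 1), v l, ?_, ?_⟩
  · rw [abel_sum, hs.zero, zero_smul, sub_zero]
    exact hv1
  · intro a ha
    exact hv2 (a + 1) (by omega) (by have := mem_range.mp ha; omega)

variable {N m : ℕ} {P : EF N →ₗ[ℝ] EF N}

lemma psi_sum_left (δ : ℝ) {ι : Type*} (T : Finset ι) (c : ι → ℝ) (F : ι → Mt N) (B : Mt N) :
    psi P δ (∑ a ∈ T, c a • F a) B = ∑ a ∈ T, c a * psi P δ (F a) B := by
  classical
  induction T using Finset.induction_on with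
  | empty => simp [psi]
  | insert a T ha ih => rw [sum_insert ha, sum_insert ha, psi_add_left, psi_smul_left, ih]

lemma psi_sum_right (δ : ℝ) {ι : Type*} (T : Finset ι) (c : ι → ℝ) (F : ι → Mt N) (A : Mt N) :
    psi P δ A (∑ a ∈ T, c a • F a) = ∑ a ∈ T, c a * psi P δ A (F a) := by
  classical
  induction T using Finset.induction_on with
  | empty => simp [psi]
  | insert a T ha ih => rw [sum_insert ha, sum_insert ha, psi_add_right, psi_smul_right, ih]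

theorem bil_rep (hP : IsGood m P) (hN : 1 ≤ N) (hm : 1 ≤ m) {A B : Mt N} {s t : ℕ → ℝ}
    (hA : FlatRep A s) (hB : FlatRep B t) (hs : Adm N s) (ht : Adm N t) :
    |psi P (m / (N : ℝ) ^ 2) A B| ≤
      5000 / (N : ℝ) ^ 2 * (√(m : ℝ) * √(N : ℝ) * (S1 N s * S2 N t + S2 N s * S1 N t) +
        N * (S1 N s * S1 N t)) := by
  obtain ⟨F, hF1, hF2⟩ := hA.eq hs
  obtain ⟨G, hG1, hG2⟩ := hB.eq ht
  have hΔs : ∀ a, 0 ≤ s a - s (a + 1) := fun a => by
    have := hs.anti (Nat.le_succ a)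
    exact sub_nonneg.mpr this
  have hΔt : ∀ a, 0 ≤ t a - t (a + 1) := fun a => by
    have := ht.anti (Nat.le_succ a)
    exact sub_nonneg.mpr this
  have h1 : psi P (m / (N : ℝ) ^ 2) A B = ∑ a ∈ range N, ∑ b ∈ range N,
      (s a - s (a + 1)) * ((t b - t (b + 1)) * psi P (m / (N : ℝ) ^ 2) (F a) (G b)) := by
    conv_lhs => rw [hF1, hG1]
    rw [psi_sum_left]
    apply sum_congr rfl
    intro a _
    rw [psi_sum_right, mul_sum]
  have h2 : 5000 / (N : ℝ) ^ 2 * (√(m : ℝ) * √(N : ℝ) * (S1 N s * S2 N t + S2 N s * S1 N t) +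
        N * (S1 N s * S1 N t)) = ∑ a ∈ range N, ∑ b ∈ range N,
      (s a - s (a + 1)) * ((t b - t (b + 1)) * (5000 / (N : ℝ) ^ 2 * (√(m : ℝ) * √(N : ℝ) *
        (((a + 1 : ℕ) : ℝ) * √((b + 1 : ℕ) : ℝ) + √((a + 1 : ℕ) : ℝ) * ((b + 1 : ℕ) : ℝ)) +
          N * (((a + 1 : ℕ) : ℝ) * ((b + 1 : ℕ) : ℝ))))) := by
    unfold S1 S2
    simp only [sum_mul_sum]
    simp only [← sum_add_distrib, mul_sum]
    apply sum_congr rfl
    intro a _
    apply sum_congr rfl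
    intro b _
    ring
  rw [h1, h2]
  refine (abs_sum_le_sum_abs _ _).trans (sum_le_sum fun a ha => ?_)
  refine (abs_sum_le_sum_abs _ _).trans (sum_le_sum fun b hb => ?_)
  rw [abs_mul, abs_mul, abs_of_nonneg (hΔs a), abs_of_nonneg (hΔt b)]
  apply mul_le_mul_of_nonneg_left _ (hΔs a)
  apply mul_le_mul_of_nonneg_left _ (hΔt b)
  obtain ⟨X, Y, hX, hY, hXY⟩ := hF2 a ha
  obtain ⟨Z, W, hZ, hW, hZW⟩ := hG2 b hb
  rw [hXY, hZW]
  exact bil_flat hP hN hm (by omega) (by have := mem_range.mp ha; omega) (by omega)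
    (by have := mem_range.mp hb; omega) hX hY hZ hW

theorem one_sided_rep (hP : IsGood m P) (hN : 1 ≤ N) (hmN : m ≤ N ^ 2) {B : Mt N} {t : ℕ → ℝ}
    (hB : FlatRep B t) (ht : Adm N t) :
    ‖P (vec N B) - (m / (N : ℝ) ^ 2) • vec N B‖ ≤
      49 / N * (√(m : ℝ) * S2 N t + √(N : ℝ) * S1 N t) := by
  obtain ⟨G, hG1, hG2⟩ := hB.eq ht
  have hΔt : ∀ a, 0 ≤ t a - t (a + 1) := fun a => by
    have := ht.anti (Nat.le_succ a)
    exact sub_nonneg.mpr this
  have h1 : P (vec N B) - (m / (N : ℝ) ^ 2) • vec N B = ∑ b ∈ range N,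
      (t b - t (b + 1)) • (P (vec N (G b)) - (m / (N : ℝ) ^ 2) • vec N (G b)) := by
    conv_lhs => rw [hG1]
    simp only [map_sum, map_smul, smul_sum, smul_sub, sum_sub_distrib]
    congr 1
    apply sum_congr rfl
    intro b _
    rw [smul_comm]
  have h2 : 49 / N * (√(m : ℝ) * S2 N t + √(N : ℝ) * S1 N t) = ∑ b ∈ range N,
      (t b - t (b + 1)) * (49 / N * (√(m : ℝ) * √((b + 1 : ℕ) : ℝ) + √(N : ℝ) * ((b + 1 : ℕ) : ℝ))) := by
    unfold S1 S2
    simp only [mul_sum, ← sum_add_distrib]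
    apply sum_congr rfl
    intro b _
    ring
  rw [h1, h2]
  refine (norm_sum_le _ _).trans (sum_le_sum fun b hb => ?_)
  rw [norm_smul, Real.norm_eq_abs, abs_of_nonneg (hΔt b)]
  apply mul_le_mul_of_nonneg_left _ (hΔt b)
  obtain ⟨Z, W, hZ, hW, hZW⟩ := hG2 b hb
  rw [hZW]
  exact one_sided_flat hP hN hmN (by omega) (by have := mem_range.mp hb; omega) hZ hW

lemma S1_eq {s : ℕ → ℝ} (hs : Adm N s) : S1 N s = ∑ l ∈ range N, s l := by
  have h := abel_sum s (fun _ => (1 : ℝ)) N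
  rw [hs.zero, zero_smul, sub_zero] at h
  simp only [smul_eq_mul, mul_one, sum_const, card_range, nsmul_eq_mul] at h
  exact h

lemma S2_le {s : ℕ → ℝ} (hs : Adm N s) : S2 N s ≤ ∑ l ∈ range N, s l / √((l : ℝ) + 1) := by
  have h := abel_sum s (fun l => √((l : ℝ) + 1) - √(l : ℝ)) N
  rw [hs.zero, zero_smul, sub_zero] at h
  have h2 : ∀ a : ℕ, ∑ l ∈ range (a + 1), (√((l : ℝ) + 1) - √(l : ℝ)) = √((a + 1 : ℕ) : ℝ) := by
    intro a
    have := sum_range_sub (fun l : ℕ => √(l : ℝ)) (a + 1)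
    simpa using this
  simp only [h2, smul_eq_mul] at h
  unfold S2
  rw [h]
  apply sum_le_sum
  intro l _
  rw [div_eq_mul_inv]
  apply mul_le_mul_of_nonneg_left _ (hs.nonneg l)
  have h3 : 0 < √((l : ℝ) + 1) := Real.sqrt_pos.mpr (by positivity)
  have h4 : 0 ≤ √(l : ℝ) := Real.sqrt_nonneg _
  have h5 : √((l : ℝ) + 1) * √((l : ℝ) + 1) = l + 1 := Real.mul_self_sqrt (by positivity)
  have h6 : √(l : ℝ) * √(l : ℝ) = l := Real.mul_self_sqrt (by positivity)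
  have h7 : √(l : ℝ) ≤ √((l : ℝ) + 1) := Real.sqrt_le_sqrt (by linarith)
  rw [← one_div, le_div_iff₀ h3]
  nlinarith

lemma sum_le_rpow {p r : ℝ} (hpr : p.HolderConjugate r) {s : ℕ → ℝ} (hs : ∀ l, 0 ≤ s l) :
    ∑ l ∈ range N, s l ≤ (N : ℝ) ^ (1 / r) * (∑ l ∈ range N, s l ^ p) ^ (1 / p) := by
  have h := Real.inner_le_Lp_mul_Lq (range N) s (fun _ => (1 : ℝ)) hpr
  simp only [mul_one, abs_one, Real.one_rpow, sum_const, card_range, nsmul_eq_mul] at h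
  rw [mul_comm]
  refine h.trans (le_of_eq ?_)
  congr 2
  apply sum_congr rfl
  intro l _
  rw [abs_of_nonneg (hs l)]

/-- The constant of the Lorentz embedding. -/
noncomputable def lor (r : ℝ) : ℝ := (∑' l : ℕ, ((l : ℝ) + 1) ^ (-(r / 2))) ^ (1 / r)

lemma lor_nonneg (r : ℝ) : 0 ≤ lor r :=
  Real.rpow_nonneg (tsum_nonneg fun l => Real.rpow_nonneg (by positivity) _) _

lemma sum_div_sqrt_le {p r : ℝ} (hpr : p.HolderConjugate r) (hr : 2 < r) {s : ℕ → ℝ}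
    (hs : ∀ l, 0 ≤ s l) :
    ∑ l ∈ range N, s l / √((l : ℝ) + 1) ≤ lor r * (∑ l ∈ range N, s l ^ p) ^ (1 / p) := by
  have h := Real.inner_le_Lp_mul_Lq (range N) s (fun l => (√((l : ℝ) + 1))⁻¹) hpr
  have h1 : ∑ l ∈ range N, |s l| ^ p = ∑ l ∈ range N, s l ^ p := by
    apply sum_congr rfl
    intro l _
    rw [abs_of_nonneg (hs l)]
  have hterm : ∀ l : ℕ, |(√((l : ℝ) + 1))⁻¹| ^ r = ((l : ℝ) + 1) ^ (-(r / 2)) := by
    intro l
    have h0 : (0 : ℝ) < l + 1 := by positivity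
    rw [abs_of_pos (inv_pos.mpr (Real.sqrt_pos.mpr h0)), Real.sqrt_eq_rpow, ← Real.rpow_neg h0.le,
      ← Real.rpow_mul h0.le]
    congr 1
    ring
  have hsummable : Summable fun l : ℕ => ((l : ℝ) + 1) ^ (-(r / 2)) := by
    have h2 : Summable fun l : ℕ => ((l : ℝ)) ^ (-(r / 2)) :=
      Real.summable_nat_rpow.mpr (by linarith)
    have h3 := (summable_nat_add_iff 1).mpr h2
    simpa using h3
  have h4 : ∑ l ∈ range N, |(√((l : ℝ) + 1))⁻¹| ^ r ≤ ∑' l : ℕ, ((l : ℝ) + 1) ^ (-(r / 2)) := by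
    simp_rw [hterm]
    exact hsummable.sum_le_tsum _ (fun l _ => Real.rpow_nonneg (by positivity) _)
  rw [h1] at h
  simp_rw [div_eq_mul_inv]
  refine h.trans ?_
  rw [mul_comm]
  apply mul_le_mul_of_nonneg_right _ (Real.rpow_nonneg (sum_nonneg fun l _ =>
    Real.rpow_nonneg (hs l) _) _)
  apply Real.rpow_le_rpow (sum_nonneg fun l _ => Real.rpow_nonneg (abs_nonneg _) _) h4
  have : 0 < r := by linarith
  positivity

end SchEmb
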