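import Pool.Agent.H2.Sch.Good

/-! Bilinear and one-sided estimates for a good projection on flat matrices. -/

open Module
open scoped InnerProductSpace

namespace SchEmb

variable {N m : ℕ} {P : EF N →ₗ[ℝ] EF N}

lemma sqrt_mul_le_add {x y : ℝ} (hx : 0 ≤ x) (hy : 0 ≤ y) : √(x * y) ≤ (x + y) / 2 := by
  rw [Real.sqrt_mul hx]
  nlinarith [sq_nonneg (√x - √y), Real.sq_sqrt hx, Real.sq_sqrt hy]

lemma proj_flat (hP : IsGood m P) (hN : 1 ≤ N) {a : ℕ} (ha : 1 ≤ a) (haN : a ≤ N)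
    {X Y : Matrix (Fin N) (Fin a) ℝ} (hX : IsContr X) (hY : IsContr Y) :
    ‖P (vec N (X * Y.transpose))‖ ≤ 48 * √(a : ℝ) * (√(m : ℝ) + √(N : ℝ) * √(a : ℝ)) / N := by
  have hN' : (0 : ℝ) < N := by exact_mod_cast hN
  have ha' : (0 : ℝ) < a := by exact_mod_cast ha
  have hm0 : (0 : ℝ) ≤ m := Nat.cast_nonneg _
  set V := vec N (X * Y.transpose) with hV
  have h1 := hP.dev a a ha haN ha haN X Y X Y hX hY hX hY
  have h2 : ‖P V‖ ^ 2 = psi P (m / (N : ℝ) ^ 2) (X * Y.transpose) (X * Y.transpose) +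
      m / (N : ℝ) ^ 2 * ‖V‖ ^ 2 := by
    unfold psi
    rw [← hV, ← real_inner_self_eq_norm_sq V, hP.proj.idem, real_inner_self_eq_norm_sq (P V)]
    ring
  have h3 : ‖V‖ ^ 2 ≤ a := frob_flat_le hX hY
  have h4 : thr N m a a ≤ 8 * (m + 2 * (N * a)) + 128 * (N * a) := by
    unfold thr
    have := sqrt_mul_le_add hm0 (show (0 : ℝ) ≤ (N : ℝ) * (a + a) by positivity)
    nlinarith
  have h5 : √(a : ℝ) * √(a : ℝ) = a := Real.mul_self_sqrt ha'.le
  have h6 : ‖P V‖ ^ 2 ≤ a * (129 * m + 2304 * (N * a)) / (N : ℝ) ^ 2 := by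
    rw [h2]
    have h7 : psi P (m / (N : ℝ) ^ 2) (X * Y.transpose) (X * Y.transpose) ≤
        16 * (a * (8 * (m + 2 * (N * a)) + 128 * (N * a)) / (N : ℝ) ^ 2) := by
      refine (le_abs_self _).trans (h1.trans ?_)
      rw [h5]
      have : (a : ℝ) * thr N m a a / (N : ℝ) ^ 2 ≤
          a * (8 * (m + 2 * (N * a)) + 128 * (N * a)) / (N : ℝ) ^ 2 :=
        div_le_div_of_nonneg_right (mul_le_mul_of_nonneg_left h4 ha'.le) (by positivity)
      linarith
    have h8 : m / (N : ℝ) ^ 2 * ‖V‖ ^ 2 ≤ m / (N : ℝ) ^ 2 * a :=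
      mul_le_mul_of_nonneg_left h3 (by positivity)
    have h9 : 16 * ((a : ℝ) * (8 * (m + 2 * (N * a)) + 128 * (N * a)) / (N : ℝ) ^ 2) +
        m / (N : ℝ) ^ 2 * a = a * (129 * m + 2304 * (N * a)) / (N : ℝ) ^ 2 := by
      field_simp
      ring
    linarith
  have h10 : a * (129 * m + 2304 * (N * a)) / (N : ℝ) ^ 2 ≤
      (48 * √(a : ℝ) * (√(m : ℝ) + √(N : ℝ) * √(a : ℝ)) / N) ^ 2 := by
    rw [div_pow]
    apply div_le_div_of_nonneg_right _ (by positivity)
    have e1 : √(m : ℝ) ^ 2 = m := Real.sq_sqrt hm0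
    have e2 : √(N : ℝ) ^ 2 = N := Real.sq_sqrt hN'.le
    have e3 : √(a : ℝ) ^ 2 = a := Real.sq_sqrt ha'.le
    have e4 : (48 * √(a : ℝ) * (√(m : ℝ) + √(N : ℝ) * √(a : ℝ))) ^ 2 =
        a * (2304 * (m + N * a + 2 * (√(m : ℝ) * √(N : ℝ) * √(a : ℝ)))) := by
      calc (48 * √(a : ℝ) * (√(m : ℝ) + √(N : ℝ) * √(a : ℝ))) ^ 2 =
          √(a : ℝ) ^ 2 * (2304 * (√(m : ℝ) ^ 2 + √(N : ℝ) ^ 2 * √(a : ℝ) ^ 2 +
            2 * (√(m : ℝ) * √(N : ℝ) * √(a : ℝ)))) := by ring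
        _ = _ := by rw [e1, e2, e3]
    rw [e4]
    apply mul_le_mul_of_nonneg_left _ ha'.le
    have : 0 ≤ √(m : ℝ) * √(N : ℝ) * √(a : ℝ) := by positivity
    linarith
  exact le_of_sq_le_sq (h6.trans h10) (by positivity)

lemma norm_flat_le {a : ℕ} {X Y : Matrix (Fin N) (Fin a) ℝ} (hX : IsContr X) (hY : IsContr Y) :
    ‖vec N (X * Y.transpose)‖ ≤ √(a : ℝ) :=
  Real.le_sqrt_of_sq_le (frob_flat_le hX hY)

lemma sqrt_le_N (hmN : m ≤ N ^ 2) : √(m : ℝ) ≤ N := by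
  rw [Real.sqrt_le_left (Nat.cast_nonneg _)]
  exact_mod_cast hmN

lemma one_sided_flat (hP : IsGood m P) (hN : 1 ≤ N) (hmN : m ≤ N ^ 2) {a : ℕ} (ha : 1 ≤ a)
    (haN : a ≤ N) {X Y : Matrix (Fin N) (Fin a) ℝ} (hX : IsContr X) (hY : IsContr Y) :
    ‖P (vec N (X * Y.transpose)) - (m / (N : ℝ) ^ 2) • vec N (X * Y.transpose)‖ ≤
      49 / N * (√(m : ℝ) * √(a : ℝ) + √(N : ℝ) * a) := by
  have hN' : (0 : ℝ) < N := by exact_mod_cast hN
  have ha' : (0 : ℝ) < a := by exact_mod_cast ha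
  have hm0 : (0 : ℝ) ≤ m := Nat.cast_nonneg _
  have h1 := proj_flat hP hN ha haN hX hY
  have h2 : ‖(m / (N : ℝ) ^ 2) • vec N (X * Y.transpose)‖ ≤ √(m : ℝ) / N * √(a : ℝ) := by
    rw [norm_smul, Real.norm_eq_abs, abs_of_nonneg (by positivity)]
    apply mul_le_mul _ (norm_flat_le hX hY) (norm_nonneg _) (by positivity)
    rw [div_le_div_iff₀ (by positivity) hN']
    have e1 : √(m : ℝ) * √(m : ℝ) = m := Real.mul_self_sqrt hm0
    have e2 := sqrt_le_N hmN
    have e3 := Real.sqrt_nonneg (m : ℝ)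
    calc (m : ℝ) * N = √(m : ℝ) * √(m : ℝ) * N := by rw [e1]
      _ ≤ √(m : ℝ) * N * N := by
          apply mul_le_mul_of_nonneg_right _ hN'.le
          exact mul_le_mul_of_nonneg_left e2 e3
      _ = √(m : ℝ) * (N : ℝ) ^ 2 := by ring
  refine (norm_sub_le _ _).trans ((add_le_add h1 h2).trans ?_)
  have e3 : √(a : ℝ) * √(a : ℝ) = a := Real.mul_self_sqrt ha'.le
  have e4 : 48 * √(a : ℝ) * (√(m : ℝ) + √(N : ℝ) * √(a : ℝ)) / N + √(m : ℝ) / N * √(a : ℝ) =
      (49 * (√(m : ℝ) * √(a : ℝ)) + 48 * (√(N : ℝ) * (√(a : ℝ) * √(a : ℝ)))) / N := by ring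
  rw [e4, e3, div_mul_eq_mul_div, div_le_div_iff_of_pos_right hN']
  have : 0 ≤ √(N : ℝ) * a := by positivity
  linarith

lemma bil_flat (hP : IsGood m P) (hN : 1 ≤ N) (hm : 1 ≤ m) {a b : ℕ} (ha : 1 ≤ a)
    (haN : a ≤ N) (hb : 1 ≤ b) (hbN : b ≤ N) {X Y : Matrix (Fin N) (Fin a) ℝ}
    {Z W : Matrix (Fin N) (Fin b) ℝ} (hX : IsContr X) (hY : IsContr Y) (hZ : IsContr Z)
    (hW : IsContr W) :
    |psi P (m / (N : ℝ) ^ 2) (X * Y.transpose) (Z * W.transpose)| ≤
      5000 / (N : ℝ) ^ 2 * (√(m : ℝ) * √(N : ℝ) * (a * √(b : ℝ) + √(a : ℝ) * b) + N * (a * b)) := by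
  have hN' : (0 : ℝ) < N := by exact_mod_cast hN
  have ha' : (0 : ℝ) < a := by exact_mod_cast ha
  have hb' : (0 : ℝ) < b := by exact_mod_cast hb
  have hm' : (0 : ℝ) < m := by exact_mod_cast hm
  set μ := √(m : ℝ) with hμ
  set ν := √(N : ℝ) with hν
  set α := √(a : ℝ) with hα
  set β := √(b : ℝ) with hβ
  have eμ : μ * μ = m := Real.mul_self_sqrt hm'.le
  have eν : ν * ν = N := Real.mul_self_sqrt hN'.le
  have eα : α * α = a := Real.mul_self_sqrt ha'.le
  have eβ : β * β = b := Real.mul_self_sqrt hb'.le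
  have pμ : 0 < μ := Real.sqrt_pos.mpr hm'
  have pν : 0 < ν := Real.sqrt_pos.mpr hN'
  have pα : 0 < α := Real.sqrt_pos.mpr ha'
  have pβ : 0 < β := Real.sqrt_pos.mpr hb'
  have hrhs : 5000 / (N : ℝ) ^ 2 * (μ * ν * (a * β + α * b) + N * (a * b)) =
      α * β * (5000 * (μ * ν * (α + β) + ν * ν * (α * β))) / (N : ℝ) ^ 2 := by
    rw [← eα, ← eβ, ← eν]
    ring
  rw [hrhs]
  rcases le_total ((N : ℝ) * max (a : ℝ) b) m with hcase | hcase
  · -- many dimensions
    have h1 := hP.dev a b ha haN hb hbN X Y Z W hX hY hZ hW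
    refine h1.trans ?_
    rw [← mul_div_assoc]
    apply div_le_div_of_nonneg_right _ (by positivity)
    rw [mul_comm (16 : ℝ) (√(a : ℝ) * √(b : ℝ) * thr N m a b), mul_assoc]
    apply mul_le_mul_of_nonneg_left _ (by positivity)
    have hR0 : (0 : ℝ) ≤ N * (a + b) := by positivity
    have hab : (N : ℝ) * (a + b) ≤ 2 * m := by
      have h2 := mul_le_mul_of_nonneg_left (le_max_left (a : ℝ) b) hN'.le
      have h3 := mul_le_mul_of_nonneg_left (le_max_right (a : ℝ) b) hN'.le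
      linarith
    have hs1 : √((N : ℝ) * (a + b)) ≤ ν * (α + β) := by
      rw [Real.sqrt_le_left (by positivity)]
      rw [← eν, ← eα, ← eβ]
      nlinarith [mul_pos pα pβ, mul_pos pν pν, mul_pos (mul_pos pν pν) (mul_pos pα pβ)]
    have hs2 : √((m : ℝ) * (N * (a + b))) ≤ μ * (ν * (α + β)) := by
      rw [Real.sqrt_mul hm'.le]
      exact mul_le_mul_of_nonneg_left hs1 pμ.le
    have hs3 : (N : ℝ) * (a + b) ≤ 2 * (μ * (ν * (α + β))) := by
      have h4 : √((N : ℝ) * (a + b)) ≤ 2 * μ := by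
        rw [Real.sqrt_le_left (by positivity)]
        nlinarith
      have h5 : (N : ℝ) * (a + b) = √((N : ℝ) * (a + b)) * √((N : ℝ) * (a + b)) :=
        (Real.mul_self_sqrt hR0).symm
      rw [h5]
      calc √((N : ℝ) * (a + b)) * √((N : ℝ) * (a + b)) ≤ (2 * μ) * (ν * (α + β)) :=
            mul_le_mul h4 hs1 (Real.sqrt_nonneg _) (by positivity)
        _ = _ := by ring
    unfold thr
    have h6 : 0 ≤ ν * ν * (α * β) := by positivity
    have h7 : μ * (ν * (α + β)) = μ * ν * (α + β) := by ring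
    rw [h7] at hs2 hs3
    have h8 : 0 ≤ μ * ν * (α + β) := by positivity
    calc (16 * √((m : ℝ) * (N * (a + b))) + 64 * (N * (a + b))) * 16 ≤
        (16 * (μ * ν * (α + β)) + 64 * (2 * (μ * ν * (α + β)))) * 16 := by
          apply mul_le_mul_of_nonneg_right _ (by norm_num)
          linarith
      _ ≤ 5000 * (μ * ν * (α + β) + ν * ν * (α * β)) := by linarith
  · -- few dimensions
    have h1 := proj_flat hP hN ha haN hX hY
    have h2 := proj_flat hP hN hb hbN hZ hW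
    have h3 := norm_flat_le hX hY
    have h4 := norm_flat_le hZ hW
    have h5 : |psi P (m / (N : ℝ) ^ 2) (X * Y.transpose) (Z * W.transpose)| ≤
        ‖P (vec N (X * Y.transpose))‖ * ‖P (vec N (Z * W.transpose))‖ +
          m / (N : ℝ) ^ 2 * (‖vec N (X * Y.transpose)‖ * ‖vec N (Z * W.transpose)‖) := by
      unfold psi
      rw [hP.proj.idem]
      refine (abs_sub _ _).trans (add_le_add (abs_real_inner_le_norm _ _) ?_)
      rw [abs_mul, abs_of_nonneg (by positivity : (0 : ℝ) ≤ m / (N : ℝ) ^ 2)]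
      exact mul_le_mul_of_nonneg_left (abs_real_inner_le_norm _ _) (by positivity)
    refine h5.trans ?_
    have hmle : (m : ℝ) ≤ μ * ν * (α + β) := by
      have h6 : μ ≤ ν * (α + β) := by
        rw [hμ, Real.sqrt_le_left (by positivity)]
        refine hcase.trans ?_
        rcases max_cases (a : ℝ) b with ⟨h, _⟩ | ⟨h, _⟩
        · rw [h, ← eν, ← eα]
          nlinarith [mul_pos pα pβ, mul_pos pβ pβ, mul_pos pν pν,
            mul_pos (mul_pos pν pν) (mul_pos pα pβ), mul_pos (mul_pos pν pν) (mul_pos pβ pβ)]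
        · rw [h, ← eν, ← eβ]
          nlinarith [mul_pos pα pβ, mul_pos pα pα, mul_pos pν pν,
            mul_pos (mul_pos pν pν) (mul_pos pα pβ), mul_pos (mul_pos pν pν) (mul_pos pα pα)]
      calc (m : ℝ) = μ * μ := eμ.symm
        _ ≤ μ * (ν * (α + β)) := mul_le_mul_of_nonneg_left h6 pμ.le
        _ = _ := by ring
    calc ‖P (vec N (X * Y.transpose))‖ * ‖P (vec N (Z * W.transpose))‖ +
          m / (N : ℝ) ^ 2 * (‖vec N (X * Y.transpose)‖ * ‖vec N (Z * W.transpose)‖)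
        ≤ (48 * α * (μ + ν * α) / N) * (48 * β * (μ + ν * β) / N) +
          m / (N : ℝ) ^ 2 * (α * β) := by
          apply add_le_add
          · exact mul_le_mul h1 h2 (norm_nonneg _) (by positivity)
          · apply mul_le_mul_of_nonneg_left _ (by positivity)
            exact mul_le_mul h3 h4 (norm_nonneg _) (by positivity)
      _ = α * β * (2304 * (m + μ * ν * (α + β) + ν * ν * (α * β)) + m) / (N : ℝ) ^ 2 := by
          rw [← eμ]
          field_simp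
          ring
      _ ≤ _ := by
          apply div_le_div_of_nonneg_right _ (by positivity)
          apply mul_le_mul_of_nonneg_left _ (by positivity)
          have h8 : 0 ≤ μ * ν * (α + β) := by positivity
          have h9 : 0 ≤ ν * ν * (α * β) := by positivity
          linarith

end SchEmb
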