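import Pool.Agent.H2.Sch.Proj

/-! A projection of `N × N` matrices with small deviations on all pairs of flat matrices. -/

open Module
open scoped InnerProductSpace Matrix.Norms.L2Operator

namespace SchEmb

/-- The space of real `N × N` matrices. -/
abbrev Mt (N : ℕ) : Type := Matrix (Fin N) (Fin N) ℝ

/-- The Euclidean space carrying the Frobenius inner product. -/
abbrev EF (N : ℕ) : Type := EuclideanSpace ℝ (Fin N × Fin N)

/-- The Frobenius coordinates. -/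
noncomputable def vec (N : ℕ) : Mt N ≃ₗ[ℝ] EF N where
  toFun A := WithLp.toLp 2 (fun p => A p.1 p.2)
  invFun x := fun i j => x (i, j)
  map_add' A B := by
    ext p
    simp
  map_smul' c A := by
    ext p
    simp
  left_inv A := by
    ext i j
    rfl
  right_inv x := by
    ext p
    rfl

lemma vec_apply {N : ℕ} (A : Mt N) (p : Fin N × Fin N) : vec N A p = A p.1 p.2 := rfl

lemma inner_vec {N : ℕ} (A B : Mt N) : ⟪vec N A, vec N B⟫_ℝ = ∑ i, ∑ j, A i j * B i j := by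
  rw [inner_eq_sum, Fintype.sum_prod_type]
  rfl

lemma norm_vec_sq {N : ℕ} (A : Mt N) : ‖vec N A‖ ^ 2 = ∑ i, ∑ j, (A i j) ^ 2 := by
  rw [← real_inner_self_eq_norm_sq, inner_vec]
  simp_rw [sq]

/-- Contractions between Euclidean spaces. -/
def IsContr {N a : ℕ} (X : Matrix (Fin N) (Fin a) ℝ) : Prop :=
  ∀ c : Fin a → ℝ, ∑ i, (∑ l, X i l * c l) ^ 2 ≤ ∑ l, (c l) ^ 2

lemma norm_toEuclideanLin_sq {N a : ℕ} (X : Matrix (Fin N) (Fin a) ℝ) (c : EuclideanSpace ℝ (Fin a)) :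
    ‖Matrix.toEuclideanLin X c‖ ^ 2 = ∑ i, (∑ l, X i l * c l) ^ 2 := by
  rw [EuclideanSpace.real_norm_sq_eq]
  apply Finset.sum_congr rfl
  intro i _
  rfl

lemma isContr_of_norm_le {N a : ℕ} {X : Matrix (Fin N) (Fin a) ℝ} (h : ‖X‖ ≤ 1) : IsContr X := by
  intro c
  have h1 := Matrix.l2_opNorm_mulVec X (WithLp.toLp 2 c)
  have h2 : ‖Matrix.toEuclideanLin X (WithLp.toLp 2 c)‖ ≤ ‖(WithLp.toLp 2 c : EuclideanSpace ℝ (Fin a))‖ := by
    refine le_trans h1 ?_
    calc ‖X‖ * ‖(WithLp.toLp 2 c : EuclideanSpace ℝ (Fin a))‖ ≤ 1 * ‖(WithLp.toLp 2 c : EuclideanSpace ℝ (Fin a))‖ :=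
          mul_le_mul_of_nonneg_right h (norm_nonneg _)
      _ = _ := one_mul _
  have h3 := pow_le_pow_left₀ (norm_nonneg _) h2 2
  rw [norm_toEuclideanLin_sq, EuclideanSpace.real_norm_sq_eq] at h3
  exact h3

lemma norm_le_of_isContr {N a : ℕ} {X : Matrix (Fin N) (Fin a) ℝ} (h : IsContr X) : ‖X‖ ≤ 1 := by
  rw [Matrix.l2_opNorm_def]
  apply ContinuousLinearMap.opNorm_le_bound _ zero_le_one
  intro c
  rw [one_mul]
  have h1 : ‖Matrix.toEuclideanLin X c‖ ^ 2 ≤ ‖c‖ ^ 2 := by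
    rw [norm_toEuclideanLin_sq, EuclideanSpace.real_norm_sq_eq]
    exact h c
  exact le_of_sq_le_sq h1 (norm_nonneg _)

lemma frob_flat_le {N a : ℕ} {X Y : Matrix (Fin N) (Fin a) ℝ} (hX : IsContr X) (hY : IsContr Y) :
    ‖vec N (X * Y.transpose)‖ ^ 2 ≤ a := by
  rw [norm_vec_sq, Finset.sum_comm]
  calc ∑ j, ∑ i, ((X * Y.transpose) i j) ^ 2 ≤ ∑ j, ∑ l, (Y j l) ^ 2 := by
        apply Finset.sum_le_sum
        intro j _
        have := hX (fun l => Y j l)
        simpa [Matrix.mul_apply] using this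
    _ = ∑ l, ∑ j, (Y j l) ^ 2 := Finset.sum_comm
    _ ≤ ∑ l : Fin a, (1 : ℝ) := by
        apply Finset.sum_le_sum
        intro l _
        have := hY (Pi.single l 1)
        simpa [Pi.single_apply] using this
    _ = a := by simp

/-- The bilinear form `⟨(P - δ) A, B⟩`. -/
noncomputable def psi {N : ℕ} (P : EF N →ₗ[ℝ] EF N) (δ : ℝ) (A B : Mt N) : ℝ :=
  ⟪P (vec N A), vec N B⟫_ℝ - δ * ⟪vec N A, vec N B⟫_ℝ

lemma psi_add_left {N : ℕ} (P : EF N →ₗ[ℝ] EF N) (δ : ℝ) (A A' B : Mt N) :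
    psi P δ (A + A') B = psi P δ A B + psi P δ A' B := by
  unfold psi
  rw [map_add, map_add, inner_add_left, inner_add_left]
  ring

lemma psi_smul_left {N : ℕ} (P : EF N →ₗ[ℝ] EF N) (δ c : ℝ) (A B : Mt N) :
    psi P δ (c • A) B = c * psi P δ A B := by
  unfold psi
  rw [map_smul, map_smul, real_inner_smul_left, real_inner_smul_left]
  ring

lemma psi_add_right {N : ℕ} (P : EF N →ₗ[ℝ] EF N) (δ : ℝ) (A B B' : Mt N) :
    psi P δ A (B + B') = psi P δ A B + psi P δ A B' := by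
  unfold psi
  rw [map_add, inner_add_right, inner_add_right]
  ring

lemma psi_smul_right {N : ℕ} (P : EF N →ₗ[ℝ] EF N) (δ c : ℝ) (A B : Mt N) :
    psi P δ A (c • B) = c * psi P δ A B := by
  unfold psi
  rw [map_smul, real_inner_smul_right, real_inner_smul_right]
  ring

/-- The deviation threshold. -/
noncomputable def thr (N m a b : ℕ) : ℝ :=
  16 * √((m : ℝ) * (N * (a + b))) + 64 * (N * (a + b))

lemma thr_pos {N m a b : ℕ} (hN : 1 ≤ N) (ha : 1 ≤ a) : 0 < thr N m a b := by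
  unfold thr
  have : (0 : ℝ) < N * (a + b) := by
    have h1 : (0 : ℝ) < N := by exact_mod_cast hN
    have h2 : (0 : ℝ) < a := by exact_mod_cast ha
    positivity
  positivity

lemma thr_min {N m a b : ℕ} (hm : 1 ≤ m) :
    8 * ((N : ℝ) * (a + b)) ≤ min (thr N m a b ^ 2 / (16 * m)) (thr N m a b / 8) := by
  have hm' : (0 : ℝ) < m := by exact_mod_cast hm
  set R : ℝ := (N : ℝ) * (a + b) with hR
  have hR0 : 0 ≤ R := by positivity
  have hs : √((m : ℝ) * R) ^ 2 = m * R := Real.sq_sqrt (by positivity)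
  have hs0 := Real.sqrt_nonneg ((m : ℝ) * R)
  have hthr : thr N m a b = 16 * √((m : ℝ) * R) + 64 * R := rfl
  rw [hthr]
  apply le_min
  · rw [le_div_iff₀ (by positivity)]
    nlinarith [mul_nonneg hs0 hR0, mul_nonneg hm'.le hR0, sq_nonneg R]
  · nlinarith

lemma five_pow_le (n : ℕ) : ((5 : ℝ) ^ n) ≤ Real.exp (2 * n) := by
  have h1 : (5 : ℝ) ≤ Real.exp 2 := by
    have h2 := Real.exp_one_gt_d9
    have h3 : Real.exp 2 = Real.exp 1 * Real.exp 1 := by
      rw [← Real.exp_add]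
      norm_num
    rw [h3]
    nlinarith
  calc (5 : ℝ) ^ n ≤ (Real.exp 2) ^ n := pow_le_pow_left₀ (by norm_num) h1 n
    _ = Real.exp (2 * n) := by
        rw [← Real.exp_nat_mul]
        congr 1
        ring

lemma four_mul_sq_lt_exp {N : ℕ} (hN : 1 ≤ N) : 4 * ((N : ℝ) ^ 2) * Real.exp (-(8 * N)) < 1 := by
  have h0 : (0 : ℝ) < N := by exact_mod_cast hN
  have h1 : 1 + 4 * (N : ℝ) ≤ Real.exp (4 * N) := by
    have := Real.add_one_le_exp (4 * (N : ℝ))
    linarith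
  have h2 : Real.exp (8 * N) = Real.exp (4 * N) * Real.exp (4 * N) := by
    rw [← Real.exp_add]
    ring_nf
  rw [Real.exp_neg, ← div_eq_mul_inv, div_lt_one (Real.exp_pos _), h2]
  nlinarith

end SchEmb
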