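import Pool.Agent.H2.Sch.Flat

/-! The good projection. -/

open Module
open scoped InnerProductSpace Matrix.Norms.L2Operator

namespace SchEmb

/-- Chosen nets of contractions. -/
noncomputable def net (N a : ℕ) : Finset (Matrix (Fin N) (Fin a) ℝ) :=
  (exists_net (Matrix (Fin N) (Fin a) ℝ)).choose

lemma net_card (N a : ℕ) : (net N a).card ≤ 5 ^ (N * a) := by
  have h : (net N a).card ≤ 5 ^ finrank ℝ (Matrix (Fin N) (Fin a) ℝ) :=
    (exists_net (Matrix (Fin N) (Fin a) ℝ)).choose_spec.1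
  have h2 : finrank ℝ (Matrix (Fin N) (Fin a) ℝ) = N * a := by
    rw [Module.finrank_matrix]
    simp
  rwa [h2] at h

lemma net_isNet (N a : ℕ) : IsNet (net N a) :=
  (exists_net (Matrix (Fin N) (Fin a) ℝ)).choose_spec.2

/-- The index type of the union bound. -/
abbrev Idx (N : ℕ) : Type :=
  Σ ab : Fin N × Fin N, ({x // x ∈ net N (ab.1 + 1)} × {x // x ∈ net N (ab.1 + 1)} ×
    {x // x ∈ net N (ab.2 + 1)} × {x // x ∈ net N (ab.2 + 1)}) × Bool

/-- The vectors of the union bound. -/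
noncomputable def wv {N : ℕ} (k : Idx N) : EF N :=
  (√((k.1.1 : ℕ) + 1 : ℝ))⁻¹ • vec N (k.2.1.1.1 * k.2.1.2.1.1.transpose) +
    (if k.2.2 then (1 : ℝ) else -1) • (√((k.1.2 : ℕ) + 1 : ℝ))⁻¹ •
      vec N (k.2.1.2.2.1.1 * k.2.1.2.2.2.1.transpose)

lemma idx_sum {N m : ℕ} (hN : 1 ≤ N) (hm : 1 ≤ m) :
    ∑ k : Idx N, 2 * Real.exp (-(min (thr N m (k.1.1 + 1) (k.1.2 + 1) ^ 2 / (16 * m))
      (thr N m (k.1.1 + 1) (k.1.2 + 1) / 8))) < 1 := by
  have hN' : (1 : ℝ) ≤ N := by exact_mod_cast hN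
  rw [Fintype.sum_sigma]
  refine lt_of_le_of_lt ?_ (four_mul_sq_lt_exp hN)
  calc ∑ ab : Fin N × Fin N, ∑ y : ({x // x ∈ net N (ab.1 + 1)} × {x // x ∈ net N (ab.1 + 1)} ×
          {x // x ∈ net N (ab.2 + 1)} × {x // x ∈ net N (ab.2 + 1)}) × Bool,
          2 * Real.exp (-(min (thr N m (ab.1 + 1) (ab.2 + 1) ^ 2 / (16 * m))
            (thr N m (ab.1 + 1) (ab.2 + 1) / 8)))
      ≤ ∑ ab : Fin N × Fin N, 4 * Real.exp (-(8 * N)) := by
        apply Finset.sum_le_sum
        rintro ⟨a, b⟩ _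
        simp only []
        rw [Finset.sum_const, Finset.card_univ, nsmul_eq_mul]
        have hcard : (Fintype.card (({x // x ∈ net N ((a : ℕ) + 1)} × {x // x ∈ net N ((a : ℕ) + 1)} ×
          {x // x ∈ net N ((b : ℕ) + 1)} × {x // x ∈ net N ((b : ℕ) + 1)}) × Bool) : ℝ) ≤
            2 * Real.exp (4 * (N * (((a : ℕ) + 1 : ℝ) + ((b : ℕ) + 1)))) := by
          rw [Fintype.card_prod, Fintype.card_prod, Fintype.card_prod, Fintype.card_prod,
            Fintype.card_coe, Fintype.card_coe, Fintype.card_bool]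
          push_cast
          have h1 : ((net N ((a : ℕ) + 1)).card : ℝ) ≤ Real.exp (2 * (N * ((a : ℕ) + 1))) := by
            calc ((net N ((a : ℕ) + 1)).card : ℝ) ≤ ((5 ^ (N * ((a : ℕ) + 1)) : ℕ) : ℝ) := by
                  exact_mod_cast net_card N (a + 1)
              _ = (5 : ℝ) ^ (N * ((a : ℕ) + 1)) := by push_cast; ring
              _ ≤ Real.exp (2 * ((N * ((a : ℕ) + 1) : ℕ) : ℝ)) := five_pow_le _
              _ = _ := by push_cast; ring_nf
          have h2 : ((net N ((b : ℕ) + 1)).card : ℝ) ≤ Real.exp (2 * (N * ((b : ℕ) + 1))) := by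
            calc ((net N ((b : ℕ) + 1)).card : ℝ) ≤ ((5 ^ (N * ((b : ℕ) + 1)) : ℕ) : ℝ) := by
                  exact_mod_cast net_card N (b + 1)
              _ = (5 : ℝ) ^ (N * ((b : ℕ) + 1)) := by push_cast; ring
              _ ≤ Real.exp (2 * ((N * ((b : ℕ) + 1) : ℕ) : ℝ)) := five_pow_le _
              _ = _ := by push_cast; ring_nf
          set A := Real.exp (2 * ((N : ℝ) * ((a : ℕ) + 1))) with hA
          set B := Real.exp (2 * ((N : ℝ) * ((b : ℕ) + 1))) with hB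
          have hA0 : 0 < A := Real.exp_pos _
          have hB0 : 0 < B := Real.exp_pos _
          have h3 : Real.exp (4 * (N * (((a : ℕ) + 1 : ℝ) + ((b : ℕ) + 1)))) = A * (A * (B * B)) := by
            rw [hA, hB, ← Real.exp_add, ← Real.exp_add, ← Real.exp_add]
            congr 1
            ring
          rw [h3]
          have hc1 : (0 : ℝ) ≤ (net N ((a : ℕ) + 1)).card := Nat.cast_nonneg _
          have hc2 : (0 : ℝ) ≤ (net N ((b : ℕ) + 1)).card := Nat.cast_nonneg _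
          have h4 : ((net N ((b : ℕ) + 1)).card : ℝ) * (net N ((b : ℕ) + 1)).card ≤ B * B :=
            mul_le_mul h2 h2 hc2 hB0.le
          have h5 : ((net N ((a : ℕ) + 1)).card : ℝ) *
              (((net N ((b : ℕ) + 1)).card : ℝ) * (net N ((b : ℕ) + 1)).card) ≤ A * (B * B) :=
            mul_le_mul h1 h4 (by positivity) hA0.le
          have h6 : ((net N ((a : ℕ) + 1)).card : ℝ) * (((net N ((a : ℕ) + 1)).card : ℝ) *
              (((net N ((b : ℕ) + 1)).card : ℝ) * (net N ((b : ℕ) + 1)).card)) ≤ A * (A * (B * B)) :=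
            mul_le_mul h1 h5 (by positivity) hA0.le
          linarith
        have hmin := thr_min (N := N) (m := m) (a := (a : ℕ) + 1) (b := (b : ℕ) + 1) hm
        set R : ℝ := N * (((a : ℕ) + 1 : ℝ) + ((b : ℕ) + 1)) with hR
        have hR2 : 2 * (N : ℝ) ≤ R := by
          have ha : (0 : ℝ) ≤ (a : ℕ) := Nat.cast_nonneg _
          have hb : (0 : ℝ) ≤ (b : ℕ) := Nat.cast_nonneg _
          rw [hR]
          nlinarith
        have hmin' : 8 * R ≤ min (thr N m (a + 1) (b + 1) ^ 2 / (16 * m))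
            (thr N m (a + 1) (b + 1) / 8) := by
          refine le_trans (le_of_eq ?_) hmin
          rw [hR]
          push_cast
          ring
        have hexp : Real.exp (-(min (thr N m (a + 1) (b + 1) ^ 2 / (16 * m))
            (thr N m (a + 1) (b + 1) / 8))) ≤ Real.exp (-(8 * R)) :=
          Real.exp_le_exp.mpr (by linarith)
        calc _ ≤ (2 * Real.exp (4 * R)) * (2 * Real.exp (-(8 * R))) := by
              apply mul_le_mul hcard _ (by positivity) (by positivity)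
              linarith
          _ = 4 * Real.exp (-(4 * R)) := by
              have : Real.exp (-(4 * R)) = Real.exp (4 * R) * Real.exp (-(8 * R)) := by
                rw [← Real.exp_add]
                congr 1
                ring
              rw [this]
              ring
          _ ≤ 4 * Real.exp (-(8 * N)) := by
              have : Real.exp (-(4 * R)) ≤ Real.exp (-(8 * N)) := Real.exp_le_exp.mpr (by linarith)
              linarith
    _ = 4 * (N : ℝ) ^ 2 * Real.exp (-(8 * N)) := by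
        rw [Finset.sum_const, Finset.card_univ, nsmul_eq_mul, Fintype.card_prod, Fintype.card_fin]
        push_cast
        ring

/-- The key estimate for one projection. -/
structure IsGood {N : ℕ} (m : ℕ) (P : EF N →ₗ[ℝ] EF N) : Prop where
  proj : IsOProj P
  rank : finrank ℝ (LinearMap.range P) ≤ m
  corank : finrank ℝ (LinearMap.range (LinearMap.id - P)) ≤ N ^ 2 - m
  dev : ∀ a b : ℕ, 1 ≤ a → a ≤ N → 1 ≤ b → b ≤ N →
    ∀ (X Y : Matrix (Fin N) (Fin a) ℝ) (Z W : Matrix (Fin N) (Fin b) ℝ),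
      IsContr X → IsContr Y → IsContr Z → IsContr W →
      |psi P (m / (N : ℝ) ^ 2) (X * Y.transpose) (Z * W.transpose)| ≤
        16 * (√(a : ℝ) * √(b : ℝ) * thr N m a b / (N : ℝ) ^ 2)

theorem exists_good {N m : ℕ} (hm : 1 ≤ m) (hmN : m ≤ N ^ 2) :
    ∃ P : EF N →ₗ[ℝ] EF N, IsGood m P := by
  classical
  have hN : 1 ≤ N := by
    rcases Nat.eq_zero_or_pos N with h | h
    · subst h
      simp at hmN
      omega
    · exact h
  have hN' : (0 : ℝ) < N := by exact_mod_cast hN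
  have hcard : Fintype.card (Fin N × Fin N) = N ^ 2 := by
    rw [Fintype.card_prod, Fintype.card_fin, sq]
  obtain ⟨P, hP, hr1, hr2, hdev⟩ := exists_proj_family (ι := Fin N × Fin N) hm
    (by rw [hcard]; exact hmN) (wv (N := N)) (fun k => thr N m (k.1.1 + 1) (k.1.2 + 1))
    (fun k => thr_pos hN (by omega)) (idx_sum hN hm)
  rw [hcard] at hr2 hdev
  push_cast at hdev
  refine ⟨P, hP, hr1, hr2, ?_⟩
  intro a b ha haN hb hbN X Y Z W hX hY hZ hW
  obtain ⟨a, rfl⟩ : ∃ a', a = a' + 1 := ⟨a - 1, by omega⟩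
  obtain ⟨b, rfl⟩ : ∃ b', b = b' + 1 := ⟨b - 1, by omega⟩
  have hN2 : (0 : ℝ) < (N : ℝ) ^ 2 := by positivity
  refine quad_bound_of_net (net_isNet N (a + 1)) (net_isNet N (b + 1))
    (fun X Y Z W => psi P (m / (N : ℝ) ^ 2) (X * Y.transpose) (Z * W.transpose))
    ?_ ?_ ?_ ?_ ?_ (norm_le_of_isContr hX) (norm_le_of_isContr hY) (norm_le_of_isContr hZ)
    (norm_le_of_isContr hW)
  · intro Y Z W
    constructor
    · intro X X'
      rw [Matrix.add_mul, psi_add_left]
    · intro c X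
      rw [Matrix.smul_mul, psi_smul_left, smul_eq_mul]
  · intro X Z W
    constructor
    · intro Y Y'
      rw [Matrix.transpose_add, Matrix.mul_add, psi_add_left]
    · intro c Y
      rw [Matrix.transpose_smul, Matrix.mul_smul, psi_smul_left, smul_eq_mul]
  · intro X Y W
    constructor
    · intro Z Z'
      rw [Matrix.add_mul, psi_add_right]
    · intro c Z
      rw [Matrix.smul_mul, psi_smul_right, smul_eq_mul]
  · intro X Y Z
    constructor
    · intro W W'
      rw [Matrix.transpose_add, Matrix.mul_add, psi_add_right]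
    · intro c W
      rw [Matrix.transpose_smul, Matrix.mul_smul, psi_smul_right, smul_eq_mul]
  · intro X hX Y hY Z hZ W hW
    set u : EF N := (√((a : ℝ) + 1))⁻¹ • vec N (X * Y.transpose) with hu
    set v : EF N := (√((b : ℝ) + 1))⁻¹ • vec N (Z * W.transpose) with hv
    have hsa : 0 < √((a : ℝ) + 1) := Real.sqrt_pos.mpr (by positivity)
    have hsb : 0 < √((b : ℝ) + 1) := Real.sqrt_pos.mpr (by positivity)
    have hu1 : ‖u‖ ^ 2 ≤ 1 := by
      have h1 := frob_flat_le (isContr_of_norm_le ((net_isNet N (a + 1)).1 X hX))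
        (isContr_of_norm_le ((net_isNet N (a + 1)).1 Y hY))
      rw [hu, norm_smul, mul_pow, norm_inv, Real.norm_eq_abs, abs_of_pos hsa, inv_pow,
        Real.sq_sqrt (by positivity), inv_mul_le_iff₀ (by positivity), mul_one]
      push_cast at h1
      exact h1
    have hv1 : ‖v‖ ^ 2 ≤ 1 := by
      have h1 := frob_flat_le (isContr_of_norm_le ((net_isNet N (b + 1)).1 Z hZ))
        (isContr_of_norm_le ((net_isNet N (b + 1)).1 W hW))
      rw [hv, norm_smul, mul_pow, norm_inv, Real.norm_eq_abs, abs_of_pos hsb, inv_pow,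
        Real.sq_sqrt (by positivity), inv_mul_le_iff₀ (by positivity), mul_one]
      push_cast at h1
      exact h1
    have hk1 := hdev ⟨(⟨a, by omega⟩, ⟨b, by omega⟩), (⟨X, hX⟩, ⟨Y, hY⟩, ⟨Z, hZ⟩, ⟨W, hW⟩), true⟩
    have hk2 := hdev ⟨(⟨a, by omega⟩, ⟨b, by omega⟩), (⟨X, hX⟩, ⟨Y, hY⟩, ⟨Z, hZ⟩, ⟨W, hW⟩), false⟩
    have hw1 : wv ⟨(⟨a, by omega⟩, ⟨b, by omega⟩), (⟨X, hX⟩, ⟨Y, hY⟩, ⟨Z, hZ⟩, ⟨W, hW⟩), true⟩ = u + v := by
      simp only [wv, hu, hv, if_true, one_smul]
    have hw2 : wv ⟨(⟨a, by omega⟩, ⟨b, by omega⟩), (⟨X, hX⟩, ⟨Y, hY⟩, ⟨Z, hZ⟩, ⟨W, hW⟩), false⟩ = u - v := by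
      simp only [wv, hu, hv]
      simp only [Bool.false_eq_true, if_false, neg_smul, one_smul]
      rw [sub_eq_add_neg]
    rw [hw1] at hk1
    rw [hw2] at hk2
    set t := thr N m (a + 1) (b + 1) with ht
    have ht0 : 0 < t := thr_pos hN (by omega)
    have hbil : 4 * ((N : ℝ) ^ 2 * ⟪P u, v⟫_ℝ - m * ⟪u, v⟫_ℝ) =
        ((N : ℝ) ^ 2 * ‖P (u + v)‖ ^ 2 - m * ‖u + v‖ ^ 2) -
          ((N : ℝ) ^ 2 * ‖P (u - v)‖ ^ 2 - m * ‖u - v‖ ^ 2) := by
      have e1 : ‖P (u + v)‖ ^ 2 - ‖P (u - v)‖ ^ 2 = 4 * ⟪P u, P v⟫_ℝ := by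
        rw [map_add, map_sub, norm_add_sq_real, norm_sub_sq_real]
        ring
      have e2 : ‖u + v‖ ^ 2 - ‖u - v‖ ^ 2 = 4 * ⟪u, v⟫_ℝ := by
        rw [norm_add_sq_real, norm_sub_sq_real]
        ring
      rw [hP.idem]
      linear_combination (-(N : ℝ) ^ 2) * e1 + (m : ℝ) * e2
    have hpar : ‖u + v‖ ^ 2 + ‖u - v‖ ^ 2 ≤ 4 := by
      rw [norm_add_sq_real, norm_sub_sq_real]
      linarith
    have hmain : |(N : ℝ) ^ 2 * ⟪P u, v⟫_ℝ - m * ⟪u, v⟫_ℝ| ≤ t := by
      have h1 : |4 * ((N : ℝ) ^ 2 * ⟪P u, v⟫_ℝ - m * ⟪u, v⟫_ℝ)| ≤ t * 4 := by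
        rw [hbil]
        refine (abs_sub _ _).trans ?_
        refine (add_le_add hk1 hk2).trans ?_
        rw [← mul_add]
        exact mul_le_mul_of_nonneg_left hpar ht0.le
      rw [abs_mul, abs_of_pos (by norm_num : (0 : ℝ) < 4)] at h1
      linarith
    have hAu : vec N (X * Y.transpose) = √((a : ℝ) + 1) • u := by
      rw [hu, smul_smul, mul_inv_cancel₀ hsa.ne', one_smul]
    have hBv : vec N (Z * W.transpose) = √((b : ℝ) + 1) • v := by
      rw [hv, smul_smul, mul_inv_cancel₀ hsb.ne', one_smul]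
    have hpsi : psi P (m / (N : ℝ) ^ 2) (X * Y.transpose) (Z * W.transpose) =
        √((a : ℝ) + 1) * √((b : ℝ) + 1) * (((N : ℝ) ^ 2 * ⟪P u, v⟫_ℝ - m * ⟪u, v⟫_ℝ) / (N : ℝ) ^ 2) := by
      have e1 : ⟪P (√((a : ℝ) + 1) • u), √((b : ℝ) + 1) • v⟫_ℝ =
          √((a : ℝ) + 1) * √((b : ℝ) + 1) * ⟪P u, v⟫_ℝ := by
        rw [map_smul, real_inner_smul_left, real_inner_smul_right]
        ring
      have e2 : ⟪√((a : ℝ) + 1) • u, √((b : ℝ) + 1) • v⟫_ℝ =
          √((a : ℝ) + 1) * √((b : ℝ) + 1) * ⟪u, v⟫_ℝ := by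
        rw [real_inner_smul_left, real_inner_smul_right]
        ring
      unfold psi
      rw [hAu, hBv, e1, e2]
      field_simp
    rw [hpsi, abs_mul, abs_mul, abs_of_pos hsa, abs_of_pos hsb, abs_div, abs_of_pos hN2]
    push_cast
    rw [mul_div_assoc]
    apply mul_le_mul_of_nonneg_left _ (by positivity)
    exact div_le_div_of_nonneg_right hmain hN2.le

end SchEmb
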