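import Mathlib

/-! Existence of rotations with prescribed small deviations (Haar measure on the orthogonal group of a
Euclidean space, moment generating function through the Gaussian measure). -/

open MeasureTheory Real
open scoped ENNReal InnerProductSpace

namespace SchEmb

variable {ι : Type*} [Fintype ι]

/-- The quadratic form of a coordinate projection. -/
noncomputable def cq (S : Finset ι) (x : EuclideanSpace ℝ ι) : ℝ := ∑ i ∈ S, (x i) ^ 2

lemma cq_nonneg (S : Finset ι) (x : EuclideanSpace ℝ ι) : 0 ≤ cq S x :=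
  Finset.sum_nonneg fun _ _ => sq_nonneg _

lemma cq_univ (x : EuclideanSpace ℝ ι) : cq Finset.univ x = ‖x‖ ^ 2 := by
  rw [cq, EuclideanSpace.real_norm_sq_eq]

lemma cq_le (S : Finset ι) (x : EuclideanSpace ℝ ι) : cq S x ≤ ‖x‖ ^ 2 := by
  rw [← cq_univ]
  exact Finset.sum_le_sum_of_subset_of_nonneg (Finset.subset_univ _) fun i _ _ => sq_nonneg _

lemma cq_smul (S : Finset ι) (c : ℝ) (x : EuclideanSpace ℝ ι) : cq S (c • x) = c ^ 2 * cq S x := by
  simp only [cq, PiLp.smul_apply, smul_eq_mul, mul_pow, Finset.mul_sum]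

lemma continuous_cq (S : Finset ι) : Continuous (cq S) := by
  unfold cq
  fun_prop

lemma lintegral_gauss_diag (c : ι → ℝ) (hc : ∀ i, c i < 1 / 2) :
    ∫⁻ x : EuclideanSpace ℝ ι, ENNReal.ofReal (Real.exp ((∑ i, c i * (x i) ^ 2) - ‖x‖ ^ 2 / 2)) =
      ENNReal.ofReal (∏ i, √(π / (1 / 2 - c i))) := by
  have hcont : Continuous fun x : EuclideanSpace ℝ ι =>
      ENNReal.ofReal (Real.exp ((∑ i, c i * (x i) ^ 2) - ‖x‖ ^ 2 / 2)) := by
    apply ENNReal.continuous_ofReal.comp
    apply Real.continuous_exp.comp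
    fun_prop
  rw [← (PiLp.volume_preserving_toLp ι).lintegral_comp hcont.measurable]
  have h1 : ∀ x : ι → ℝ, ENNReal.ofReal (Real.exp ((∑ i, c i * ((WithLp.toLp 2 x : EuclideanSpace ℝ ι) i) ^ 2)
      - ‖(WithLp.toLp 2 x : EuclideanSpace ℝ ι)‖ ^ 2 / 2)) =
      ENNReal.ofReal (∏ i, Real.exp (-(1 / 2 - c i) * (x i) ^ 2)) := by
    intro x
    rw [← Real.exp_sum, EuclideanSpace.real_norm_sq_eq]
    congr 2
    rw [Finset.sum_div, ← Finset.sum_sub_distrib]
    apply Finset.sum_congr rfl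
    intro i _
    simp only []
    ring
  simp_rw [h1]
  have hint : ∀ i, Integrable (fun x : ℝ => Real.exp (-(1 / 2 - c i) * x ^ 2)) := fun i =>
    integrable_exp_neg_mul_sq (by linarith [hc i])
  rw [← ofReal_integral_eq_lintegral_ofReal]
  · rw [integral_fintype_prod_volume_eq_prod (fun i x => Real.exp (-(1 / 2 - c i) * x ^ 2))]
    congr 1
    apply Finset.prod_congr rfl
    intro i _
    rw [integral_gaussian]
  · exact Integrable.fintype_prod (f := fun i x => Real.exp (-(1 / 2 - c i) * x ^ 2)) hint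
  · filter_upwards with x
    exact Finset.prod_nonneg fun i _ => (Real.exp_pos _).le

lemma inv_one_sub_le {y : ℝ} (hy : |y| ≤ 1 / 2) : 1 / (1 - y) ≤ Real.exp (y + 2 * y ^ 2) := by
  have h1 : |y| < 1 := by linarith
  have h0 : 0 < 1 - y := by
    have := le_abs_self y
    linarith
  have h := Real.abs_log_sub_add_sum_range_le h1 1
  simp only [Finset.range_one, Finset.sum_singleton, zero_add, pow_one, Nat.cast_zero, div_one] at h
  have h2 : |y| ^ (1 + 1) / (1 - |y|) ≤ 2 * y ^ 2 := by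
    rw [div_le_iff₀ (by linarith)]
    have : |y| ^ (1 + 1) = y ^ 2 := by norm_num
    rw [this]
    nlinarith [sq_nonneg y]
  have h3 : -(2 * y ^ 2) ≤ y + Real.log (1 - y) := by
    have := abs_le.mp (h.trans h2)
    exact this.1
  rw [one_div, ← Real.exp_log h0, ← Real.exp_neg]
  apply Real.exp_le_exp.mpr
  linarith

lemma sqrt_gauss_le {c : ℝ} (hc : |c| ≤ 1 / 4) :
    √(π / (1 / 2 - c)) ≤ √(2 * π) * Real.exp (c + 4 * c ^ 2) := by
  have h0 : 0 < 1 - 2 * c := by
    have := le_abs_self c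
    linarith
  have h1 : 1 / (1 - 2 * c) ≤ Real.exp (2 * c + 2 * (2 * c) ^ 2) :=
    inv_one_sub_le (by rw [abs_mul]; norm_num; linarith)
  have h2 : π / (1 / 2 - c) = (2 * π) * (1 / (1 - 2 * c)) := by
    have : (1 / 2 - c) ≠ 0 := by linarith
    field_simp
  rw [h2, Real.sqrt_mul (by positivity)]
  apply mul_le_mul_of_nonneg_left _ (Real.sqrt_nonneg _)
  rw [Real.sqrt_le_left (Real.exp_pos _).le, ← Real.exp_nat_mul]
  refine h1.trans (le_of_eq ?_)
  congr 1
  push_cast
  ring

lemma le_sqrt_gauss {c : ℝ} (hc : |c| ≤ 1 / 4) :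
    √(2 * π) * Real.exp c ≤ √(π / (1 / 2 - c)) := by
  have h0 : 0 < 1 - 2 * c := by
    have := le_abs_self c
    linarith
  have h2 : π / (1 / 2 - c) = (2 * π) * (1 / (1 - 2 * c)) := by
    have : (1 / 2 - c) ≠ 0 := by linarith
    field_simp
  rw [h2, Real.sqrt_mul (show (0 : ℝ) ≤ 2 * π by positivity) (1 / (1 - 2 * c))]
  apply mul_le_mul_of_nonneg_left _ (Real.sqrt_nonneg _)
  apply Real.le_sqrt_of_sq_le
  rw [← Real.exp_nat_mul, le_div_iff₀ h0]
  have := Real.add_one_le_exp (-(2 * c))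
  calc Real.exp (((2 : ℕ) : ℝ) * c) * (1 - 2 * c) ≤ Real.exp (((2 : ℕ) : ℝ) * c) * Real.exp (-(2 * c)) := by
        apply mul_le_mul_of_nonneg_left _ (Real.exp_pos _).le
        linarith
    _ = 1 := by
        rw [← Real.exp_add]
        push_cast
        ring_nf
        simp

variable (ι) in
/-- The orthogonal group of a Euclidean space. -/
abbrev OG : Type _ := unitary (EuclideanSpace ℝ ι →L[ℝ] EuclideanSpace ℝ ι)

instance : ContinuousStar (EuclideanSpace ℝ ι →L[ℝ] EuclideanSpace ℝ ι) :=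
  ⟨(ContinuousLinearMap.adjoint (𝕜 := ℝ) (E := EuclideanSpace ℝ ι) (F := EuclideanSpace ℝ ι)).continuous⟩

lemma OG_norm_apply (O : OG ι) (x : EuclideanSpace ℝ ι) :
    ‖(O : EuclideanSpace ℝ ι →L[ℝ] EuclideanSpace ℝ ι) x‖ = ‖x‖ :=
  (Unitary.linearIsometryEquiv O).norm_map x

instance : CompactSpace (OG ι) := by
  have : ProperSpace (EuclideanSpace ℝ ι →L[ℝ] EuclideanSpace ℝ ι) := FiniteDimensional.proper ℝ _
  apply isCompact_iff_compactSpace.mp
  apply Metric.isCompact_of_isClosed_isBounded isClosed_unitary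
  rw [isBounded_iff_forall_norm_le]
  refine ⟨1, fun U hU => ?_⟩
  apply ContinuousLinearMap.opNorm_le_bound _ zero_le_one
  intro x
  rw [OG_norm_apply ⟨U, hU⟩ x, one_mul]

noncomputable instance : MeasurableSpace (OG ι) := borel _

instance : BorelSpace (OG ι) := ⟨rfl⟩

variable (ι) in
/-- Haar probability measure on the orthogonal group. -/
noncomputable def haarO : Measure (OG ι) := Measure.haarMeasure ⊤

instance : IsProbabilityMeasure (haarO ι) := by
  constructor
  have := Measure.haarMeasure_self (K₀ := (⊤ : TopologicalSpace.PositiveCompacts (OG ι)))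
  simpa [haarO] using this

instance : (haarO ι).IsMulLeftInvariant := by
  unfold haarO
  infer_instance

lemma OG_inv_mul_apply (R O : OG ι) (x : EuclideanSpace ℝ ι) :
    (((R⁻¹ * O)⁻¹ : OG ι) : EuclideanSpace ℝ ι →L[ℝ] EuclideanSpace ℝ ι) x =
      ((O⁻¹ : OG ι) : EuclideanSpace ℝ ι →L[ℝ] EuclideanSpace ℝ ι)
        ((R : EuclideanSpace ℝ ι →L[ℝ] EuclideanSpace ℝ ι) x) := by
  rw [mul_inv_rev, inv_inv]
  rfl

lemma continuous_OG_apply : Continuous fun p : OG ι × EuclideanSpace ℝ ι =>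
    ((p.1⁻¹ : OG ι) : EuclideanSpace ℝ ι →L[ℝ] EuclideanSpace ℝ ι) p.2 := by
  have h1 : Continuous fun p : OG ι × EuclideanSpace ℝ ι =>
    (((p.1⁻¹ : OG ι) : EuclideanSpace ℝ ι →L[ℝ] EuclideanSpace ℝ ι)) :=
    continuous_subtype_val.comp (continuous_inv.comp continuous_fst)
  exact h1.clm_apply continuous_snd

/-- transitivity on spheres -/
lemma exists_OG_apply {x y : EuclideanSpace ℝ ι} (h : ‖x‖ = ‖y‖) :
    ∃ R : OG ι, (R : EuclideanSpace ℝ ι →L[ℝ] EuclideanSpace ℝ ι) x = y := by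
  refine ⟨Unitary.linearIsometryEquiv.symm ((ℝ ∙ (x - y))ᗮ.reflection), ?_⟩
  rw [Unitary.coe_symm_linearIsometryEquiv_apply]
  exact Submodule.reflection_sub h

/-- `O⁻¹` acting on a vector. -/
noncomputable def act (O : OG ι) (x : EuclideanSpace ℝ ι) : EuclideanSpace ℝ ι :=
  ((O⁻¹ : OG ι) : EuclideanSpace ℝ ι →L[ℝ] EuclideanSpace ℝ ι) x

lemma act_smul (O : OG ι) (c : ℝ) (x : EuclideanSpace ℝ ι) : act O (c • x) = c • act O x :=
  map_smul _ _ _

lemma continuous_act : Continuous fun p : OG ι × EuclideanSpace ℝ ι => act p.1 p.2 :=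
  continuous_OG_apply

lemma continuous_act_left (w : EuclideanSpace ℝ ι) : Continuous fun O : OG ι => act O w := by
  have h1 : Continuous fun O : OG ι =>
    (((O⁻¹ : OG ι) : EuclideanSpace ℝ ι →L[ℝ] EuclideanSpace ℝ ι)) :=
    continuous_subtype_val.comp continuous_inv
  exact h1.clm_apply continuous_const

lemma norm_act (O : OG ι) (x : EuclideanSpace ℝ ι) : ‖act O x‖ = ‖x‖ := OG_norm_apply _ _

/-- the law of `act O x` only depends on the norm of `x` -/
lemma lintegral_act_eq {F : EuclideanSpace ℝ ι → ℝ≥0∞} {x y : EuclideanSpace ℝ ι} (h : ‖x‖ = ‖y‖) :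
    ∫⁻ O, F (act O x) ∂(haarO ι) = ∫⁻ O, F (act O y) ∂(haarO ι) := by
  obtain ⟨R, hR⟩ := exists_OG_apply h
  have h1 : ∀ O : OG ι, F (act O y) = F (act (R⁻¹ * O) x) := by
    intro O
    unfold act
    rw [OG_inv_mul_apply, hR]
  simp_rw [h1]
  exact (lintegral_mul_left_eq_self (fun O => F (act O x)) R⁻¹).symm

lemma lintegral_space_act (O : OG ι) {F : EuclideanSpace ℝ ι → ℝ≥0∞} (hF : Measurable F) :
    ∫⁻ x, F (act O x) = ∫⁻ x, F x := by
  have := (Unitary.linearIsometryEquiv (O⁻¹ : OG ι)).measurePreserving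
  exact this.lintegral_comp hF

/-- the Gaussian integrand -/
noncomputable def gF (S : Finset ι) (s δ : ℝ) (x : EuclideanSpace ℝ ι) : ℝ≥0∞ :=
  ENNReal.ofReal (Real.exp (s * (cq S x - δ * ‖x‖ ^ 2) - ‖x‖ ^ 2 / 2))

lemma continuous_gF (S : Finset ι) (s δ : ℝ) : Continuous (gF S s δ) := by
  unfold gF
  have := continuous_cq S
  apply ENNReal.continuous_ofReal.comp
  apply Real.continuous_exp.comp
  fun_prop

lemma lintegral_gF_le [DecidableEq ι] (S : Finset ι) {s : ℝ} (hs : |s| ≤ 1 / 4) {δ : ℝ}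
    (hδ : δ * Fintype.card ι = S.card) (h0 : 0 ≤ δ) (h1 : δ ≤ 1) :
    ∫⁻ x, gF S s δ x ≤
      ENNReal.ofReal (√(2 * π) ^ (Fintype.card ι) * Real.exp (4 * S.card * s ^ 2)) := by
  set c : ι → ℝ := fun i => s * ((if i ∈ S then 1 else 0) - δ) with hc
  have hcabs : ∀ i, |c i| ≤ 1 / 4 := by
    intro i
    simp only [hc, abs_mul]
    have : |(if i ∈ S then (1 : ℝ) else 0) - δ| ≤ 1 := by
      rw [abs_le]
      split_ifs <;> constructor <;> linarith
    calc |s| * |(if i ∈ S then (1 : ℝ) else 0) - δ| ≤ 1 / 4 * 1 :=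
          mul_le_mul hs this (abs_nonneg _) (by norm_num)
      _ = 1 / 4 := by ring
  have h2 : ∀ x, gF S s δ x =
      ENNReal.ofReal (Real.exp ((∑ i, c i * (x i) ^ 2) - ‖x‖ ^ 2 / 2)) := by
    intro x
    unfold gF
    congr 3
    rw [EuclideanSpace.real_norm_sq_eq, cq]
    simp only [hc]
    have : ∀ i, s * ((if i ∈ S then (1 : ℝ) else 0) - δ) * (x i) ^ 2 =
        s * ((if i ∈ S then (x i) ^ 2 else 0) - δ * (x i) ^ 2) := by
      intro i
      split_ifs <;> ring
    simp_rw [this]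
    rw [← Finset.mul_sum, Finset.sum_sub_distrib, ← Finset.mul_sum]
    simp
  simp_rw [h2]
  rw [lintegral_gauss_diag c (fun i => by
    have := (abs_le.mp (hcabs i)).2
    linarith)]
  apply ENNReal.ofReal_le_ofReal
  calc ∏ i, √(π / (1 / 2 - c i)) ≤ ∏ i, (√(2 * π) * Real.exp (c i + 4 * c i ^ 2)) :=
        Finset.prod_le_prod (fun i _ => Real.sqrt_nonneg _) fun i _ => sqrt_gauss_le (hcabs i)
    _ = √(2 * π) ^ (Fintype.card ι) * Real.exp (∑ i, (c i + 4 * c i ^ 2)) := by
        rw [Finset.prod_mul_distrib, Finset.prod_const, Finset.card_univ, Real.exp_sum]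
    _ ≤ _ := by
        apply mul_le_mul_of_nonneg_left _ (by positivity)
        apply Real.exp_le_exp.mpr
        have h3 : ∑ i, c i = 0 := by
          simp only [hc]
          rw [← Finset.mul_sum, Finset.sum_sub_distrib]
          simp only [Finset.sum_ite_mem, Finset.univ_inter, Finset.sum_const, Finset.card_univ,
            nsmul_eq_mul]
          rw [mul_comm (Fintype.card ι : ℝ) δ, hδ]
          ring
        have h4 : ∀ i, c i ^ 2 = s ^ 2 * ((if i ∈ S then 1 - 2 * δ else 0) + δ ^ 2) := by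
          intro i
          simp only [hc]
          split_ifs <;> ring
        have h5 : ∑ i, c i ^ 2 = s ^ 2 * (S.card * (1 - δ)) := by
          simp_rw [h4]
          rw [← Finset.mul_sum, Finset.sum_add_distrib]
          simp only [Finset.sum_ite_mem, Finset.univ_inter, Finset.sum_const, Finset.card_univ,
            nsmul_eq_mul]
          have : (Fintype.card ι : ℝ) * δ ^ 2 = S.card * δ := by
            rw [← hδ]
            ring
          rw [this]
          ring
        rw [Finset.sum_add_distrib, h3, ← Finset.mul_sum, h5]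
        have : 0 ≤ s ^ 2 * (S.card * δ) := by positivity
        nlinarith

lemma le_lintegral_gF [DecidableEq ι] (S : Finset ι) {s : ℝ} (hs : |s| ≤ 1 / 4) {δ : ℝ}
    (hδ : δ * Fintype.card ι = S.card) (h0 : 0 ≤ δ) (h1 : δ ≤ 1) (v : EuclideanSpace ℝ ι)
    (hv : ‖v‖ = 1) :
    ENNReal.ofReal (√(2 * π) ^ (Fintype.card ι)) *
        ENNReal.ofReal (Real.exp (s * (Fintype.card ι * cq S v - S.card))) ≤
      ∫⁻ x : EuclideanSpace ℝ ι, gF S s δ (‖x‖ • v) := by
  set c : ℝ := s * (cq S v - δ) with hc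
  have hq0 := cq_nonneg S v
  have hq1 := cq_le S v
  rw [hv] at hq1
  have hcabs : |c| ≤ 1 / 4 := by
    simp only [hc, abs_mul]
    have : |cq S v - δ| ≤ 1 := by
      rw [abs_le]
      constructor <;> linarith
    calc |s| * |cq S v - δ| ≤ 1 / 4 * 1 :=
          mul_le_mul hs this (abs_nonneg _) (by norm_num)
      _ = 1 / 4 := by ring
  have h2 : ∀ x : EuclideanSpace ℝ ι, gF S s δ (‖x‖ • v) =
      ENNReal.ofReal (Real.exp ((∑ i, c * (x i) ^ 2) - ‖x‖ ^ 2 / 2)) := by
    intro x
    unfold gF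
    rw [cq_smul, norm_smul, norm_norm, hv, mul_one, ← Finset.mul_sum,
      ← EuclideanSpace.real_norm_sq_eq, hc]
    congr 3
    ring
  simp_rw [h2]
  rw [lintegral_gauss_diag (fun _ => c) (fun i => by
    have := (abs_le.mp hcabs).2
    linarith), ← ENNReal.ofReal_mul (by positivity)]
  apply ENNReal.ofReal_le_ofReal
  rw [Finset.prod_const, Finset.card_univ]
  calc √(2 * π) ^ (Fintype.card ι) * Real.exp (s * (Fintype.card ι * cq S v - S.card))
      = (√(2 * π) * Real.exp c) ^ (Fintype.card ι) := by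
        rw [mul_pow, ← Real.exp_nat_mul, ← hδ, hc]
        congr 2
        ring
    _ ≤ _ := pow_le_pow_left₀ (by positivity) (le_sqrt_gauss hcabs) _

lemma mgf_le [DecidableEq ι] (S : Finset ι) {s : ℝ} (hs : |s| ≤ 1 / 4) (w : EuclideanSpace ℝ ι)
    (hw : ‖w‖ = 1) :
    ∫⁻ O, ENNReal.ofReal (Real.exp (s * (Fintype.card ι * cq S (act O w) - S.card))) ∂(haarO ι) ≤
      ENNReal.ofReal (Real.exp (4 * S.card * s ^ 2)) := by
  have hne : Nonempty ι := by
    by_contra hne
    rw [not_nonempty_iff] at hne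
    have : w = 0 := Subsingleton.elim _ _
    rw [this, norm_zero] at hw
    exact zero_ne_one hw
  have hD : (0 : ℝ) < Fintype.card ι := by exact_mod_cast Fintype.card_pos
  have hSD : (S.card : ℝ) ≤ Fintype.card ι := by exact_mod_cast Finset.card_le_univ S
  set δ : ℝ := S.card / Fintype.card ι with hδd
  have hδ : δ * Fintype.card ι = S.card := by
    rw [hδd]
    field_simp
  have h0 : 0 ≤ δ := by positivity
  have h1 : δ ≤ 1 := by
    rw [hδd, div_le_one hD]
    exact hSD
  set A : ℝ≥0∞ := ∫⁻ O, ∫⁻ x, gF S s δ (act O x) ∂(volume : Measure (EuclideanSpace ℝ ι)) ∂(haarO ι) with hA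
  have hcont : Continuous fun p : OG ι × EuclideanSpace ℝ ι => gF S s δ (act p.1 p.2) :=
    (continuous_gF S s δ).comp continuous_act
  have hA1 : A ≤ ENNReal.ofReal (√(2 * π) ^ (Fintype.card ι) * Real.exp (4 * S.card * s ^ 2)) := by
    have : ∀ O : OG ι, ∫⁻ x, gF S s δ (act O x) ∂(volume : Measure (EuclideanSpace ℝ ι)) =
        ∫⁻ x, gF S s δ x := fun O => lintegral_space_act O (continuous_gF S s δ).measurable
    rw [hA]
    simp_rw [this]
    rw [lintegral_const, measure_univ, mul_one]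
    exact lintegral_gF_le S hs hδ h0 h1
  have hA2 : A = ∫⁻ O, ∫⁻ x : EuclideanSpace ℝ ι, gF S s δ (‖x‖ • act O w)
      ∂(volume : Measure (EuclideanSpace ℝ ι)) ∂(haarO ι) := by
    rw [hA, lintegral_lintegral_swap hcont.measurable.aemeasurable]
    have h3 : ∀ x : EuclideanSpace ℝ ι, ∫⁻ O, gF S s δ (act O x) ∂(haarO ι) =
        ∫⁻ O, gF S s δ (‖x‖ • act O w) ∂(haarO ι) := by
      intro x
      have : ‖x‖ = ‖(‖x‖ • w)‖ := by rw [norm_smul, norm_norm, hw, mul_one]
      rw [lintegral_act_eq (F := gF S s δ) this]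
      simp_rw [act_smul]
    simp_rw [h3]
    have hc1 : Continuous fun p : EuclideanSpace ℝ ι × OG ι => act p.2 w :=
      Continuous.comp (g := fun O : OG ι => act O w)
        (f := fun p : EuclideanSpace ℝ ι × OG ι => p.2) (continuous_act_left w) continuous_snd
    have hc2 : Continuous fun p : EuclideanSpace ℝ ι × OG ι => gF S s δ (‖p.1‖ • act p.2 w) := by
      have hc3 : Continuous fun p : EuclideanSpace ℝ ι × OG ι => ‖p.1‖ • act p.2 w :=
        Continuous.smul (f := fun p : EuclideanSpace ℝ ι × OG ι => ‖p.1‖)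
          (g := fun p : EuclideanSpace ℝ ι × OG ι => act p.2 w) continuous_fst.norm hc1
      exact (continuous_gF S s δ).comp hc3
    exact lintegral_lintegral_swap (f := fun (x : EuclideanSpace ℝ ι) (O : OG ι) =>
      gF S s δ (‖x‖ • act O w)) hc2.measurable.aemeasurable
  have hA3 : ENNReal.ofReal (√(2 * π) ^ (Fintype.card ι)) *
      ∫⁻ O, ENNReal.ofReal (Real.exp (s * (Fintype.card ι * cq S (act O w) - S.card))) ∂(haarO ι) ≤ A := by
    rw [hA2, ← lintegral_const_mul' _ _ ENNReal.ofReal_ne_top]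
    apply lintegral_mono
    intro O
    exact le_lintegral_gF S hs hδ h0 h1 (act O w) (by rw [norm_act, hw])
  have h4 := hA3.trans hA1
  rw [ENNReal.ofReal_mul (by positivity)] at h4
  have h5 : ENNReal.ofReal (√(2 * π) ^ (Fintype.card ι)) ≠ 0 := by
    rw [Ne, ENNReal.ofReal_eq_zero, not_le]
    positivity
  exact (ENNReal.mul_le_mul_iff_right h5 ENNReal.ofReal_ne_top).mp h4

lemma exists_small_dev {Ω : Type*} [MeasurableSpace Ω] (μ : Measure Ω) [IsProbabilityMeasure μ]
    {κ : Type*} [Fintype κ] {m : ℝ} (hm : 0 < m) (Z : κ → Ω → ℝ) (hZ : ∀ k, Measurable (Z k))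
    (hmgf : ∀ k s, |s| ≤ 1 / 4 → ∫⁻ O, ENNReal.ofReal (Real.exp (s * Z k O)) ∂μ ≤
      ENNReal.ofReal (Real.exp (4 * m * s ^ 2)))
    (t : κ → ℝ) (ht : ∀ k, 0 < t k)
    (hsum : ∑ k, 2 * Real.exp (-(min (t k ^ 2 / (16 * m)) (t k / 8))) < 1) :
    ∃ O, ∀ k, |Z k O| ≤ t k := by
  set s : κ → ℝ := fun k => min (t k / (8 * m)) (1 / 4) with hsd
  have hs0 : ∀ k, 0 < s k := by
    intro k
    simp only [hsd]
    have := ht k
    positivity
  have hs1 : ∀ k, |s k| ≤ 1 / 4 := by
    intro k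
    rw [abs_of_pos (hs0 k)]
    exact min_le_right _ _
  have hexp : ∀ k, 4 * m * s k ^ 2 - s k * t k ≤
      -(min (t k ^ 2 / (16 * m)) (t k / 8)) := by
    intro k
    simp only [hsd]
    rcases le_total (t k / (8 * m)) (1 / 4) with h | h
    · rw [min_eq_left h]
      have h1 : 4 * m * (t k / (8 * m)) ^ 2 - t k / (8 * m) * t k =
          -(t k ^ 2 / (16 * m)) := by
        field_simp
        ring
      rw [h1]
      exact neg_le_neg (min_le_left _ _)
    · rw [min_eq_right h]
      have h1 : m ≤ t k / 2 := by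
        rw [le_div_iff₀ (by positivity)] at h
        linarith
      have h2 := min_le_right (t k ^ 2 / (16 * m)) (t k / 8)
      linarith
  set f : κ → Ω → ℝ≥0∞ := fun k O => ENNReal.ofReal (Real.exp (s k * Z k O)) *
    ENNReal.ofReal (Real.exp (-(s k * t k))) + ENNReal.ofReal (Real.exp ((-s k) * Z k O)) *
    ENNReal.ofReal (Real.exp (-(s k * t k))) with hf
  have hmeas : ∀ (k : κ) (c : ℝ), Measurable fun O => ENNReal.ofReal (Real.exp (c * Z k O)) := by
    intro k c
    exact ((hZ k).const_mul c).exp.ennreal_ofReal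
  have hfm : ∀ k, Measurable (f k) := fun k =>
    ((hmeas k (s k)).mul_const _).add ((hmeas k (-s k)).mul_const _)
  have hint : ∫⁻ O, ∑ k, f k O ∂μ < 1 := by
    calc ∫⁻ O, ∑ k, f k O ∂μ = ∑ k, ∫⁻ O, f k O ∂μ :=
          lintegral_finsetSum _ fun k _ => hfm k
      _ ≤ ∑ k, ENNReal.ofReal
          (2 * Real.exp (-(min (t k ^ 2 / (16 * m)) (t k / 8)))) := by
          apply Finset.sum_le_sum
          intro k _
          rw [hf]
          rw [lintegral_add_left ((hmeas k (s k)).mul_const _),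
            lintegral_mul_const _ (hmeas k (s k)), lintegral_mul_const _ (hmeas k (-s k)),
            two_mul, ENNReal.ofReal_add (Real.exp_pos _).le (Real.exp_pos _).le]
          have h1 := hmgf k (s k) (hs1 k)
          have h2 := hmgf k (-s k) (by rw [abs_neg]; exact hs1 k)
          have h3 : ENNReal.ofReal (Real.exp (4 * m * s k ^ 2)) *
              ENNReal.ofReal (Real.exp (-(s k * t k))) ≤
              ENNReal.ofReal (Real.exp (-(min (t k ^ 2 / (16 * m)) (t k / 8)))) := by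
            rw [← ENNReal.ofReal_mul (Real.exp_pos _).le, ← Real.exp_add]
            apply ENNReal.ofReal_le_ofReal
            apply Real.exp_le_exp.mpr
            have := hexp k
            linarith
          apply add_le_add
          · exact (mul_le_mul' h1 le_rfl).trans h3
          · refine (mul_le_mul' h2 le_rfl).trans ?_
            rw [neg_sq]
            exact h3
      _ = ENNReal.ofReal (∑ k, 2 * Real.exp (-(min (t k ^ 2 / (16 * m)) (t k / 8)))) := by
          rw [ENNReal.ofReal_sum_of_nonneg]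
          intro k _
          positivity
      _ < 1 := by
          rw [← ENNReal.ofReal_one]
          exact (ENNReal.ofReal_lt_ofReal_iff one_pos).mpr hsum
  have hex : ∃ O, ∑ k, f k O < 1 := by
    by_contra hcon
    push Not at hcon
    have : ∫⁻ _, 1 ∂μ ≤ ∫⁻ O, ∑ k, f k O ∂μ := lintegral_mono hcon
    rw [lintegral_one, measure_univ] at this
    exact absurd hint (not_lt.mpr this)
  obtain ⟨O, hO⟩ := hex
  refine ⟨O, fun k => ?_⟩
  have hk : f k O < 1 :=
    lt_of_le_of_lt (Finset.single_le_sum (f := fun k => f k O) (fun _ _ => bot_le)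
      (Finset.mem_univ k)) hO
  have hpos : 0 < s k := hs0 k
  rw [abs_le]
  constructor
  · have h1 : ENNReal.ofReal (Real.exp ((-s k) * Z k O)) *
        ENNReal.ofReal (Real.exp (-(s k * t k))) < 1 := lt_of_le_of_lt le_add_self hk
    rw [← ENNReal.ofReal_mul (Real.exp_pos _).le, ← Real.exp_add, ← ENNReal.ofReal_one,
      ENNReal.ofReal_lt_ofReal_iff one_pos, Real.exp_lt_one_iff] at h1
    nlinarith
  · have h1 : ENNReal.ofReal (Real.exp (s k * Z k O)) *
        ENNReal.ofReal (Real.exp (-(s k * t k))) < 1 := lt_of_le_of_lt le_self_add hk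
    rw [← ENNReal.ofReal_mul (Real.exp_pos _).le, ← Real.exp_add, ← ENNReal.ofReal_one,
      ENNReal.ofReal_lt_ofReal_iff one_pos, Real.exp_lt_one_iff] at h1
    nlinarith

/-- Existence of a rotation with small deviations on finitely many unit vectors. -/
theorem exists_rotation [DecidableEq ι] {κ : Type*} [Fintype κ] (S : Finset ι) (hS : 0 < S.card)
    (w : κ → EuclideanSpace ℝ ι) (hw : ∀ k, ‖w k‖ = 1) (t : κ → ℝ) (ht : ∀ k, 0 < t k)
    (hsum : ∑ k, 2 * Real.exp (-(min (t k ^ 2 / (16 * S.card)) (t k / 8))) < 1) :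
    ∃ O : OG ι, ∀ k, |Fintype.card ι * cq S (act O (w k)) - S.card| ≤ t k := by
  refine exists_small_dev (haarO ι) (by exact_mod_cast hS)
    (fun k O => Fintype.card ι * cq S (act O (w k)) - S.card) (fun k => ?_)
    (fun k s hs => mgf_le S hs (w k) (hw k)) t ht hsum
  have h2 : Continuous fun O : OG ι => cq S (act O (w k)) :=
    (continuous_cq S).comp (continuous_act_left (w k))
  exact (h2.measurable.const_mul _).sub_const _

end SchEmb
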