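import Pool.Agent.H2.Sch.Svd

/-! Schatten norms: Hölder inequality, duality, elementary properties. -/

open Module Finset
open scoped InnerProductSpace

namespace SchEmb

/-- The Schatten (quasi-)norm: the `ℓ_p` (quasi-)norm of the singular values. -/
noncomputable def schatten {N : ℕ} (p : ℝ) (A : Matrix (Fin N) (Fin N) ℝ) : ℝ :=
  (∑ j : Fin N, ((Matrix.toEuclideanLin A).singularValues j) ^ p) ^ (1 / p)

variable {N : ℕ}

lemma schatten_eq (p : ℝ) (A : Mt N) : schatten p A = (∑ l ∈ range N, sv A l ^ p) ^ (1 / p) := by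
  unfold schatten
  rw [← Fin.sum_univ_eq_sum_range (fun l => sv A l ^ p)]
  rfl

lemma sum_sv_nonneg (p : ℝ) (A : Mt N) : 0 ≤ ∑ l ∈ range N, sv A l ^ p :=
  sum_nonneg fun l _ => Real.rpow_nonneg (sv_nonneg A l) _

lemma schatten_nonneg (p : ℝ) (A : Mt N) : 0 ≤ schatten p A := by
  rw [schatten_eq]
  exact Real.rpow_nonneg (sum_sv_nonneg p A) _

lemma schatten_rpow {p : ℝ} (hp : 0 < p) (A : Mt N) :
    schatten p A ^ p = ∑ l ∈ range N, sv A l ^ p := by
  rw [schatten_eq, ← Real.rpow_mul (sum_sv_nonneg p A), one_div, inv_mul_cancel₀ hp.ne',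
    Real.rpow_one]

lemma schatten_two (A : Mt N) : schatten 2 A = ‖vec N A‖ := by
  have h1 : schatten 2 A ^ (2 : ℝ) = ‖vec N A‖ ^ (2 : ℝ) := by
    rw [schatten_rpow (by norm_num), Real.rpow_ofNat, norm_vec_sq_eq_sum_sv]
    apply sum_congr rfl
    intro l _
    rw [Real.rpow_ofNat]
  rw [Real.rpow_ofNat, Real.rpow_ofNat] at h1
  exact (sq_eq_sq₀ (schatten_nonneg _ _) (norm_nonneg _)).mp h1

/-- Bessel inequality for orthogonal families of vectors of norm at most one. -/
lemma bessel {κ : Type*} [Fintype κ] [DecidableEq κ] (z : κ → Ec N) (hz : ∀ l, ‖z l‖ ≤ 1)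
    (hz2 : ∀ l l', l ≠ l' → ⟪z l, z l'⟫_ℝ = 0) (x : Ec N) :
    ∑ l, ⟪x, z l⟫_ℝ ^ 2 ≤ ‖x‖ ^ 2 := by
  set S := ∑ l, ⟪x, z l⟫_ℝ ^ 2 with hS
  set y := ∑ l, ⟪x, z l⟫_ℝ • z l with hy
  have h1 : ⟪x, y⟫_ℝ = S := by
    rw [hy, inner_sum, hS]
    apply sum_congr rfl
    intro l _
    rw [real_inner_smul_right]
    ring
  have h2 : ‖y‖ ^ 2 ≤ S := by
    rw [← real_inner_self_eq_norm_sq]
    conv_lhs =>
      arg 2
      rw [hy]
    rw [sum_inner, hS]
    apply sum_le_sum
    intro l _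
    rw [real_inner_smul_left, hy, inner_sum, sum_eq_single l]
    · rw [real_inner_smul_right, real_inner_self_eq_norm_sq]
      have h3 : ‖z l‖ ^ 2 ≤ 1 := pow_le_one₀ (norm_nonneg _) (hz l)
      nlinarith [sq_nonneg ⟪x, z l⟫_ℝ]
    · intro l' _ hl'
      rw [real_inner_smul_right, hz2 l l' (Ne.symm hl')]
      ring
    · intro h
      exact absurd (mem_univ _) h
  have hS0 : 0 ≤ S := sum_nonneg fun l _ => sq_nonneg _
  have h4 : S ≤ ‖x‖ * ‖y‖ := by
    rw [← h1]
    exact real_inner_le_norm _ _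
  have h5 := norm_nonneg x
  have h6 := norm_nonneg y
  by_contra hcon
  push Not at hcon
  nlinarith [sq_nonneg (‖x‖ - ‖y‖)]

lemma inner_pc_pc (A B : Mt N) (k l : Fin N) :
    |⟪vec N (pc A k), vec N (pc B l)⟫_ℝ| ≤
      (⟪lsv A k, lsv B l⟫_ℝ ^ 2 + ⟪rsv A k, rsv B l⟫_ℝ ^ 2) / 2 := by
  have h1 : ⟪vec N (pc A k), vec N (pc B l)⟫_ℝ = ⟪lsv A k, lsv B l⟫_ℝ * ⟪rsv A k, rsv B l⟫_ℝ := by
    rw [inner_vec, inner_eq_sum, inner_eq_sum, sum_mul_sum]
    apply sum_congr rfl
    intro i _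
    apply sum_congr rfl
    intro j _
    rw [pc_apply, pc_apply]
    ring
  rw [h1, abs_mul]
  nlinarith [sq_nonneg (|⟪lsv A k, lsv B l⟫_ℝ| - |⟪rsv A k, rsv B l⟫_ℝ|),
    sq_abs ⟪lsv A k, lsv B l⟫_ℝ, sq_abs ⟪rsv A k, rsv B l⟫_ℝ]

/-- The doubly substochastic matrix of two singular value decompositions. -/
noncomputable def mw (A B : Mt N) (k l : Fin N) : ℝ :=
  (⟪lsv A k, lsv B l⟫_ℝ ^ 2 + ⟪rsv A k, rsv B l⟫_ℝ ^ 2) / 2

lemma mw_nonneg (A B : Mt N) (k l : Fin N) : 0 ≤ mw A B k l := by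
  unfold mw
  positivity

lemma rsv_norm (A : Mt N) (i : Fin N) : ‖rsv A i‖ = 1 := (rsv A).orthonormal.1 i

lemma mw_sum_right (A B : Mt N) (k : Fin N) : ∑ l, mw A B k l ≤ 1 := by
  unfold mw
  rw [← sum_div, sum_add_distrib]
  have h1 := bessel (fun l => lsv B l) (fun l => lsv_norm_le B l) (fun l l' h => lsv_inner B h)
    (lsv A k)
  have h2 := bessel (fun l => rsv B l) (fun l => (rsv_norm B l).le)
    (fun l l' h => (rsv B).orthonormal.2 h) (rsv A k)
  have h3 : ‖lsv A k‖ ^ 2 ≤ 1 := pow_le_one₀ (norm_nonneg _) (lsv_norm_le A k)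
  rw [rsv_norm] at h2
  linarith

lemma mw_comm (A B : Mt N) (k l : Fin N) : mw A B k l = mw B A l k := by
  unfold mw
  rw [real_inner_comm, real_inner_comm (rsv A k)]

lemma mw_sum_left (A B : Mt N) (l : Fin N) : ∑ k, mw A B k l ≤ 1 := by
  simp_rw [mw_comm A B]
  exact mw_sum_right B A l

/-- Hölder inequality (with general coefficients on one side). -/
theorem holder {p r : ℝ} (hpr : p.HolderConjugate r) (A B : Mt N) {t : ℕ → ℝ} (ht : ∀ l, 0 ≤ t l) :
    |⟪vec N A, vec N (∑ l ∈ range N, t l • pc B l)⟫_ℝ| ≤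
      schatten p A * (∑ l ∈ range N, t l ^ r) ^ (1 / r) := by
  have h1 : ⟪vec N A, vec N (∑ l ∈ range N, t l • pc B l)⟫_ℝ =
      ∑ kl : Fin N × Fin N, sv A kl.1 * t kl.2 * ⟪vec N (pc A kl.1), vec N (pc B kl.2)⟫_ℝ := by
    conv_lhs => rw [sum_smul_pc A]
    rw [← Fin.sum_univ_eq_sum_range (fun l => sv A l • pc A l),
      ← Fin.sum_univ_eq_sum_range (fun l => t l • pc B l), map_sum, map_sum, sum_inner,
      Fintype.sum_prod_type]
    apply sum_congr rfl
    intro k _
    rw [inner_sum]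
    apply sum_congr rfl
    intro l _
    rw [map_smul, map_smul, real_inner_smul_left, real_inner_smul_right]
    ring
  have hp0 := hpr.pos
  have hr0 := hpr.symm.pos
  have hinv : 1 / p + 1 / r = 1 := by
    rw [one_div, one_div]
    exact hpr.inv_add_inv_eq_one
  have h2 : ∀ kl : Fin N × Fin N, |sv A kl.1 * t kl.2 * ⟪vec N (pc A kl.1), vec N (pc B kl.2)⟫_ℝ| ≤
      (sv A kl.1 * mw A B kl.1 kl.2 ^ (1 / p)) * (t kl.2 * mw A B kl.1 kl.2 ^ (1 / r)) := by
    intro kl
    rw [abs_mul, abs_of_nonneg (mul_nonneg (sv_nonneg A _) (ht _))]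
    calc sv A kl.1 * t kl.2 * |⟪vec N (pc A kl.1), vec N (pc B kl.2)⟫_ℝ| ≤
          sv A kl.1 * t kl.2 * mw A B kl.1 kl.2 :=
          mul_le_mul_of_nonneg_left (inner_pc_pc A B _ _) (mul_nonneg (sv_nonneg A _) (ht _))
      _ = sv A kl.1 * t kl.2 * (mw A B kl.1 kl.2 ^ (1 / p) * mw A B kl.1 kl.2 ^ (1 / r)) := by
          rw [← Real.rpow_add_of_nonneg (mw_nonneg A B _ _) (by positivity) (by positivity), hinv,
            Real.rpow_one]
      _ = _ := by ring
  rw [h1]
  refine (abs_sum_le_sum_abs _ _).trans ((sum_le_sum fun kl _ => h2 kl).trans ?_)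
  refine (Real.inner_le_Lp_mul_Lq _ _ _ hpr).trans ?_
  apply mul_le_mul
  · rw [schatten_eq]
    apply Real.rpow_le_rpow (sum_nonneg fun _ _ => Real.rpow_nonneg (abs_nonneg _) _) _
      (by positivity)
    rw [Fintype.sum_prod_type, ← Fin.sum_univ_eq_sum_range (fun l => sv A l ^ p)]
    apply sum_le_sum
    intro k _
    have h3 : ∀ l : Fin N, |sv A k * mw A B k l ^ (1 / p)| ^ p = sv A k ^ p * mw A B k l := by
      intro l
      rw [abs_of_nonneg (mul_nonneg (sv_nonneg A _) (Real.rpow_nonneg (mw_nonneg A B _ _) _)),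
        Real.mul_rpow (sv_nonneg A _) (Real.rpow_nonneg (mw_nonneg A B _ _) _),
        ← Real.rpow_mul (mw_nonneg A B _ _), one_div, inv_mul_cancel₀ hp0.ne', Real.rpow_one]
    simp only [h3]
    rw [← mul_sum]
    have := mul_le_mul_of_nonneg_left (mw_sum_right A B k) (Real.rpow_nonneg (sv_nonneg A k) p)
    linarith
  · apply Real.rpow_le_rpow (sum_nonneg fun _ _ => Real.rpow_nonneg (abs_nonneg _) _) _
      (by positivity)
    rw [Fintype.sum_prod_type_right, ← Fin.sum_univ_eq_sum_range (fun l => t l ^ r)]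
    apply sum_le_sum
    intro l _
    have h3 : ∀ k : Fin N, |t l * mw A B k l ^ (1 / r)| ^ r = t l ^ r * mw A B k l := by
      intro k
      rw [abs_of_nonneg (mul_nonneg (ht _) (Real.rpow_nonneg (mw_nonneg A B _ _) _)),
        Real.mul_rpow (ht _) (Real.rpow_nonneg (mw_nonneg A B _ _) _),
        ← Real.rpow_mul (mw_nonneg A B _ _), one_div, inv_mul_cancel₀ hr0.ne', Real.rpow_one]
    simp only [h3]
    rw [← mul_sum]
    have := mul_le_mul_of_nonneg_left (mw_sum_left A B l) (Real.rpow_nonneg (ht l) r)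
    linarith
  · exact Real.rpow_nonneg (sum_nonneg fun _ _ => Real.rpow_nonneg (abs_nonneg _) _) _
  · exact schatten_nonneg _ _

/-- The norming matrix of `B` for the exponent `p`. -/
noncomputable def dualM (p : ℝ) (B : Mt N) : Mt N := ∑ l ∈ range N, (sv B l ^ (p - 1)) • pc B l

lemma inner_dualM {p : ℝ} (hp : 1 < p) (B : Mt N) :
    ⟪vec N B, vec N (dualM p B)⟫_ℝ = schatten p B ^ p := by
  unfold dualM
  rw [inner_vec_sum_pc, schatten_rpow (by linarith)]
  apply sum_congr rfl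
  intro l _
  have h := sv_nonneg B l
  rcases h.eq_or_lt with h0 | h0
  · rw [← h0, mul_zero, Real.zero_rpow (by linarith)]
  · conv_lhs => rw [← Real.rpow_one (sv B l)]
    rw [← Real.rpow_mul h0.le, one_mul, ← Real.rpow_add h0]
    congr 1
    ring

lemma adm_dual {p : ℝ} (hp : 1 < p) (B : Mt N) : Adm N (fun l => sv B l ^ (p - 1)) where
  anti i j hij := Real.rpow_le_rpow (sv_nonneg B j) (sv_antitone B hij) (by linarith)
  nonneg l := Real.rpow_nonneg (sv_nonneg B l) _
  zero := by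
    rw [sv_zero, Real.zero_rpow (by linarith)]

lemma sum_dual_rpow {p r : ℝ} (hpr : p.HolderConjugate r) (B : Mt N) :
    ∑ l ∈ range N, (sv B l ^ (p - 1)) ^ r = schatten p B ^ p := by
  rw [schatten_rpow hpr.pos]
  apply sum_congr rfl
  intro l _
  rw [← Real.rpow_mul (sv_nonneg B l)]
  congr 1
  have := hpr.sub_one_mul_conj
  exact this

lemma sum_dual_rpow_root {p r : ℝ} (hpr : p.HolderConjugate r) (B : Mt N) :
    (∑ l ∈ range N, (sv B l ^ (p - 1)) ^ r) ^ (1 / r) = schatten p B ^ (p / r) := by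
  rw [sum_dual_rpow hpr, ← Real.rpow_mul (schatten_nonneg p B)]
  congr 1
  ring

/-- From a bound of the norming functional to a bound of the norm. -/
lemma schatten_le_of_dual {p r : ℝ} (hpr : p.HolderConjugate r) (B : Mt N) {K : ℝ} (hK : 0 ≤ K)
    (h : ⟪vec N B, vec N (dualM p B)⟫_ℝ ≤ K * schatten p B ^ (p / r)) : schatten p B ≤ K := by
  rw [inner_dualM hpr.lt] at h
  have h0 := schatten_nonneg p B
  rcases h0.eq_or_lt with h1 | h1
  · rw [← h1]
    exact hK
  · have h2 : schatten p B ^ p = schatten p B * schatten p B ^ (p / r) := by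
      conv_rhs => rw [← Real.rpow_one (schatten p B)]
      rw [← Real.rpow_mul h1.le, one_mul, ← Real.rpow_add h1]
      congr 1
      have h3 := hpr.sub_one_mul_conj
      have h4 := hpr.symm.pos
      rw [eq_comm, ← h3]
      field_simp
      linarith
    rw [h2] at h
    have h5 : 0 < schatten p B ^ (p / r) := Real.rpow_pos_of_pos h1 _
    exact le_of_mul_le_mul_right h h5

lemma holder_dual {p r : ℝ} (hpr : p.HolderConjugate r) (A B : Mt N) :
    |⟪vec N A, vec N (dualM p B)⟫_ℝ| ≤ schatten p A * schatten p B ^ (p / r) := by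
  have h := holder hpr A B (t := fun l => sv B l ^ (p - 1)) (adm_dual hpr.lt B).nonneg
  rw [sum_dual_rpow_root hpr] at h
  exact h

lemma schatten_smul_le {p r : ℝ} (hpr : p.HolderConjugate r) (A : Mt N) {c : ℝ} (hc : 0 ≤ c) :
    schatten p (c • A) ≤ c * schatten p A := by
  apply schatten_le_of_dual hpr _ (mul_nonneg hc (schatten_nonneg _ _))
  rw [map_smul, real_inner_smul_left, mul_assoc]
  apply mul_le_mul_of_nonneg_left _ hc
  exact (le_abs_self _).trans (holder_dual hpr A (c • A))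

lemma schatten_smul {p r : ℝ} (hpr : p.HolderConjugate r) (A : Mt N) {c : ℝ} (hc : 0 < c) :
    schatten p (c • A) = c * schatten p A := by
  apply le_antisymm (schatten_smul_le hpr A hc.le)
  have h := schatten_smul_le hpr (c • A) (inv_pos.mpr hc).le
  rw [smul_smul, inv_mul_cancel₀ hc.ne', one_smul] at h
  calc c * schatten p A ≤ c * (c⁻¹ * schatten p (c • A)) := mul_le_mul_of_nonneg_left h hc.le
    _ = _ := by
        rw [← mul_assoc, mul_inv_cancel₀ hc.ne', one_mul]

lemma schatten_neg {p r : ℝ} (hpr : p.HolderConjugate r) (A : Mt N) :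
    schatten p (-A) = schatten p A := by
  have h : ∀ A : Mt N, schatten p (-A) ≤ schatten p A := by
    intro A
    apply schatten_le_of_dual hpr _ (schatten_nonneg _ _)
    rw [map_neg, inner_neg_left]
    exact (neg_le_abs _).trans (holder_dual hpr A (-A))
  apply le_antisymm (h A)
  have := h (-A)
  rwa [neg_neg] at this

lemma schatten_add_le {p r : ℝ} (hpr : p.HolderConjugate r) (A B : Mt N) :
    schatten p (A + B) ≤ schatten p A + schatten p B := by
  apply schatten_le_of_dual hpr _ (add_nonneg (schatten_nonneg _ _) (schatten_nonneg _ _))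
  rw [map_add, inner_add_left, add_mul]
  exact add_le_add ((le_abs_self _).trans (holder_dual hpr A (A + B)))
    ((le_abs_self _).trans (holder_dual hpr B (A + B)))

end SchEmb
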