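import Pool.Agent.H2.Sch.Holder

/-! Comparison of Schatten norms and the lower bounds for Gelfand and Kolmogorov numbers. -/

open Module Finset
open scoped InnerProductSpace

namespace SchEmb

variable {N : ℕ}

lemma rpow_sum_le_card {a : ℝ} (ha : 1 ≤ a) {z : ℕ → ℝ} (hz : ∀ l, 0 ≤ z l) :
    (∑ l ∈ range N, z l) ^ a ≤ (N : ℝ) ^ (a - 1) * ∑ l ∈ range N, z l ^ a := by
  have := Real.rpow_sum_le_const_mul_sum_rpow_of_nonneg (range N) (f := z) ha (fun i _ => hz i)
  rwa [card_range] at this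

lemma schatten_le_frob {p : ℝ} (hp : 0 < p) (hp2 : p ≤ 2) (A : Mt N) :
    schatten p A ≤ (N : ℝ) ^ (1 / p - 1 / 2) * ‖vec N A‖ := by
  have h1 := rpow_sum_le_card (N := N) (a := 2 / p) (by rw [le_div_iff₀ hp]; linarith)
    (z := fun l => sv A l ^ p) (fun l => Real.rpow_nonneg (sv_nonneg A l) _)
  have h2 : ∑ l ∈ range N, (sv A l ^ p) ^ (2 / p) = ‖vec N A‖ ^ 2 := by
    rw [norm_vec_sq_eq_sum_sv]
    apply sum_congr rfl
    intro l _
    rw [← Real.rpow_mul (sv_nonneg A l), mul_div_cancel₀ _ hp.ne', Real.rpow_ofNat]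
  rw [h2, ← schatten_rpow hp] at h1
  have h3 : (schatten p A ^ p) ^ (2 / p) = schatten p A ^ 2 := by
    rw [← Real.rpow_mul (schatten_nonneg _ _), mul_div_cancel₀ _ hp.ne', Real.rpow_ofNat]
  rw [h3] at h1
  apply le_of_sq_le_sq _ (mul_nonneg (Real.rpow_nonneg (Nat.cast_nonneg _) _) (norm_nonneg _))
  refine h1.trans (le_of_eq ?_)
  rw [mul_pow, ← Real.rpow_natCast ((N : ℝ) ^ (1 / p - 1 / 2)) 2, ← Real.rpow_mul (Nat.cast_nonneg _)]
  congr 2
  push_cast
  field_simp

lemma frob_le_schatten {q : ℝ} (hq : 2 ≤ q) (A : Mt N) :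
    ‖vec N A‖ ≤ (N : ℝ) ^ (1 / 2 - 1 / q) * schatten q A := by
  have hq0 : 0 < q := by linarith
  have h1 := rpow_sum_le_card (N := N) (a := q / 2) (by linarith)
    (z := fun l => sv A l ^ 2) (fun l => sq_nonneg _)
  have h2 : ∑ l ∈ range N, (sv A l ^ 2) ^ (q / 2) = schatten q A ^ q := by
    rw [schatten_rpow hq0]
    apply sum_congr rfl
    intro l _
    rw [← Real.rpow_natCast, ← Real.rpow_mul (sv_nonneg A l)]
    congr 1
    push_cast
    ring
  rw [h2, ← norm_vec_sq_eq_sum_sv] at h1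
  have h3 : ((‖vec N A‖ ^ 2) ^ (q / 2)) = ‖vec N A‖ ^ q := by
    rw [← Real.rpow_natCast, ← Real.rpow_mul (norm_nonneg _)]
    congr 1
    push_cast
    ring
  rw [h3] at h1
  have h4 := Real.rpow_le_rpow (Real.rpow_nonneg (norm_nonneg _) _) h1 (z := 1 / q) (by positivity)
  rw [← Real.rpow_mul (norm_nonneg _), mul_one_div_cancel hq0.ne', Real.rpow_one,
    Real.mul_rpow (Real.rpow_nonneg (Nat.cast_nonneg _) _) (Real.rpow_nonneg (schatten_nonneg _ _) _),
    ← Real.rpow_mul (schatten_nonneg _ _), mul_one_div_cancel hq0.ne', Real.rpow_one,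
    ← Real.rpow_mul (Nat.cast_nonneg _)] at h4
  refine h4.trans (le_of_eq ?_)
  congr 2
  field_simp

lemma schatten_le_one_mono {p q : ℝ} (hp : 0 < p) (hpq : p ≤ q) {A : Mt N}
    (h : schatten p A ≤ 1) : schatten q A ≤ 1 := by
  have hq : 0 < q := by linarith
  have h1 : ∑ l ∈ range N, sv A l ^ p ≤ 1 := by
    rw [← schatten_rpow hp]
    exact Real.rpow_le_one (schatten_nonneg _ _) h hp.le
  have h2 : ∀ l ∈ range N, sv A l ≤ 1 := by
    intro l hl
    have h3 := single_le_sum (f := fun l => sv A l ^ p)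
      (fun l _ => Real.rpow_nonneg (sv_nonneg A l) _) hl
    by_contra hcon
    push Not at hcon
    have h4 : 1 < sv A l ^ p := Real.one_lt_rpow hcon hp
    linarith
  rw [schatten_eq]
  apply Real.rpow_le_one (sum_sv_nonneg q A) _ (by positivity)
  refine le_trans (sum_le_sum fun l hl => ?_) h1
  rcases (sv_nonneg A l).eq_or_lt with h0 | h0
  · rw [← h0, Real.zero_rpow hq.ne', Real.zero_rpow hp.ne']
  · exact Real.rpow_le_rpow_of_exponent_ge h0 (h2 l hl) hpq

/-- an entry of a matrix with given singular coefficients -/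
lemma entry_le (B : Mt N) {t : ℕ → ℝ} (ht : ∀ l, 0 ≤ t l) {r : ℝ} (hr : 0 < r) (i j : Fin N) :
    |(∑ l ∈ range N, t l • pc B l) i j| ≤ (∑ l ∈ range N, t l ^ r) ^ (1 / r) := by
  set M := (∑ l ∈ range N, t l ^ r) ^ (1 / r) with hM
  have hM0 : 0 ≤ M := Real.rpow_nonneg (sum_nonneg fun l _ => Real.rpow_nonneg (ht l) _) _
  have htM : ∀ l ∈ range N, t l ≤ M := by
    intro l hl
    have h3 := single_le_sum (f := fun l => t l ^ r) (fun l _ => Real.rpow_nonneg (ht l) _) hl
    have h4 := Real.rpow_le_rpow (Real.rpow_nonneg (ht l) _) h3 (z := 1 / r) (by positivity)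
    rw [← Real.rpow_mul (ht l), mul_one_div_cancel hr.ne', Real.rpow_one] at h4
    exact h4
  rw [← Fin.sum_univ_eq_sum_range (fun l => t l • pc B l), Matrix.sum_apply]
  refine (abs_sum_le_sum_abs _ _).trans ?_
  have h1 : ∀ l : Fin N, |(t l • pc B l) i j| ≤ M * ((lsv B l i ^ 2 + rsv B l j ^ 2) / 2) := by
    intro l
    rw [Matrix.smul_apply, pc_apply, smul_eq_mul, abs_mul, abs_of_nonneg (ht l)]
    apply mul_le_mul (htM l (mem_range.mpr l.2)) _ (abs_nonneg _) hM0
    rw [abs_mul]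
    nlinarith [sq_nonneg (|lsv B l i| - |rsv B l j|), sq_abs (lsv B l i), sq_abs (rsv B l j)]
  refine (sum_le_sum fun l _ => h1 l).trans ?_
  rw [← mul_sum, ← sum_div, sum_add_distrib]
  have h2 := bessel (fun l => lsv B l) (fun l => lsv_norm_le B l) (fun l l' h => lsv_inner B h)
    (EuclideanSpace.single i (1 : ℝ))
  have h3 := bessel (fun l => rsv B l) (fun l => (rsv_norm B l).le)
    (fun l l' h => (rsv B).orthonormal.2 h) (EuclideanSpace.single j (1 : ℝ))
  have h4 : ∀ (k : Fin N) (x : Ec N), ⟪EuclideanSpace.single k (1 : ℝ), x⟫_ℝ = x k := by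
    intro k x
    rw [EuclideanSpace.inner_single_left]
    simp
  simp only [h4] at h2 h3
  have h5 : ∀ k : Fin N, ‖(EuclideanSpace.single k (1 : ℝ) : Ec N)‖ ^ 2 = 1 := by
    intro k
    simp
  rw [h5] at h2 h3
  calc M * ((∑ l, lsv B l i ^ 2 + ∑ l, rsv B l j ^ 2) / 2) ≤ M * 1 := by
        apply mul_le_mul_of_nonneg_left _ hM0
        linarith
    _ = M := mul_one M

lemma abs_entry_le_schatten {q : ℝ} (hq : 0 < q) (A : Mt N) (i j : Fin N) :
    |A i j| ≤ schatten q A := by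
  have h := entry_le A (t := sv A) (sv_nonneg A) hq i j
  rw [← sum_smul_pc, ← schatten_eq] at h
  exact h

/-- The matrix unit, through its Frobenius coordinates. -/
noncomputable def mU (p : Fin N × Fin N) : Mt N := (vec N).symm (EuclideanSpace.single p (1 : ℝ))

lemma vec_mU (p : Fin N × Fin N) : vec N (mU p) = EuclideanSpace.single p (1 : ℝ) :=
  LinearEquiv.apply_symm_apply _ _

lemma inner_mU (A : Mt N) (p : Fin N × Fin N) : ⟪vec N (mU p), vec N A⟫_ℝ = A p.1 p.2 := by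
  rw [vec_mU, EuclideanSpace.inner_single_left]
  simp [vec_apply]

lemma schatten_mU {p r : ℝ} (hpr : p.HolderConjugate r) (k : Fin N × Fin N) :
    schatten p (mU k) ≤ 1 := by
  apply schatten_le_of_dual hpr _ zero_le_one
  rw [inner_mU, one_mul, ← sum_dual_rpow_root hpr]
  exact (le_abs_self _).trans (entry_le _ (adm_dual hpr.lt _).nonneg hpr.symm.pos _ _)

/-- Some basis vector has a large projection. -/
lemma exists_large_proj (hN : 1 ≤ N) (K : Submodule ℝ (EF N)) :
    ∃ p : Fin N × Fin N, (finrank ℝ K : ℝ) / (N : ℝ) ^ 2 ≤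
      ‖K.starProjection (EuclideanSpace.single p (1 : ℝ))‖ ^ 2 := by
  have hN' : (0 : ℝ) < N := by exact_mod_cast hN
  by_contra hcon
  push Not at hcon
  set f := stdOrthonormalBasis ℝ K with hf
  have h1 : ∀ p : Fin N × Fin N, ‖K.starProjection (EuclideanSpace.single p (1 : ℝ))‖ ^ 2 =
      ∑ l, ((f l : EF N) p) ^ 2 := by
    intro p
    have h2 : ‖K.starProjection (EuclideanSpace.single p (1 : ℝ))‖ =
        ‖K.orthogonalProjectionOnto (EuclideanSpace.single p (1 : ℝ))‖ := by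
      rw [Submodule.starProjection_apply]
      rfl
    rw [h2, ← f.sum_sq_norm_inner_right]
    apply sum_congr rfl
    intro l _
    rw [Real.norm_eq_abs, sq_abs]
    congr 1
    have h3 : ⟪f l, K.orthogonalProjectionOnto (EuclideanSpace.single p (1 : ℝ))⟫_ℝ =
        ⟪(f l : EF N), EuclideanSpace.single p (1 : ℝ)⟫_ℝ :=
      Submodule.inner_orthogonalProjectionOnto_eq_of_mem_left _ _
    rw [h3, EuclideanSpace.inner_single_right]
    simp
  have h4 : ∑ p : Fin N × Fin N, ∑ l, ((f l : EF N) p) ^ 2 = finrank ℝ K := by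
    rw [sum_comm]
    have h5 : ∀ l, ∑ p, ((f l : EF N) p) ^ 2 = 1 := by
      intro l
      rw [← EuclideanSpace.real_norm_sq_eq]
      have := f.orthonormal.1 l
      have h6 : ‖(f l : EF N)‖ = 1 := this
      rw [h6, one_pow]
    simp [h5]
  have h7 : ∑ p : Fin N × Fin N, ∑ l, ((f l : EF N) p) ^ 2 <
      ∑ p : Fin N × Fin N, (finrank ℝ K : ℝ) / (N : ℝ) ^ 2 := by
    apply sum_lt_sum_of_nonempty
    · exact ⟨(⟨0, hN⟩, ⟨0, hN⟩), mem_univ _⟩
    · intro p _
      rw [← h1]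
      exact hcon p
  rw [h4, sum_const, card_univ, Fintype.card_prod, Fintype.card_fin, nsmul_eq_mul] at h7
  have h8 : ((N * N : ℕ) : ℝ) * ((finrank ℝ K : ℝ) / (N : ℝ) ^ 2) = finrank ℝ K := by
    push_cast
    field_simp
  rw [h8] at h7
  exact lt_irrefl _ h7

/-- The test matrix of a subspace. -/
lemma exists_test (hN : 1 ≤ N) (K : Submodule ℝ (EF N)) :
    ∃ (p : Fin N × Fin N) (A : Mt N), vec N A ∈ K ∧
      (finrank ℝ K : ℝ) / (N : ℝ) ^ 2 ≤ ‖vec N A‖ ^ 2 ∧ ‖vec N A‖ ^ 2 ≤ 1 ∧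
      A p.1 p.2 = ‖vec N A‖ ^ 2 ∧ ‖vec N (mU p - A)‖ ^ 2 = 1 - ‖vec N A‖ ^ 2 := by
  obtain ⟨p, hp⟩ := exists_large_proj hN K
  set e : EF N := EuclideanSpace.single p (1 : ℝ) with he
  set A : Mt N := (vec N).symm (K.starProjection e) with hA
  have hvA : vec N A = K.starProjection e := LinearEquiv.apply_symm_apply _ _
  have he1 : ‖e‖ = 1 := by simp [he]
  have h1 : ⟪e, K.starProjection e⟫_ℝ = ‖K.starProjection e‖ ^ 2 := by
    have h2 : ⟪e - K.starProjection e, K.starProjection e⟫_ℝ = 0 := by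
      have h3 := K.sub_starProjection_mem_orthogonal e
      have h4 : K.starProjection e ∈ K := K.starProjection_apply_mem e
      exact Submodule.inner_left_of_mem_orthogonal h4 h3
    rw [inner_sub_left, real_inner_self_eq_norm_sq] at h2
    linarith
  refine ⟨p, A, ?_, ?_, ?_, ?_, ?_⟩
  · rw [hvA]
    exact K.starProjection_apply_mem e
  · rw [hvA]
    exact hp
  · rw [hvA]
    have h5 : ‖K.starProjection e‖ ^ 2 ≤ ‖e‖ * ‖K.starProjection e‖ := by
      rw [← h1]
      exact real_inner_le_norm _ _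
    rw [he1, one_mul] at h5
    nlinarith [norm_nonneg (K.starProjection e)]
  · rw [← inner_mU A p, vec_mU, hvA]
    exact h1
  · rw [map_sub, vec_mU, hvA, norm_sub_sq_real, h1, he1]
    ring

end SchEmb
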