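import Pool.Agent.H2.Sch.SNum

/-! The main theorem. -/

open Module
open scoped InnerProductSpace ENNReal

namespace SchEmb

variable {N : ℕ}

lemma al_mul_be (hN : 1 ≤ N) (p q : ℝ) : al N p * be N q = (N : ℝ) ^ (1 / q - 1 / p) := by
  unfold al be
  rw [← Real.rpow_add (by exact_mod_cast hN)]
  congr 1
  ring

lemma ord_eq (hN : 1 ≤ N) (m : ℕ) (p q : ℝ) :
    ord N m p q = √(m : ℝ) / N * ((N : ℝ) ^ (1 / 2 - 1 / p) + (N : ℝ) ^ (1 / q - 1 / 2)) +
      (N : ℝ) ^ (1 / q - 1 / p) := by
  rw [← al_mul_be hN p q]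
  unfold ord al be
  ring

lemma al_mul_N_ge (hN : 1 ≤ N) {p : ℝ} (hp1 : 1 < p) : 1 ≤ N * al N p := by
  have hN' : (1 : ℝ) ≤ N := by exact_mod_cast hN
  unfold al
  have h1 : (N : ℝ) * (N : ℝ) ^ (1 / 2 - 1 / p) = (N : ℝ) ^ (3 / 2 - 1 / p) := by
    conv_lhs => rw [← Real.rpow_one (N : ℝ)]
    rw [← Real.rpow_mul (by linarith), one_mul, ← Real.rpow_add (by linarith)]
    congr 1
    ring
  rw [h1]
  apply Real.one_le_rpow hN'
  have : 1 / p ≤ 1 := by
    rw [div_le_one (by linarith)]
    exact hp1.le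
  linarith

/-- lower bounds for small `n` -/
lemma lower_small {p q : ℝ} (hp1 : 1 < p) (hp2 : p ≤ 2) (hq : 2 ≤ q) (hN : 1 ≤ N) {n : ℕ}
    (hnN : n ≤ N ^ 2) (hk : 3 * N ^ 2 ≤ 4 * (N ^ 2 - n + 1)) :
    ENNReal.ofReal (3 / 4 / (1 + √(n : ℝ) / N / al N p)) ≤ cS N p q n ∧
      ENNReal.ofReal (3 / 4 / (1 + √(n : ℝ) / N / be N q)) ≤ dS N p q n := by
  have hpp : p.HolderConjugate (p / (p - 1)) := Real.HolderConjugate.conjExponent hp1
  have hqq : q.HolderConjugate (q / (q - 1)) := Real.HolderConjugate.conjExponent (by linarith)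
  constructor
  · apply le_cS
    intro M hM
    have h1 := finrank_of_codim hM
    exact gelf_test_small hN hpp hp2 hqq M (k := N ^ 2 - n + 1) (by omega) (by omega) hk
  · apply le_dS
    intro L hL
    have h1 := finrank_orth L hL
    exact kolm_test_small hN hpp hqq hq L (k := N ^ 2 - n + 1) (by omega) (by omega) hk

lemma ofReal_le_mul_max {K L C : ℝ} (hC : 0 ≤ C) (h : K ≤ C * L) {x : ℝ≥0∞}
    (hx : ENNReal.ofReal L ≤ x) : ENNReal.ofReal K ≤ ENNReal.ofReal C * x := by
  refine (ENNReal.ofReal_le_ofReal h).trans ?_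
  rw [ENNReal.ofReal_mul hC]
  exact mul_le_mul' le_rfl hx

theorem main {p q : ℝ} (hp1 : 1 < p) (hp2 : p ≤ 2) (hq : 2 ≤ q) :
    ∃ C : ℝ, 1 ≤ C ∧ ∀ N n : ℕ, 1 ≤ n → n ≤ N ^ 2 →
      (max (cS N p q n) (dS N p q n) ≤ aS N p q n ∧
        aS N p q n ≤ ENNReal.ofReal C * max (cS N p q n) (dS N p q n)) ∧
      (N ^ 2 ≤ 2 * n →
        ENNReal.ofReal (ord N (N ^ 2 - n + 1) p q / C) ≤ aS N p q n ∧
          aS N p q n ≤ ENNReal.ofReal (C * ord N (N ^ 2 - n + 1) p q)) := by
  obtain ⟨C, hC, hU⟩ := upper_all hp1 hp2 hq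
  refine ⟨14 * C, by linarith, ?_⟩
  intro N n hn hnN
  have hN : 1 ≤ N := by
    rcases Nat.eq_zero_or_pos N with h | h
    · subst h
      simp at hnN
      omega
    · exact h
  have hN' : (0 : ℝ) < N := by exact_mod_cast hN
  have hmax : max (cS N p q n) (dS N p q n) ≤ aS N p q n :=
    max_le (gelfandNum_le_approxNum _ _ _ _) (kolmogorovNum_le_approxNum _ _ _ _)
  have hlow := lower_all hp1 hp2 hq hN hnN
  have hone : aS N p q n ≤ ENNReal.ofReal 1 := by
    rw [ENNReal.ofReal_one]
    exact aS_le_one (by linarith) (by linarith) hn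
  have hord := ord_pos hN (N ^ 2 - n + 1) p q
  refine ⟨⟨hmax, ?_⟩, ?_⟩
  · rcases le_total (4 * (N ^ 2 - n + 1)) (3 * N ^ 2) with hk | hk
    · refine (a_upper_A hq hC hU hN hn hnN hk).trans ?_
      apply ofReal_le_mul_max (by linarith) _ hlow
      nlinarith
    · obtain ⟨hc, hd⟩ := lower_small hp1 hp2 hq hN hnN hk
      have hα := al_pos hN p
      have hβ := be_pos hN q
      set y := √(n : ℝ) / N / al N p with hy
      set z := √(n : ℝ) / N / be N q with hz
      have hn' : (0 : ℝ) < n := by exact_mod_cast hn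
      have hy0 : 0 < y := by positivity
      have hz0 : 0 < z := by positivity
      rcases le_or_gt y 1 with hy1 | hy1
      · refine hone.trans ?_
        apply ofReal_le_mul_max (by linarith) _ (hc.trans (le_max_left _ _))
        have h1 : 3 / 8 ≤ 3 / 4 / (1 + y) := by
          rw [div_le_div_iff₀ (by norm_num) (by linarith)]
          linarith
        nlinarith
      rcases le_or_gt z 1 with hz1 | hz1
      · refine hone.trans ?_
        apply ofReal_le_mul_max (by linarith) _ (hd.trans (le_max_right _ _))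
        have h1 : 3 / 8 ≤ 3 / 4 / (1 + z) := by
          rw [div_le_div_iff₀ (by norm_num) (by linarith)]
          linarith
        nlinarith
      -- now `y > 1` and `z > 1`, so `n ≥ 2`
      have hn2 : 2 ≤ n := by
        by_contra hcon
        have hn1 : n = 1 := by omega
        have h1 := al_mul_N_ge hN hp1
        rw [hy, hn1] at hy1
        rw [Nat.cast_one, Real.sqrt_one, div_div, lt_div_iff₀ (by positivity)] at hy1
        linarith
      obtain ⟨m, rfl⟩ : ∃ m, n = m + 1 := ⟨n - 1, by omega⟩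
      have hm1 : 1 ≤ m := by omega
      have hmN : m ≤ N ^ 2 := by omega
      have hm' : (0 : ℝ) < m := by exact_mod_cast hm1
      have hup := a_upper_B hq hU hN hm1 hmN (p := p)
      have hnm : ((m + 1 : ℕ) : ℝ) ≤ 2 * m := by
        push_cast
        have : (1 : ℝ) ≤ m := by exact_mod_cast hm1
        linarith
      have hs : √((m + 1 : ℕ) : ℝ) ≤ 3 / 2 * √(m : ℝ) := by
        rw [Real.sqrt_le_left (by positivity), mul_pow, Real.sq_sqrt hm'.le]
        linarith
      have hsm : 0 < √(m : ℝ) := Real.sqrt_pos.mpr hm'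
      have hsn : 0 < √((m + 1 : ℕ) : ℝ) := Real.sqrt_pos.mpr hn'
      have esm : √(m : ℝ) * √(m : ℝ) = m := Real.mul_self_sqrt hm'.le
      -- `N * al / sqrt m ≤ (3/2) / y`
      have hYa : N * al N p / √(m : ℝ) ≤ 3 / 2 * (1 / y) := by
        have h1 : 1 / y = N * al N p / √((m + 1 : ℕ) : ℝ) := by
          rw [hy]
          field_simp
        rw [h1, div_le_iff₀ hsm]
        have h2 : 3 / 2 * (N * al N p / √((m + 1 : ℕ) : ℝ)) * √(m : ℝ) =
            N * al N p * ((3 / 2 * √(m : ℝ)) / √((m + 1 : ℕ) : ℝ)) := by ring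
        rw [h2]
        have h3 : 1 ≤ (3 / 2 * √(m : ℝ)) / √((m + 1 : ℕ) : ℝ) := by
          rw [le_div_iff₀ hsn, one_mul]
          exact hs
        have h4 : 0 < N * al N p := by positivity
        nlinarith
      have hZb : N * be N q / √(m : ℝ) ≤ 3 / 2 * (1 / z) := by
        have h1 : 1 / z = N * be N q / √((m + 1 : ℕ) : ℝ) := by
          rw [hz]
          field_simp
        rw [h1, div_le_iff₀ hsm]
        have h2 : 3 / 2 * (N * be N q / √((m + 1 : ℕ) : ℝ)) * √(m : ℝ) =
            N * be N q * ((3 / 2 * √(m : ℝ)) / √((m + 1 : ℕ) : ℝ)) := by ring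
        rw [h2]
        have h3 : 1 ≤ (3 / 2 * √(m : ℝ)) / √((m + 1 : ℕ) : ℝ) := by
          rw [le_div_iff₀ hsn, one_mul]
          exact hs
        have h4 : 0 < N * be N q := by positivity
        nlinarith
      set Y := 1 / y with hYd
      set Z := 1 / z with hZd
      have hY0 : 0 < Y := by positivity
      have hZ0 : 0 < Z := by positivity
      have hY1 : Y < 1 := by
        rw [hYd, div_lt_one hy0]
        exact hy1
      have hZ1 : Z < 1 := by
        rw [hZd, div_lt_one hz0]
        exact hz1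
      have hord2 : (N : ℝ) ^ 2 / m * ord N m p q = N * al N p / √(m : ℝ) + N * be N q / √(m : ℝ) +
          (N * al N p / √(m : ℝ)) * (N * be N q / √(m : ℝ)) := by
        unfold ord
        have e1 : (N : ℝ) * al N p / √(m : ℝ) = N * al N p * √(m : ℝ) / m := by
          rw [div_eq_div_iff hsm.ne' hm'.ne', mul_assoc (N * al N p), esm]
        have e2 : (N : ℝ) * be N q / √(m : ℝ) = N * be N q * √(m : ℝ) / m := by
          rw [div_eq_div_iff hsm.ne' hm'.ne', mul_assoc (N * be N q), esm]
        have e3 : (N * al N p / √(m : ℝ)) * (N * be N q / √(m : ℝ)) =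
            (N : ℝ) ^ 2 * (al N p * be N q) / m := by
          rw [div_mul_div_comm, esm]
          ring
        rw [e3, e1, e2]
        field_simp
      set u := N * al N p / √(m : ℝ) with hu
      set v := N * be N q / √(m : ℝ) with hv
      have hu0 : 0 < u := by positivity
      have hv0 : 0 < v := by positivity
      have hbound : (N : ℝ) ^ 2 / m * (C * ord N m p q) ≤ 14 * C * (3 / 8 * max Y Z) := by
        have h1 : (N : ℝ) ^ 2 / m * (C * ord N m p q) = C * ((N : ℝ) ^ 2 / m * ord N m p q) := by ring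
        rw [h1, hord2]
        have h2 : u + v + u * v ≤ 21 / 4 * max Y Z := by
          have h3 : u * v ≤ (3 / 2 * Y) * (3 / 2 * Z) := mul_le_mul hYa hZb hv0.le (by positivity)
          rcases le_total Y Z with h4 | h4
          · rw [max_eq_right h4]
            nlinarith
          · rw [max_eq_left h4]
            nlinarith
        nlinarith
      have hlow2 : ENNReal.ofReal (3 / 8 * max Y Z) ≤ max (cS N p q (m + 1)) (dS N p q (m + 1)) := by
        rcases le_total Y Z with h4 | h4
        · rw [max_eq_right h4]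
          refine (ENNReal.ofReal_le_ofReal ?_).trans (hd.trans (le_max_right _ _))
          rw [hZd, mul_one_div, div_le_div_iff₀ hz0 (by linarith)]
          nlinarith
        · rw [max_eq_left h4]
          refine (ENNReal.ofReal_le_ofReal ?_).trans (hc.trans (le_max_left _ _))
          rw [hYd, mul_one_div, div_le_div_iff₀ hy0 (by linarith)]
          nlinarith
      refine hup.trans ?_
      exact ofReal_le_mul_max (by linarith) hbound hlow2
  · intro h2n
    constructor
    · refine (ENNReal.ofReal_le_ofReal ?_).trans (hlow.trans hmax)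
      apply div_le_div_of_nonneg_left hord.le (by norm_num)
      linarith
    · rcases le_or_gt (4 * (N ^ 2 - n + 1)) (3 * N ^ 2) with hk | hk
      · refine (a_upper_A hq hC hU hN hn hnN hk).trans (ENNReal.ofReal_le_ofReal ?_)
        nlinarith
      · refine hone.trans (ENNReal.ofReal_le_ofReal ?_)
        have hN1 : N = 1 := by
          by_contra hcon
          have h3 : 2 ≤ N := by omega
          have h4 : 4 ≤ N ^ 2 := by nlinarith
          omega
        subst hN1
        have h5 : 1 ≤ ord 1 (1 ^ 2 - n + 1) p q := by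
          unfold ord al be
          simp only [Nat.cast_one, Real.one_rpow, mul_one, div_one]
          have := Real.sqrt_nonneg ((1 ^ 2 - n + 1 : ℕ) : ℝ)
          linarith
        nlinarith

end SchEmb
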