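import Mathlib

/-! Nets of unit balls of finite dimensional normed spaces and (multi)linear forms. -/

open Module

namespace SchEmb

variable (E : Type*) [NormedAddCommGroup E] [NormedSpace ℝ E] [FiniteDimensional ℝ E]

/-- `T` is a `1/2`-net of the unit ball, inside the unit ball. -/
def IsNet {E : Type*} [NormedAddCommGroup E] (T : Finset E) : Prop :=
  (∀ x ∈ T, ‖x‖ ≤ 1) ∧ ∀ x, ‖x‖ ≤ 1 → ∃ y ∈ T, ‖x - y‖ ≤ 1 / 2

lemma exists_net : ∃ T : Finset E, T.card ≤ 5 ^ finrank ℝ E ∧ IsNet T := by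
  classical
  set P : ℕ → Prop := fun k => ∃ T : Finset E, T.card = k ∧ (∀ x ∈ T, ‖x‖ ≤ 1) ∧
    ∀ x ∈ T, ∀ y ∈ T, x ≠ y → 1 / 2 ≤ ‖x - y‖ with hP
  have hbound : ∀ T : Finset E, (∀ x ∈ T, ‖x‖ ≤ 1) →
      (∀ x ∈ T, ∀ y ∈ T, x ≠ y → 1 / 2 ≤ ‖x - y‖) → T.card ≤ 5 ^ finrank ℝ E := by
    intro T h1 h2
    have hinj : Function.Injective fun x : E => (2 : ℝ) • x := smul_right_injective _ two_ne_zero
    rw [← Finset.card_image_of_injective T hinj]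
    apply Besicovitch.card_le_of_separated
    · intro c hc
      obtain ⟨x, hx, rfl⟩ := Finset.mem_image.mp hc
      rw [norm_smul, Real.norm_eq_abs, abs_of_pos (by norm_num : (0 : ℝ) < 2)]
      linarith [h1 x hx]
    · intro c hc d hd hcd
      obtain ⟨x, hx, rfl⟩ := Finset.mem_image.mp hc
      obtain ⟨y, hy, rfl⟩ := Finset.mem_image.mp hd
      have hxy : x ≠ y := fun h => hcd (by rw [h])
      rw [← smul_sub, norm_smul, Real.norm_eq_abs, abs_of_pos (by norm_num : (0 : ℝ) < 2)]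
      linarith [h2 x hx y hy hxy]
  have h0 : P 0 := ⟨∅, by simp⟩
  have hfind := Nat.findGreatest_spec (P := P) (Nat.zero_le (5 ^ finrank ℝ E)) h0
  obtain ⟨T, hTc, hT1, hT2⟩ := hfind
  refine ⟨T, hbound T hT1 hT2, hT1, ?_⟩
  intro x hx
  by_contra hcon
  push Not at hcon
  have hxT : x ∉ T := by
    intro h
    have := hcon x h
    rw [sub_self, norm_zero] at this
    linarith
  have hins1 : ∀ y ∈ insert x T, ‖y‖ ≤ 1 := by
    intro y hy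
    rcases Finset.mem_insert.mp hy with rfl | hy
    · exact hx
    · exact hT1 y hy
  have hins2 : ∀ y ∈ insert x T, ∀ z ∈ insert x T, y ≠ z → 1 / 2 ≤ ‖y - z‖ := by
    intro y hy z hz hyz
    rcases Finset.mem_insert.mp hy with hy' | hy'
    · rcases Finset.mem_insert.mp hz with hz' | hz'
      · exact absurd (hy'.trans hz'.symm) hyz
      · rw [hy']
        exact (hcon z hz').le
    · rcases Finset.mem_insert.mp hz with hz' | hz'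
      · rw [hz', norm_sub_rev]
        exact (hcon y hy').le
      · exact hT2 y hy' z hz' hyz
  have hPk : P (T.card + 1) := ⟨insert x T, by rw [Finset.card_insert_of_notMem hxT], hins1, hins2⟩
  have hle : T.card + 1 ≤ 5 ^ finrank ℝ E := by
    have := hbound _ hins1 hins2
    rwa [Finset.card_insert_of_notMem hxT] at this
  have hg := Nat.findGreatest_is_greatest (P := P) (n := 5 ^ finrank ℝ E) (k := T.card + 1)
    (by rw [← hTc]; omega) hle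
  exact hg hPk

variable {E}

lemma linear_bound_of_net {T : Finset E} (hT : IsNet T) (f : E →ₗ[ℝ] ℝ) {τ : ℝ}
    (h : ∀ y ∈ T, |f y| ≤ τ) {x : E} (hx : ‖x‖ ≤ 1) : |f x| ≤ 2 * τ := by
  set g : E →L[ℝ] ℝ := LinearMap.toContinuousLinearMap f with hg
  have hgf : ∀ x, g x = f x := fun x => rfl
  have hτ : 0 ≤ τ := by
    obtain ⟨y, hy, _⟩ := hT.2 0 (by simp)
    exact (abs_nonneg _).trans (h y hy)
  have hg1 : ‖g‖ ≤ τ + ‖g‖ * (1 / 2) := by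
    apply ContinuousLinearMap.opNorm_le_of_unit_norm (by positivity)
    intro z hz
    obtain ⟨y, hy, hy2⟩ := hT.2 z hz.le
    have h1 : g z = g y + g (z - y) := by
      rw [← map_add]
      congr 1
      abel
    rw [h1]
    refine (norm_add_le _ _).trans (add_le_add ?_ ?_)
    · rw [hgf, Real.norm_eq_abs]
      exact h y hy
    · exact (g.le_opNorm _).trans (mul_le_mul_of_nonneg_left hy2 (norm_nonneg _))
  have hg2 : ‖g‖ ≤ 2 * τ := by linarith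
  calc |f x| = ‖g x‖ := by rw [hgf, Real.norm_eq_abs]
    _ ≤ ‖g‖ * ‖x‖ := g.le_opNorm _
    _ ≤ ‖g‖ * 1 := mul_le_mul_of_nonneg_left hx (norm_nonneg _)
    _ ≤ 2 * τ := by linarith

lemma quad_bound_of_net {E₁ E₂ : Type*} [NormedAddCommGroup E₁] [NormedSpace ℝ E₁]
    [FiniteDimensional ℝ E₁] [NormedAddCommGroup E₂] [NormedSpace ℝ E₂] [FiniteDimensional ℝ E₂]
    {T₁ : Finset E₁} (hT₁ : IsNet T₁) {T₂ : Finset E₂} (hT₂ : IsNet T₂)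
    (φ : E₁ → E₁ → E₂ → E₂ → ℝ)
    (h1 : ∀ Y Z W, IsLinearMap ℝ fun X => φ X Y Z W)
    (h2 : ∀ X Z W, IsLinearMap ℝ fun Y => φ X Y Z W)
    (h3 : ∀ X Y W, IsLinearMap ℝ fun Z => φ X Y Z W)
    (h4 : ∀ X Y Z, IsLinearMap ℝ fun W => φ X Y Z W) {τ : ℝ}
    (h : ∀ X ∈ T₁, ∀ Y ∈ T₁, ∀ Z ∈ T₂, ∀ W ∈ T₂, |φ X Y Z W| ≤ τ) {X Y : E₁} {Z W : E₂}
    (hX : ‖X‖ ≤ 1) (hY : ‖Y‖ ≤ 1) (hZ : ‖Z‖ ≤ 1) (hW : ‖W‖ ≤ 1) :
    |φ X Y Z W| ≤ 16 * τ := by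
  have a1 : ∀ X, ‖X‖ ≤ 1 → ∀ Y ∈ T₁, ∀ Z ∈ T₂, ∀ W ∈ T₂, |φ X Y Z W| ≤ 2 * τ :=
    fun X hX Y hY Z hZ W hW => linear_bound_of_net hT₁ ((h1 Y Z W).mk' _)
      (fun X' hX' => h X' hX' Y hY Z hZ W hW) hX
  have a2 : ∀ X, ‖X‖ ≤ 1 → ∀ Y, ‖Y‖ ≤ 1 → ∀ Z ∈ T₂, ∀ W ∈ T₂, |φ X Y Z W| ≤ 2 * (2 * τ) :=
    fun X hX Y hY Z hZ W hW => linear_bound_of_net hT₁ ((h2 X Z W).mk' _)
      (fun Y' hY' => a1 X hX Y' hY' Z hZ W hW) hY
  have a3 : ∀ X, ‖X‖ ≤ 1 → ∀ Y, ‖Y‖ ≤ 1 → ∀ Z, ‖Z‖ ≤ 1 → ∀ W ∈ T₂,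
      |φ X Y Z W| ≤ 2 * (2 * (2 * τ)) :=
    fun X hX Y hY Z hZ W hW => linear_bound_of_net hT₂ ((h3 X Y W).mk' _)
      (fun Z' hZ' => a2 X hX Y hY Z' hZ' W hW) hZ
  have a4 := linear_bound_of_net hT₂ ((h4 X Y Z).mk' _)
      (fun W' hW' => a3 X hX Y hY Z hZ W' hW') hW
  calc |φ X Y Z W| ≤ 2 * (2 * (2 * (2 * τ))) := a4
    _ = 16 * τ := by ring

end SchEmb
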