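import Pool.Agent.H2.Sch.Haar
import Pool.Agent.H2.Sch.Net

/-! Orthogonal projections with small deviations on a finite family of vectors. -/

open Module
open scoped InnerProductSpace

namespace SchEmb

variable {ι : Type*} [Fintype ι] [DecidableEq ι]

/-- Coordinate projection. -/
noncomputable def cproj (S : Finset ι) : EuclideanSpace ℝ ι →ₗ[ℝ] EuclideanSpace ℝ ι where
  toFun x := WithLp.toLp 2 (fun i => if i ∈ S then x i else 0)
  map_add' x y := by
    ext i
    simp only [PiLp.add_apply]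
    split_ifs <;> simp
  map_smul' c x := by
    ext i
    simp only [PiLp.smul_apply, RingHom.id_apply]
    split_ifs <;> simp

lemma cproj_apply (S : Finset ι) (x : EuclideanSpace ℝ ι) (i : ι) :
    cproj S x i = if i ∈ S then x i else 0 := rfl

lemma inner_eq_sum (x y : EuclideanSpace ℝ ι) : ⟪x, y⟫_ℝ = ∑ i, x i * y i := by
  rw [PiLp.inner_apply]
  apply Finset.sum_congr rfl
  intro i _
  rw [real_inner_eq_re_inner]
  simp [mul_comm]

lemma inner_cproj (S : Finset ι) (x y : EuclideanSpace ℝ ι) :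
    ⟪cproj S x, y⟫_ℝ = ⟪cproj S x, cproj S y⟫_ℝ := by
  rw [inner_eq_sum, inner_eq_sum]
  apply Finset.sum_congr rfl
  intro i _
  rw [cproj_apply, cproj_apply]
  split_ifs <;> simp

lemma inner_cproj_comm (S : Finset ι) (x y : EuclideanSpace ℝ ι) :
    ⟪cproj S x, y⟫_ℝ = ⟪x, cproj S y⟫_ℝ := by
  rw [inner_eq_sum, inner_eq_sum]
  apply Finset.sum_congr rfl
  intro i _
  rw [cproj_apply, cproj_apply]
  split_ifs <;> simp

lemma norm_cproj (S : Finset ι) (x : EuclideanSpace ℝ ι) : ‖cproj S x‖ ^ 2 = cq S x := by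
  rw [EuclideanSpace.real_norm_sq_eq, cq]
  have : ∀ i, (cproj S x i) ^ 2 = if i ∈ S then (x i) ^ 2 else 0 := by
    intro i
    rw [cproj_apply]
    split_ifs <;> simp
  simp_rw [this]
  simp

lemma id_sub_cproj (S : Finset ι) : LinearMap.id - cproj S = cproj Sᶜ := by
  ext x i
  simp only [LinearMap.sub_apply, LinearMap.id_apply, PiLp.sub_apply, cproj_apply,
    Finset.mem_compl]
  by_cases h : i ∈ S <;> simp [h]

lemma finrank_range_cproj_le (S : Finset ι) :
    finrank ℝ (LinearMap.range (cproj S)) ≤ S.card := by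
  have h1 : LinearMap.range (cproj S) ≤
      Submodule.span ℝ ((S.image fun i => EuclideanSpace.single i (1 : ℝ)) : Set (EuclideanSpace ℝ ι)) := by
    rintro _ ⟨x, rfl⟩
    have : cproj S x = ∑ i ∈ S, (x i) • EuclideanSpace.single i (1 : ℝ) := by
      ext j
      rw [cproj_apply, WithLp.ofLp_sum, Finset.sum_apply]
      simp [Finset.sum_ite_eq, Pi.single_apply]
    rw [this]
    apply Submodule.sum_mem
    intro i hi
    apply Submodule.smul_mem
    apply Submodule.subset_span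
    rw [Finset.coe_image]
    exact ⟨i, hi, rfl⟩
  calc finrank ℝ (LinearMap.range (cproj S)) ≤ finrank ℝ (Submodule.span ℝ
        ((S.image fun i => EuclideanSpace.single i (1 : ℝ)) : Set (EuclideanSpace ℝ ι))) :=
        Submodule.finrank_mono h1
    _ ≤ (S.image fun i => EuclideanSpace.single i (1 : ℝ)).card := finrank_span_finset_le_card _
    _ ≤ S.card := Finset.card_image_le

/-- The rotated coordinate projection. -/
noncomputable def rproj (S : Finset ι) (O : OG ι) :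
    EuclideanSpace ℝ ι →ₗ[ℝ] EuclideanSpace ℝ ι :=
  ((O : EuclideanSpace ℝ ι →L[ℝ] EuclideanSpace ℝ ι) : EuclideanSpace ℝ ι →ₗ[ℝ] EuclideanSpace ℝ ι) ∘ₗ
    cproj S ∘ₗ (((O⁻¹ : OG ι) : EuclideanSpace ℝ ι →L[ℝ] EuclideanSpace ℝ ι) :
      EuclideanSpace ℝ ι →ₗ[ℝ] EuclideanSpace ℝ ι)

lemma rproj_apply (S : Finset ι) (O : OG ι) (x : EuclideanSpace ℝ ι) :
    rproj S O x = (O : EuclideanSpace ℝ ι →L[ℝ] EuclideanSpace ℝ ι) (cproj S (act O x)) := rfl

lemma OG_inner (O : OG ι) (x y : EuclideanSpace ℝ ι) :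
    ⟪(O : EuclideanSpace ℝ ι →L[ℝ] EuclideanSpace ℝ ι) x, (O : EuclideanSpace ℝ ι →L[ℝ] EuclideanSpace ℝ ι) y⟫_ℝ
      = ⟪x, y⟫_ℝ :=
  (Unitary.linearIsometryEquiv O).inner_map_map x y

lemma OG_apply_act (O : OG ι) (x : EuclideanSpace ℝ ι) :
    (O : EuclideanSpace ℝ ι →L[ℝ] EuclideanSpace ℝ ι) (act O x) = x := by
  have h : (O * O⁻¹ : OG ι) = 1 := mul_inv_cancel O
  have h2 : ((O * O⁻¹ : OG ι) : EuclideanSpace ℝ ι →L[ℝ] EuclideanSpace ℝ ι) x = x := by
    rw [h]
    rfl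
  exact h2

lemma inner_rproj_left (S : Finset ι) (O : OG ι) (x y : EuclideanSpace ℝ ι) :
    ⟪rproj S O x, y⟫_ℝ = ⟪cproj S (act O x), act O y⟫_ℝ := by
  rw [rproj_apply]
  conv_lhs => rw [← OG_apply_act O y]
  exact OG_inner O _ _

lemma inner_rproj_comm (S : Finset ι) (O : OG ι) (x y : EuclideanSpace ℝ ι) :
    ⟪rproj S O x, y⟫_ℝ = ⟪x, rproj S O y⟫_ℝ := by
  rw [inner_rproj_left, real_inner_comm, ← inner_cproj_comm, ← inner_rproj_left, real_inner_comm]

lemma inner_rproj_idem (S : Finset ι) (O : OG ι) (x y : EuclideanSpace ℝ ι) :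
    ⟪rproj S O x, y⟫_ℝ = ⟪rproj S O x, rproj S O y⟫_ℝ := by
  rw [inner_rproj_left, rproj_apply, rproj_apply, OG_inner, inner_cproj]

lemma norm_rproj_sq (S : Finset ι) (O : OG ι) (x : EuclideanSpace ℝ ι) :
    ‖rproj S O x‖ ^ 2 = cq S (act O x) := by
  rw [rproj_apply, OG_norm_apply, norm_cproj]

lemma finrank_range_rproj_le (S : Finset ι) (O : OG ι) :
    finrank ℝ (LinearMap.range (rproj S O)) ≤ S.card := by
  refine le_trans ?_ (finrank_range_cproj_le S)
  unfold rproj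
  rw [LinearMap.range_comp]
  refine (Submodule.finrank_map_le _ _).trans ?_
  exact Submodule.finrank_mono (LinearMap.range_comp_le_range _ _)

lemma id_sub_rproj (S : Finset ι) (O : OG ι) : LinearMap.id - rproj S O = rproj Sᶜ O := by
  apply LinearMap.ext
  intro x
  rw [LinearMap.sub_apply, LinearMap.id_apply, rproj_apply, rproj_apply, ← id_sub_cproj,
    LinearMap.sub_apply, LinearMap.id_apply, map_sub, OG_apply_act]

/-- Orthogonal projections, in the form we need. -/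
structure IsOProj {E : Type*} [NormedAddCommGroup E] [InnerProductSpace ℝ E]
    (P : E →ₗ[ℝ] E) : Prop where
  comm : ∀ x y, ⟪P x, y⟫_ℝ = ⟪x, P y⟫_ℝ
  idem : ∀ x y, ⟪P x, y⟫_ℝ = ⟪P x, P y⟫_ℝ

lemma exists_proj_family {κ : Type*} [Fintype κ] {m : ℕ} (hm : 1 ≤ m) (hmD : m ≤ Fintype.card ι)
    (w : κ → EuclideanSpace ℝ ι) (t : κ → ℝ) (ht : ∀ k, 0 < t k)
    (hsum : ∑ k, 2 * Real.exp (-(min (t k ^ 2 / (16 * m)) (t k / 8))) < 1) :
    ∃ P : EuclideanSpace ℝ ι →ₗ[ℝ] EuclideanSpace ℝ ι, IsOProj P ∧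
      finrank ℝ (LinearMap.range P) ≤ m ∧
      finrank ℝ (LinearMap.range (LinearMap.id - P)) ≤ Fintype.card ι - m ∧
      ∀ k, |Fintype.card ι * ‖P (w k)‖ ^ 2 - m * ‖w k‖ ^ 2| ≤ t k * ‖w k‖ ^ 2 := by
  obtain ⟨S, hSsub, hS⟩ := Finset.exists_subset_card_eq (s := (Finset.univ : Finset ι)) (n := m)
    (by rw [Finset.card_univ]; exact hmD)
  have hne : Nonempty ι := by
    rw [← Fintype.card_pos_iff]
    omega
  obtain ⟨i0⟩ := hne
  set nrm : EuclideanSpace ℝ ι → EuclideanSpace ℝ ι := fun x =>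
    if x = 0 then EuclideanSpace.single i0 (1 : ℝ) else ‖x‖⁻¹ • x with hnrm
  have hn1 : ∀ x, ‖nrm x‖ = 1 := by
    intro x
    simp only [hnrm]
    split_ifs with h
    · simp
    · rw [norm_smul, norm_inv, norm_norm, inv_mul_cancel₀ (norm_ne_zero_iff.mpr h)]
  have hn2 : ∀ x, ‖x‖ • nrm x = x := by
    intro x
    simp only [hnrm]
    split_ifs with h
    · rw [h, norm_zero, zero_smul]
    · rw [smul_smul, mul_inv_cancel₀ (norm_ne_zero_iff.mpr h), one_smul]
  obtain ⟨O, hO⟩ := exists_rotation S (by omega) (fun k => nrm (w k)) (fun k => hn1 (w k)) t ht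
    (by rw [hS]; exact hsum)
  refine ⟨rproj S O, ⟨inner_rproj_comm S O, inner_rproj_idem S O⟩, ?_, ?_, ?_⟩
  · rw [← hS]
    exact finrank_range_rproj_le S O
  · rw [id_sub_rproj, ← hS, ← Finset.card_compl]
    exact finrank_range_rproj_le _ O
  · intro k
    have h1 : ‖rproj S O (w k)‖ ^ 2 = ‖w k‖ ^ 2 * cq S (act O (nrm (w k))) := by
      rw [norm_rproj_sq]
      conv_lhs => rw [← hn2 (w k)]
      rw [act_smul, cq_smul]
    have h2 : (Fintype.card ι : ℝ) * ‖rproj S O (w k)‖ ^ 2 - m * ‖w k‖ ^ 2 =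
        ‖w k‖ ^ 2 * (Fintype.card ι * cq S (act O (nrm (w k))) - S.card) := by
      rw [h1, hS]
      ring
    rw [h2, abs_mul, abs_of_nonneg (sq_nonneg _), mul_comm]
    exact mul_le_mul_of_nonneg_right (hO k) (sq_nonneg _)

end SchEmb
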