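import Pool.Agent.H2.Sch.Upper

/-! Approximation, Gelfand and Kolmogorov numbers, and the main theorem. -/

open Module
open scoped InnerProductSpace ENNReal

namespace SchEmb

section Defs

variable {E F : Type*} [AddCommGroup E] [Module ℝ E] [AddCommGroup F] [Module ℝ F]

/-- The norm of the restriction of `T` to the subspace `M`, for the (quasi-)norms `nE`, `nF`:
the supremum of `nF (T x)` over `x ∈ M` with `nE x ≤ 1`. -/
noncomputable def restrNorm (nE : E → ℝ) (nF : F → ℝ) (T : E →ₗ[ℝ] F) (M : Submodule ℝ E) : ℝ≥0∞ :=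
  ⨆ (x : E) (_ : x ∈ M ∧ nE x ≤ 1), ENNReal.ofReal (nF (T x))

/-- Approximation numbers. -/
noncomputable def approxNum (nE : E → ℝ) (nF : F → ℝ) (T : E →ₗ[ℝ] F) (n : ℕ) : ℝ≥0∞ :=
  ⨅ (A : E →ₗ[ℝ] F) (_ : finrank ℝ (LinearMap.range A) < n), restrNorm nE nF (T - A) ⊤

/-- Gelfand numbers. -/
noncomputable def gelfandNum (nE : E → ℝ) (nF : F → ℝ) (T : E →ₗ[ℝ] F) (n : ℕ) : ℝ≥0∞ :=
  ⨅ (M : Submodule ℝ E) (_ : finrank ℝ (E ⧸ M) < n), restrNorm nE nF T M

/-- Kolmogorov numbers. -/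
noncomputable def kolmogorovNum (nE : E → ℝ) (nF : F → ℝ) (T : E →ₗ[ℝ] F) (n : ℕ) : ℝ≥0∞ :=
  ⨅ (L : Submodule ℝ F) (_ : finrank ℝ L < n), ⨆ (x : E) (_ : nE x ≤ 1),
    ⨅ y : L, ENNReal.ofReal (nF (T x - y))

lemma gelfandNum_le_approxNum (nE : E → ℝ) (nF : F → ℝ) (T : E →ₗ[ℝ] F) (n : ℕ) :
    gelfandNum nE nF T n ≤ approxNum nE nF T n := by
  refine le_iInf₂ fun A hA => ?_
  refine iInf₂_le_of_le (LinearMap.ker A) ?_ ?_
  · rw [LinearEquiv.finrank_eq A.quotKerEquivRange]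
    exact hA
  · refine iSup₂_le fun x hx => ?_
    refine le_iSup₂_of_le x ⟨Submodule.mem_top, hx.2⟩ ?_
    have h : A x = 0 := hx.1
    rw [LinearMap.sub_apply, h, sub_zero]

lemma kolmogorovNum_le_approxNum (nE : E → ℝ) (nF : F → ℝ) (T : E →ₗ[ℝ] F) (n : ℕ) :
    kolmogorovNum nE nF T n ≤ approxNum nE nF T n := by
  refine le_iInf₂ fun A hA => ?_
  refine iInf₂_le_of_le (LinearMap.range A) hA ?_
  refine iSup₂_le fun x hx => ?_
  refine iInf_le_of_le ⟨A x, LinearMap.mem_range_self A x⟩ ?_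
  exact le_iSup₂_of_le x ⟨Submodule.mem_top, hx⟩ le_rfl

end Defs

variable {N : ℕ}

/-- approximation numbers of `id : S_p^N → S_q^N` -/
noncomputable def aS (N : ℕ) (p q : ℝ) (n : ℕ) : ℝ≥0∞ :=
  approxNum (schatten p) (schatten q) (LinearMap.id : Mt N →ₗ[ℝ] Mt N) n

/-- Gelfand numbers of `id : S_p^N → S_q^N` -/
noncomputable def cS (N : ℕ) (p q : ℝ) (n : ℕ) : ℝ≥0∞ :=
  gelfandNum (schatten p) (schatten q) (LinearMap.id : Mt N →ₗ[ℝ] Mt N) n

/-- Kolmogorov numbers of `id : S_p^N → S_q^N` -/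
noncomputable def dS (N : ℕ) (p q : ℝ) (n : ℕ) : ℝ≥0∞ :=
  kolmogorovNum (schatten p) (schatten q) (LinearMap.id : Mt N →ₗ[ℝ] Mt N) n

lemma aS_le {p q K : ℝ} {n : ℕ} (A : Mt N →ₗ[ℝ] Mt N) (hA : finrank ℝ (LinearMap.range A) < n)
    (h : ∀ U, schatten p U ≤ 1 → schatten q (U - A U) ≤ K) : aS N p q n ≤ ENNReal.ofReal K := by
  refine iInf₂_le_of_le A hA (iSup₂_le fun U hU => ?_)
  exact ENNReal.ofReal_le_ofReal (h U hU.2)

lemma le_cS {p q K : ℝ} {n : ℕ} (h : ∀ M : Submodule ℝ (Mt N), finrank ℝ (Mt N ⧸ M) < n →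
    ∃ U ∈ M, schatten p U ≤ 1 ∧ K ≤ schatten q U) : ENNReal.ofReal K ≤ cS N p q n := by
  refine le_iInf₂ fun M hM => ?_
  obtain ⟨U, hU, h1, h2⟩ := h M hM
  exact le_iSup₂_of_le U ⟨hU, h1⟩ (ENNReal.ofReal_le_ofReal h2)

lemma le_dS {p q K : ℝ} {n : ℕ} (h : ∀ L : Submodule ℝ (Mt N), finrank ℝ L < n →
    ∃ U, schatten p U ≤ 1 ∧ ∀ Y ∈ L, K ≤ schatten q (U - Y)) : ENNReal.ofReal K ≤ dS N p q n := by
  refine le_iInf₂ fun L hL => ?_
  obtain ⟨U, h1, h2⟩ := h L hL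
  exact le_iSup₂_of_le U h1 (le_iInf fun Y => ENNReal.ofReal_le_ofReal (h2 Y Y.2))

lemma aS_le_one {p q : ℝ} (hp : 0 < p) (hpq : p ≤ q) {n : ℕ} (hn : 1 ≤ n) : aS N p q n ≤ 1 := by
  rw [← ENNReal.ofReal_one]
  refine aS_le 0 ?_ ?_
  · rw [LinearMap.range_zero, finrank_bot]
    omega
  · intro U hU
    rw [LinearMap.zero_apply, sub_zero]
    exact schatten_le_one_mono hp hpq hU

/-- The operator on matrices induced by an operator on Frobenius coordinates. -/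
noncomputable def opM (P : EF N →ₗ[ℝ] EF N) : Mt N →ₗ[ℝ] Mt N :=
  (vec N).symm.toLinearMap ∘ₗ P ∘ₗ (vec N).toLinearMap

lemma vec_opM (P : EF N →ₗ[ℝ] EF N) (U : Mt N) : vec N (opM P U) = P (vec N U) :=
  LinearEquiv.apply_symm_apply _ _

lemma finrank_range_smul_opM_le (P : EF N →ₗ[ℝ] EF N) (c : ℝ) :
    finrank ℝ (LinearMap.range (c • opM P)) ≤ finrank ℝ (LinearMap.range P) := by
  have h1 : LinearMap.range (c • opM P) ≤ (LinearMap.range P).map (vec N).symm.toLinearMap := by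
    rintro _ ⟨U, rfl⟩
    refine ⟨P (c • vec N U), LinearMap.mem_range_self _ _, ?_⟩
    rw [map_smul, LinearMap.smul_apply]
    rw [map_smul]
    rfl
  exact (Submodule.finrank_mono h1).trans (Submodule.finrank_map_le _ _)

lemma a_upper_A {p q : ℝ} (hq : 2 ≤ q) {C : ℝ} (hC : 1 ≤ C)
    (hU : ∀ (N m : ℕ) (P : EF N →ₗ[ℝ] EF N), IsGood m P → 1 ≤ N → 1 ≤ m → m ≤ N ^ 2 →
      ∀ U W : Mt N, schatten p U ≤ 1 →
        vec N W = P (vec N U) - (m / (N : ℝ) ^ 2) • vec N U → schatten q W ≤ C * ord N m p q)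
    (hN : 1 ≤ N) {n : ℕ} (hn : 1 ≤ n) (hnN : n ≤ N ^ 2) (hk : 4 * (N ^ 2 - n + 1) ≤ 3 * N ^ 2) :
    aS N p q n ≤ ENNReal.ofReal (4 * C * ord N (N ^ 2 - n + 1) p q) := by
  have hN' : (0 : ℝ) < N := by exact_mod_cast hN
  set k := N ^ 2 - n + 1 with hkd
  have hk1 : 1 ≤ k := by omega
  have hk2 : k ≤ N ^ 2 := by omega
  obtain ⟨P, hP⟩ := exists_good hk1 hk2
  have hqq : q.HolderConjugate (q / (q - 1)) := Real.HolderConjugate.conjExponent (by linarith)
  set δ : ℝ := (k : ℝ) / (N : ℝ) ^ 2 with hδ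
  have hδ1 : δ ≤ 3 / 4 := by
    rw [hδ, div_le_iff₀ (by positivity)]
    have : (4 : ℝ) * k ≤ 3 * (N : ℝ) ^ 2 := by exact_mod_cast hk
    linarith
  set c : ℝ := 1 / (1 - δ) with hc
  have h1δ : 0 < 1 - δ := by linarith
  have hc0 : 0 < c := by positivity
  have hc4 : c ≤ 4 := by
    rw [hc, div_le_iff₀ h1δ]
    linarith
  have hcδ : c * (1 - δ) = 1 := by
    rw [hc]
    field_simp
  refine aS_le (c • opM (LinearMap.id - P)) ?_ ?_
  · refine lt_of_le_of_lt (finrank_range_smul_opM_le _ _) ?_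
    have := hP.corank
    omega
  · intro U hU1
    set W : Mt N := opM P U - δ • U with hW
    have hvW : vec N W = P (vec N U) - δ • vec N U := by
      rw [hW, map_sub, map_smul, vec_opM]
    have h1 := hU N k P hP hN hk1 hk2 U W hU1 hvW
    have h2 : U - (c • opM (LinearMap.id - P)) U = c • W := by
      apply (vec N).injective
      rw [map_sub, map_smul, LinearMap.smul_apply, map_smul, vec_opM, hvW, LinearMap.sub_apply,
        LinearMap.id_apply]
      have : vec N U = (c * (1 - δ)) • vec N U := by rw [hcδ, one_smul]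
      conv_lhs =>
        arg 1
        rw [this]
      module
    rw [h2, schatten_smul hqq W hc0]
    have hord := ord_pos hN k p q
    calc c * schatten q W ≤ 4 * (C * ord N k p q) :=
          mul_le_mul hc4 h1 (schatten_nonneg _ _) (by norm_num)
      _ = _ := by ring

lemma a_upper_B {p q : ℝ} (hq : 2 ≤ q) {C : ℝ}
    (hU : ∀ (N m : ℕ) (P : EF N →ₗ[ℝ] EF N), IsGood m P → 1 ≤ N → 1 ≤ m → m ≤ N ^ 2 →
      ∀ U W : Mt N, schatten p U ≤ 1 →
        vec N W = P (vec N U) - (m / (N : ℝ) ^ 2) • vec N U → schatten q W ≤ C * ord N m p q)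
    (hN : 1 ≤ N) {m : ℕ} (hm : 1 ≤ m) (hmN : m ≤ N ^ 2) :
    aS N p q (m + 1) ≤ ENNReal.ofReal ((N : ℝ) ^ 2 / m * (C * ord N m p q)) := by
  have hN' : (0 : ℝ) < N := by exact_mod_cast hN
  have hm' : (0 : ℝ) < m := by exact_mod_cast hm
  obtain ⟨P, hP⟩ := exists_good hm hmN
  have hqq : q.HolderConjugate (q / (q - 1)) := Real.HolderConjugate.conjExponent (by linarith)
  set c : ℝ := (N : ℝ) ^ 2 / m with hc
  have hc0 : 0 < c := by positivity
  have hcδ : c * (m / (N : ℝ) ^ 2) = 1 := by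
    rw [hc]
    field_simp
  refine aS_le (c • opM P) ?_ ?_
  · refine lt_of_le_of_lt (finrank_range_smul_opM_le _ _) ?_
    have := hP.rank
    omega
  · intro U hU1
    set W : Mt N := opM P U - (m / (N : ℝ) ^ 2) • U with hW
    have hvW : vec N W = P (vec N U) - (m / (N : ℝ) ^ 2) • vec N U := by
      rw [hW, map_sub, map_smul, vec_opM]
    have h1 := hU N m P hP hN hm hmN U W hU1 hvW
    have h2 : U - (c • opM P) U = -(c • W) := by
      rw [hW, smul_sub, smul_smul, hcδ, one_smul, LinearMap.smul_apply]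
      abel
    rw [h2, schatten_neg hqq, schatten_smul hqq W hc0]
    exact mul_le_mul_of_nonneg_left h1 hc0.le

lemma finrank_of_codim {n : ℕ} {M : Submodule ℝ (Mt N)}
    (hM : finrank ℝ (Mt N ⧸ M) < n) : N ^ 2 - n + 1 ≤ finrank ℝ M ∨ N ^ 2 < n := by
  have h1 := Submodule.finrank_quotient_add_finrank M
  have h2 : finrank ℝ (Mt N) = N ^ 2 := by
    rw [Module.finrank_matrix]
    simp [sq]
  rw [h2] at h1
  omega

/-- lower bounds for all `n` -/
lemma lower_all {p q : ℝ} (hp1 : 1 < p) (hp2 : p ≤ 2) (hq : 2 ≤ q) (hN : 1 ≤ N) {n : ℕ}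
    (hnN : n ≤ N ^ 2) :
    ENNReal.ofReal (ord N (N ^ 2 - n + 1) p q / 3) ≤ max (cS N p q n) (dS N p q n) := by
  have hN' : (0 : ℝ) < N := by exact_mod_cast hN
  have hpp : p.HolderConjugate (p / (p - 1)) := Real.HolderConjugate.conjExponent hp1
  have hqq : q.HolderConjugate (q / (q - 1)) := Real.HolderConjugate.conjExponent (by linarith)
  have c1 : ENNReal.ofReal (al N p * be N q) ≤ cS N p q n := by
    apply le_cS
    intro M hM
    have h1 := finrank_of_codim hM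
    obtain ⟨U, hU, h2, h3, _⟩ := gelf_test hN hpp hp2 hqq hq M (k := N ^ 2 - n + 1) (by omega) (by omega)
    exact ⟨U, hU, h2, h3⟩
  have c2 : ENNReal.ofReal (al N p * (√((N ^ 2 - n + 1 : ℕ) : ℝ) / N)) ≤ cS N p q n := by
    apply le_cS
    intro M hM
    have h1 := finrank_of_codim hM
    obtain ⟨U, hU, h2, _, h3⟩ := gelf_test hN hpp hp2 hqq hq M (k := N ^ 2 - n + 1) (by omega) (by omega)
    exact ⟨U, hU, h2, h3⟩
  have c3 : ENNReal.ofReal (be N q * (√((N ^ 2 - n + 1 : ℕ) : ℝ) / N)) ≤ dS N p q n := by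
    apply le_dS
    intro L hL
    have h1 := finrank_orth L hL
    obtain ⟨_, U, h2, h3⟩ := kolm_test hN hpp hp2 hq L (k := N ^ 2 - n + 1) (by omega) (by omega)
    exact ⟨U, h2, h3⟩
  set x := √((N ^ 2 - n + 1 : ℕ) : ℝ) / N with hx
  have hsum : ord N (N ^ 2 - n + 1) p q / 3 ≤ al N p * be N q ∨
      ord N (N ^ 2 - n + 1) p q / 3 ≤ al N p * x ∨ ord N (N ^ 2 - n + 1) p q / 3 ≤ be N q * x := by
    by_contra hcon
    push Not at hcon
    obtain ⟨h1, h2, h3⟩ := hcon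
    have : ord N (N ^ 2 - n + 1) p q = x * al N p + x * be N q + al N p * be N q := rfl
    linarith
  rcases hsum with h | h | h
  · exact (ENNReal.ofReal_le_ofReal h).trans (c1.trans (le_max_left _ _))
  · exact (ENNReal.ofReal_le_ofReal h).trans (c2.trans (le_max_left _ _))
  · exact (ENNReal.ofReal_le_ofReal h).trans (c3.trans (le_max_right _ _))

end SchEmb
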