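import Pool.Agent.H2.Sch.Abel

/-! Singular value decomposition in the form needed for Abel summation. -/

open Module Finset
open scoped InnerProductSpace

namespace SchEmb

/-- The Euclidean space of columns. -/
abbrev Ec (N : ℕ) : Type := EuclideanSpace ℝ (Fin N)

/-- Singular values of a matrix (nonincreasing, zero from index `N` on). -/
noncomputable def sv {N : ℕ} (A : Mt N) (l : ℕ) : ℝ := (Matrix.toEuclideanLin A).singularValues l

/-- Right singular vectors. -/
noncomputable def rsv {N : ℕ} (A : Mt N) : OrthonormalBasis (Fin N) ℝ (Ec N) :=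
  (Matrix.toEuclideanLin A).isSymmetric_adjoint_comp_self.eigenvectorBasis finrank_euclideanSpace_fin

/-- Left singular vectors (zero for a zero singular value). -/
noncomputable def lsv {N : ℕ} (A : Mt N) (i : Fin N) : Ec N :=
  (sv A i)⁻¹ • Matrix.toEuclideanLin A (rsv A i)

variable {N : ℕ}

lemma sv_nonneg (A : Mt N) (l : ℕ) : 0 ≤ sv A l := LinearMap.singularValues_nonneg _ _

lemma sv_antitone (A : Mt N) : Antitone (sv A) := LinearMap.singularValues_antitone _

lemma sv_zero (A : Mt N) : sv A N = 0 :=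
  LinearMap.singularValues_of_finrank_le _ (by rw [finrank_euclideanSpace_fin])

lemma sv_adm (A : Mt N) : Adm N (sv A) := ⟨sv_antitone A, sv_nonneg A, sv_zero A⟩

lemma inner_map_rsv (A : Mt N) (i j : Fin N) :
    ⟪Matrix.toEuclideanLin A (rsv A i), Matrix.toEuclideanLin A (rsv A j)⟫_ℝ =
      if i = j then (sv A i) ^ 2 else 0 := by
  set T := Matrix.toEuclideanLin A with hT
  have h1 : ⟪T (rsv A i), T (rsv A j)⟫_ℝ = ⟪(T.adjoint ∘ₗ T) (rsv A i), rsv A j⟫_ℝ := by
    rw [LinearMap.comp_apply, LinearMap.adjoint_inner_left]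
  have h2 : (T.adjoint ∘ₗ T) (rsv A i) = ((sv A i) ^ 2) • rsv A i := by
    have h3 := T.isSymmetric_adjoint_comp_self.apply_eigenvectorBasis finrank_euclideanSpace_fin i
    have h4 : sv A i ^ 2 = T.isSymmetric_adjoint_comp_self.eigenvalues finrank_euclideanSpace_fin i :=
      T.sq_singularValues_fin finrank_euclideanSpace_fin i
    rw [h4]
    exact h3
  rw [h1, h2, real_inner_smul_left]
  have h5 := orthonormal_iff_ite.mp (rsv A).orthonormal i j
  rw [h5]
  split_ifs <;> simp

lemma norm_map_rsv (A : Mt N) (i : Fin N) : ‖Matrix.toEuclideanLin A (rsv A i)‖ = sv A i := by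
  have h := inner_map_rsv A i i
  rw [if_pos rfl, real_inner_self_eq_norm_sq] at h
  exact (sq_eq_sq₀ (norm_nonneg _) (sv_nonneg A i)).mp h

lemma sv_smul_lsv (A : Mt N) (i : Fin N) : sv A i • lsv A i = Matrix.toEuclideanLin A (rsv A i) := by
  unfold lsv
  by_cases h : sv A i = 0
  · rw [h, zero_smul]
    have := norm_map_rsv A i
    rw [h, norm_eq_zero] at this
    exact this.symm
  · rw [smul_smul, mul_inv_cancel₀ h, one_smul]

lemma lsv_norm_le (A : Mt N) (i : Fin N) : ‖lsv A i‖ ≤ 1 := by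
  unfold lsv
  rw [norm_smul, norm_map_rsv, norm_inv, Real.norm_eq_abs, abs_of_nonneg (sv_nonneg A i)]
  exact inv_mul_le_one

lemma lsv_inner (A : Mt N) {i j : Fin N} (h : i ≠ j) : ⟪lsv A i, lsv A j⟫_ℝ = 0 := by
  unfold lsv
  rw [real_inner_smul_left, real_inner_smul_right, inner_map_rsv, if_neg h]
  simp

lemma isContr_of_family {a : ℕ} (z : Fin a → Ec N) (hz : ∀ l, ‖z l‖ ≤ 1)
    (hz2 : ∀ l l', l ≠ l' → ⟪z l, z l'⟫_ℝ = 0) :
    IsContr (fun (i : Fin N) (l : Fin a) => z l i : Matrix (Fin N) (Fin a) ℝ) := by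
  intro c
  have h1 : ∑ i, (∑ l, z l i * c l) ^ 2 = ‖∑ l, c l • z l‖ ^ 2 := by
    rw [EuclideanSpace.real_norm_sq_eq]
    apply sum_congr rfl
    intro i _
    congr 1
    rw [WithLp.ofLp_sum, Finset.sum_apply]
    apply sum_congr rfl
    intro l _
    simp [mul_comm]
  have h2 : ‖∑ l, c l • z l‖ ^ 2 = ∑ l, c l ^ 2 * ‖z l‖ ^ 2 := by
    rw [← real_inner_self_eq_norm_sq, sum_inner]
    apply sum_congr rfl
    intro l _
    rw [inner_sum, sum_eq_single l]
    · rw [real_inner_smul_left, real_inner_smul_right, real_inner_self_eq_norm_sq]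
      ring
    · intro l' _ hl'
      rw [real_inner_smul_left, real_inner_smul_right, hz2 l l' (Ne.symm hl')]
      ring
    · intro h
      exact absurd (mem_univ _) h
  change ∑ i, (∑ l, z l i * c l) ^ 2 ≤ ∑ l, c l ^ 2
  rw [h1, h2]
  apply sum_le_sum
  intro l _
  have h3 : ‖z l‖ ^ 2 ≤ 1 := pow_le_one₀ (norm_nonneg _) (hz l)
  nlinarith [sq_nonneg (c l)]

/-- The rank one pieces of the singular value decomposition. -/
noncomputable def pc (A : Mt N) (l : ℕ) : Mt N :=
  if h : l < N then Matrix.vecMulVec (lsv A ⟨l, h⟩) (rsv A ⟨l, h⟩) else 0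

lemma pc_apply (A : Mt N) (l : Fin N) (i j : Fin N) :
    pc A l i j = lsv A l i * rsv A l j := by
  unfold pc
  rw [dif_pos l.2]
  rfl

lemma sum_smul_pc (A : Mt N) : A = ∑ l ∈ range N, sv A l • pc A l := by
  ext i j
  rw [← Fin.sum_univ_eq_sum_range (fun l => sv A l • pc A l), Matrix.sum_apply]
  have h1 : A i j = (Matrix.toEuclideanLin A (EuclideanSpace.single j 1)) i := by
    rw [Matrix.toLpLin_apply]
    simp
  have h2 : (EuclideanSpace.single j (1 : ℝ)) = ∑ l, (rsv A l j) • rsv A l := by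
    conv_lhs => rw [← (rsv A).sum_repr' (EuclideanSpace.single j (1 : ℝ))]
    apply sum_congr rfl
    intro l _
    congr 1
    rw [EuclideanSpace.inner_single_right]
    simp
  rw [h1, h2, map_sum, WithLp.ofLp_sum, Finset.sum_apply]
  apply sum_congr rfl
  intro l _
  rw [map_smul, ← sv_smul_lsv, Matrix.smul_apply, pc_apply]
  simp only [PiLp.smul_apply, smul_eq_mul]
  ring

lemma flat_pc (A : Mt N) {a : ℕ} (haN : a ≤ N) :
    ∃ X Y : Matrix (Fin N) (Fin a) ℝ, IsContr X ∧ IsContr Y ∧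
      ∑ l ∈ range a, pc A l = X * Y.transpose := by
  refine ⟨_, _, isContr_of_family (fun l : Fin a => lsv A (Fin.castLE haN l))
    (fun l => lsv_norm_le A _) (fun l l' h => lsv_inner A (fun h' => h (by
      exact Fin.castLE_injective haN h'))), isContr_of_family (fun l : Fin a => rsv A (Fin.castLE haN l))
    (fun l => by rw [(rsv A).orthonormal.1]) (fun l l' h => (rsv A).orthonormal.2 (fun h' => h (by
      exact Fin.castLE_injective haN h'))), ?_⟩
  ext i j
  rw [← Fin.sum_univ_eq_sum_range (fun l => pc A l), Matrix.sum_apply, Matrix.mul_apply]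
  apply sum_congr rfl
  intro l _
  have := pc_apply A (Fin.castLE haN l) i j
  exact this

lemma inner_vec_rank_one (A : Mt N) (x y : Ec N) :
    ⟪vec N A, vec N (Matrix.vecMulVec x y)⟫_ℝ = ⟪x, Matrix.toEuclideanLin A y⟫_ℝ := by
  rw [inner_vec, inner_eq_sum]
  apply sum_congr rfl
  intro i _
  have : (Matrix.toEuclideanLin A y) i = ∑ j, A i j * y j := rfl
  rw [this, mul_sum]
  apply sum_congr rfl
  intro j _
  rw [Matrix.vecMulVec_apply]
  ring

lemma inner_vec_pc (A B : Mt N) (l : Fin N) :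
    ⟪vec N B, vec N (pc A l)⟫_ℝ = ⟪lsv A l, Matrix.toEuclideanLin B (rsv A l)⟫_ℝ := by
  unfold pc
  rw [dif_pos l.2]
  exact inner_vec_rank_one B _ _

lemma inner_vec_pc_self (A : Mt N) {l : ℕ} (hl : l < N) :
    ⟪vec N A, vec N (pc A l)⟫_ℝ = sv A l := by
  have h := inner_vec_pc A A ⟨l, hl⟩
  simp only [] at h
  rw [h]
  by_cases h0 : sv A l = 0
  · have : lsv A ⟨l, hl⟩ = 0 := by
      unfold lsv
      simp only [h0, inv_zero, zero_smul]
    rw [this, inner_zero_left, h0]
  · unfold lsv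
    rw [real_inner_smul_left, inner_map_rsv, if_pos rfl]
    simp only []
    field_simp

lemma flatRep_sum (A : Mt N) (t : ℕ → ℝ) : FlatRep (∑ l ∈ range N, t l • pc A l) t :=
  ⟨pc A, rfl, fun _ _ haN => flat_pc A haN⟩

lemma flatRep_self (A : Mt N) : FlatRep A (sv A) :=
  ⟨pc A, sum_smul_pc A, fun _ _ haN => flat_pc A haN⟩

lemma inner_vec_sum_pc (A : Mt N) (t : ℕ → ℝ) :
    ⟪vec N A, vec N (∑ l ∈ range N, t l • pc A l)⟫_ℝ = ∑ l ∈ range N, t l * sv A l := by
  rw [map_sum, inner_sum]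
  apply sum_congr rfl
  intro l hl
  rw [map_smul, real_inner_smul_right, inner_vec_pc_self A (mem_range.mp hl)]

lemma norm_vec_sq_eq_sum_sv (A : Mt N) : ‖vec N A‖ ^ 2 = ∑ l ∈ range N, (sv A l) ^ 2 := by
  rw [← real_inner_self_eq_norm_sq]
  conv_lhs =>
    arg 3
    rw [sum_smul_pc A]
  rw [inner_vec_sum_pc]
  apply sum_congr rfl
  intro l _
  ring

end SchEmb
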