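import Pool.Agent.H2.Sch.Lower

/-! Test matrices for Gelfand and Kolmogorov numbers. -/

open Module Finset
open scoped InnerProductSpace

namespace SchEmb

variable {N : ℕ}

/-- `N ^ (1/2 - 1/p)`. -/
noncomputable def al (N : ℕ) (p : ℝ) : ℝ := (N : ℝ) ^ (1 / 2 - 1 / p)

/-- `N ^ (1/q - 1/2)`. -/
noncomputable def be (N : ℕ) (q : ℝ) : ℝ := (N : ℝ) ^ (1 / q - 1 / 2)

lemma al_pos (hN : 1 ≤ N) (p : ℝ) : 0 < al N p :=
  Real.rpow_pos_of_pos (by exact_mod_cast hN) _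

lemma be_pos (hN : 1 ≤ N) (q : ℝ) : 0 < be N q :=
  Real.rpow_pos_of_pos (by exact_mod_cast hN) _

lemma al_mul (hN : 1 ≤ N) (p : ℝ) : al N p * (N : ℝ) ^ (1 / p - 1 / 2) = 1 := by
  unfold al
  rw [← Real.rpow_add (by exact_mod_cast hN)]
  have : 1 / 2 - 1 / p + (1 / p - 1 / 2) = 0 := by ring
  rw [this, Real.rpow_zero]

lemma be_mul (hN : 1 ≤ N) (q : ℝ) : be N q * (N : ℝ) ^ (1 / 2 - 1 / q) = 1 := by
  unfold be
  rw [← Real.rpow_add (by exact_mod_cast hN)]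
  have : 1 / q - 1 / 2 + (1 / 2 - 1 / q) = 0 := by ring
  rw [this, Real.rpow_zero]

lemma al_schatten_le (hN : 1 ≤ N) {p : ℝ} (hp : 0 < p) (hp2 : p ≤ 2) (A : Mt N) :
    al N p * schatten p A ≤ ‖vec N A‖ := by
  have h := mul_le_mul_of_nonneg_left (schatten_le_frob hp hp2 A) (al_pos hN p).le
  rw [← mul_assoc, al_mul hN, one_mul] at h
  exact h

lemma be_frob_le (hN : 1 ≤ N) {q : ℝ} (hq : 2 ≤ q) (A : Mt N) :
    be N q * ‖vec N A‖ ≤ schatten q A := by
  have h := mul_le_mul_of_nonneg_left (frob_le_schatten hq A) (be_pos hN q).le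
  rw [← mul_assoc, be_mul hN, one_mul] at h
  exact h

lemma mem_of_vec_mem_map {M : Submodule ℝ (Mt N)} {A : Mt N}
    (h : vec N A ∈ M.map (vec N).toLinearMap) : A ∈ M := by
  obtain ⟨B, hB, hBA⟩ := h
  have : B = A := (vec N).injective hBA
  rwa [← this]

lemma finrank_map_vec (M : Submodule ℝ (Mt N)) :
    finrank ℝ (M.map (vec N).toLinearMap) = finrank ℝ M :=
  LinearEquiv.finrank_map_eq (vec N) M

lemma test_size (hN : 1 ≤ N) {f : ℝ} (hf0 : 0 ≤ f) {k d : ℕ} (hkd : k ≤ d)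
    (h : (d : ℝ) / (N : ℝ) ^ 2 ≤ f ^ 2) : √(k : ℝ) / N ≤ f := by
  have hN' : (0 : ℝ) < N := by exact_mod_cast hN
  apply le_of_sq_le_sq _ hf0
  rw [div_pow, Real.sq_sqrt (Nat.cast_nonneg _)]
  refine le_trans ?_ h
  apply div_le_div_of_nonneg_right _ (by positivity)
  exact_mod_cast hkd

/-- Gelfand test. -/
lemma gelf_test (hN : 1 ≤ N) {p p' q q' : ℝ} (hpp : p.HolderConjugate p') (hp2 : p ≤ 2)
    (hqq : q.HolderConjugate q') (hq : 2 ≤ q) (M : Submodule ℝ (Mt N)) {k : ℕ} (hk : 1 ≤ k)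
    (hkM : k ≤ finrank ℝ M) :
    ∃ U ∈ M, schatten p U ≤ 1 ∧ al N p * be N q ≤ schatten q U ∧
      al N p * (√(k : ℝ) / N) ≤ schatten q U := by
  have hN' : (0 : ℝ) < N := by exact_mod_cast hN
  obtain ⟨e, A, hAK, hA1, hA2, hA3, hA4⟩ := exists_test hN (M.map (vec N).toLinearMap)
  rw [finrank_map_vec] at hA1
  set f := ‖vec N A‖ with hf
  have hf0 : 0 ≤ f := norm_nonneg _
  have hx : √(k : ℝ) / N ≤ f := test_size hN hf0 hkM hA1
  have hk' : (0 : ℝ) < k := by exact_mod_cast hk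
  have hfpos : 0 < f := lt_of_lt_of_le (by positivity) hx
  have hα := al_pos hN p
  have hβ := be_pos hN q
  have hc : 0 < al N p / f := div_pos hα hfpos
  refine ⟨(al N p / f) • A, M.smul_mem _ (mem_of_vec_mem_map hAK), ?_, ?_, ?_⟩
  · rw [schatten_smul hpp A hc, div_mul_eq_mul_div, div_le_one hfpos]
    exact al_schatten_le hN hpp.pos hp2 A
  · rw [schatten_smul hqq A hc, div_mul_eq_mul_div, le_div_iff₀ hfpos, mul_assoc]
    exact mul_le_mul_of_nonneg_left (be_frob_le hN hq A) hα.le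
  · rw [schatten_smul hqq A hc, div_mul_eq_mul_div, le_div_iff₀ hfpos, mul_assoc]
    apply mul_le_mul_of_nonneg_left _ hα.le
    calc √(k : ℝ) / N * f ≤ f * f := mul_le_mul_of_nonneg_right hx hf0
      _ = f ^ 2 := by ring
      _ = A e.1 e.2 := hA3.symm
      _ ≤ schatten q A := (le_abs_self _).trans (abs_entry_le_schatten hqq.pos A _ _)

/-- size of a perturbed matrix unit -/
lemma schatten_pert (hN : 1 ≤ N) {p p' : ℝ} (hpp : p.HolderConjugate p') (hp2 : p ≤ 2)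
    (e : Fin N × Fin N) (A : Mt N) :
    schatten p A ≤ 1 + ‖vec N (mU e - A)‖ / al N p := by
  have hα := al_pos hN p
  have h1 : A = mU e + -(mU e - A) := by abel
  have h2 : schatten p A ≤ schatten p (mU e) + schatten p (-(mU e - A)) := by
    conv_lhs => rw [h1]
    exact schatten_add_le hpp _ _
  rw [schatten_neg hpp] at h2
  refine h2.trans (add_le_add (schatten_mU hpp e) ?_)
  rw [le_div_iff₀ hα, mul_comm]
  exact al_schatten_le hN hpp.pos hp2 _

lemma sqrt_one_sub_le (hN : 1 ≤ N) {g f : ℝ} (hg : 0 ≤ g) {n k d : ℕ} (hkd : k ≤ d)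
    (hk : N ^ 2 ≤ k + n) (h : (d : ℝ) / (N : ℝ) ^ 2 ≤ f ^ 2) (hgf : g ^ 2 = 1 - f ^ 2) :
    g ≤ √(n : ℝ) / N := by
  have hN' : (0 : ℝ) < N := by exact_mod_cast hN
  apply le_of_sq_le_sq _ (by positivity)
  rw [div_pow, Real.sq_sqrt (Nat.cast_nonneg _), hgf]
  have h1 : (N : ℝ) ^ 2 ≤ d + n := by
    have : N ^ 2 ≤ d + n := by omega
    exact_mod_cast this
  rw [le_div_iff₀ (by positivity)]
  rw [div_le_iff₀ (by positivity)] at h
  nlinarith

/-- Gelfand test for small codimension. -/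
lemma gelf_test_small (hN : 1 ≤ N) {p p' q q' : ℝ} (hpp : p.HolderConjugate p') (hp2 : p ≤ 2)
    (hqq : q.HolderConjugate q') (M : Submodule ℝ (Mt N)) {k n : ℕ}
    (hkM : k ≤ finrank ℝ M) (hkn : N ^ 2 ≤ k + n) (hk3 : 3 * N ^ 2 ≤ 4 * k) :
    ∃ U ∈ M, schatten p U ≤ 1 ∧ 3 / 4 / (1 + √(n : ℝ) / N / al N p) ≤ schatten q U := by
  have hN' : (0 : ℝ) < N := by exact_mod_cast hN
  obtain ⟨e, A, hAK, hA1, hA2, hA3, hA4⟩ := exists_test hN (M.map (vec N).toLinearMap)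
  rw [finrank_map_vec] at hA1
  have hα := al_pos hN p
  have hg := sqrt_one_sub_le hN (norm_nonneg _) hkM hkn hA1 hA4
  set D := 1 + √(n : ℝ) / N / al N p with hD
  have hD0 : 0 < D := by positivity
  have hAD : schatten p A ≤ D := by
    refine (schatten_pert hN hpp hp2 e A).trans ?_
    rw [hD]
    have := div_le_div_of_nonneg_right hg hα.le
    linarith
  have hf2 : 3 / 4 ≤ ‖vec N A‖ ^ 2 := by
    refine le_trans ?_ hA1
    rw [le_div_iff₀ (by positivity)]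
    have h1 : 3 * N ^ 2 ≤ 4 * finrank ℝ M := by omega
    have h2 : (3 : ℝ) * (N : ℝ) ^ 2 ≤ 4 * (finrank ℝ M : ℝ) := by exact_mod_cast h1
    linarith
  have hc : 0 < D⁻¹ := inv_pos.mpr hD0
  refine ⟨D⁻¹ • A, M.smul_mem _ (mem_of_vec_mem_map hAK), ?_, ?_⟩
  · rw [schatten_smul hpp A hc, inv_mul_le_iff₀ hD0, mul_one]
    exact hAD
  · rw [schatten_smul hqq A hc, div_eq_mul_inv, mul_comm (3 / 4 : ℝ)]
    apply mul_le_mul_of_nonneg_left _ hc.le
    refine hf2.trans ?_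
    rw [← hA3]
    exact (le_abs_self _).trans (abs_entry_le_schatten hqq.pos A _ _)

lemma finrank_EF : finrank ℝ (EF N) = N ^ 2 := by
  rw [finrank_euclideanSpace, Fintype.card_prod, Fintype.card_fin, sq]

lemma finrank_orth (L : Submodule ℝ (Mt N)) {n : ℕ} (hL : finrank ℝ L < n) :
    N ^ 2 - n + 1 ≤ finrank ℝ ((L.map (vec N).toLinearMap)ᗮ : Submodule ℝ (EF N)) ∨ N ^ 2 < n := by
  have h1 := Submodule.finrank_add_finrank_orthogonal (L.map (vec N).toLinearMap)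
  rw [finrank_map_vec, finrank_EF] at h1
  omega

lemma inner_of_mem_orth {L : Submodule ℝ (Mt N)} {A Y : Mt N}
    (hA : vec N A ∈ (L.map (vec N).toLinearMap)ᗮ) (hY : Y ∈ L) : ⟪vec N Y, vec N A⟫_ℝ = 0 :=
  Submodule.inner_right_of_mem_orthogonal (Submodule.mem_map_of_mem (f := (vec N).toLinearMap) hY) hA

/-- Kolmogorov tests. -/
lemma kolm_test (hN : 1 ≤ N) {p p' q : ℝ} (hpp : p.HolderConjugate p') (hp2 : p ≤ 2)
    (hq : 2 ≤ q) (L : Submodule ℝ (Mt N)) {k : ℕ} (hk : 1 ≤ k)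
    (hkL : k ≤ finrank ℝ ((L.map (vec N).toLinearMap)ᗮ : Submodule ℝ (EF N))) :
    (∃ U, schatten p U ≤ 1 ∧ ∀ Y ∈ L, al N p * be N q ≤ schatten q (U - Y)) ∧
    (∃ U, schatten p U ≤ 1 ∧ ∀ Y ∈ L, be N q * (√(k : ℝ) / N) ≤ schatten q (U - Y)) := by
  have hN' : (0 : ℝ) < N := by exact_mod_cast hN
  obtain ⟨e, A, hAK, hA1, hA2, hA3, hA4⟩ := exists_test hN ((L.map (vec N).toLinearMap)ᗮ)
  set f := ‖vec N A‖ with hf
  have hf0 : 0 ≤ f := norm_nonneg _
  have hx : √(k : ℝ) / N ≤ f := test_size hN hf0 hkL hA1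
  have hk' : (0 : ℝ) < k := by exact_mod_cast hk
  have hfpos : 0 < f := lt_of_lt_of_le (by positivity) hx
  have hα := al_pos hN p
  have hβ := be_pos hN q
  have hc : 0 < al N p / f := div_pos hα hfpos
  constructor
  · refine ⟨(al N p / f) • A, ?_, ?_⟩
    · rw [schatten_smul hpp A hc, div_mul_eq_mul_div, div_le_one hfpos]
      exact al_schatten_le hN hpp.pos hp2 A
    · intro Y hY
      refine le_trans ?_ (be_frob_le hN hq _)
      rw [mul_comm]
      apply mul_le_mul_of_nonneg_left _ hβ.le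
      have h1 := inner_of_mem_orth hAK hY
      have h2 : ‖vec N ((al N p / f) • A - Y)‖ ^ 2 = (al N p) ^ 2 + ‖vec N Y‖ ^ 2 := by
        rw [map_sub, map_smul, norm_sub_sq_real, real_inner_smul_left, real_inner_comm, h1,
          norm_smul, Real.norm_eq_abs, abs_of_pos hc, ← hf, div_mul_cancel₀ _ hfpos.ne']
        ring
      apply le_of_sq_le_sq _ (norm_nonneg _)
      rw [h2]
      nlinarith [sq_nonneg ‖vec N Y‖]
  · refine ⟨mU e, schatten_mU hpp e, ?_⟩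
    intro Y hY
    refine le_trans ?_ (be_frob_le hN hq _)
    apply mul_le_mul_of_nonneg_left _ hβ.le
    refine hx.trans ?_
    have h1 := inner_of_mem_orth hAK hY
    have h2 : ⟪vec N (mU e - Y), vec N A⟫_ℝ = f ^ 2 := by
      rw [map_sub, inner_sub_left, h1, inner_mU, hA3, sub_zero]
    have h3 := real_inner_le_norm (vec N (mU e - Y)) (vec N A)
    rw [h2, ← hf, sq] at h3
    exact le_of_mul_le_mul_right h3 hfpos

/-- Kolmogorov test for small dimension. -/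
lemma kolm_test_small (hN : 1 ≤ N) {p p' q q' : ℝ} (hpp : p.HolderConjugate p')
    (hqq : q.HolderConjugate q') (hq : 2 ≤ q) (L : Submodule ℝ (Mt N)) {k n : ℕ}
    (hkL : k ≤ finrank ℝ ((L.map (vec N).toLinearMap)ᗮ : Submodule ℝ (EF N)))
    (hkn : N ^ 2 ≤ k + n) (hk3 : 3 * N ^ 2 ≤ 4 * k) :
    ∃ U, schatten p U ≤ 1 ∧ ∀ Y ∈ L, 3 / 4 / (1 + √(n : ℝ) / N / be N q) ≤ schatten q (U - Y) := by
  have hN' : (0 : ℝ) < N := by exact_mod_cast hN
  obtain ⟨e, A, hAK, hA1, hA2, hA3, hA4⟩ := exists_test hN ((L.map (vec N).toLinearMap)ᗮ)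
  have hβ := be_pos hN q
  have hg := sqrt_one_sub_le hN (norm_nonneg _) hkL hkn hA1 hA4
  set D := 1 + √(n : ℝ) / N / be N q with hD
  have hD0 : 0 < D := by positivity
  have hinv : 1 / q + 1 / q' = 1 := by
    rw [one_div, one_div]
    exact hqq.inv_add_inv_eq_one
  have hq'2 : q' ≤ 2 := by
    have h0 := hqq.symm.pos
    have hq0 := hqq.pos
    have h1 : 1 / q ≤ 1 / 2 := one_div_le_one_div_of_le (by norm_num) hq
    have h2 : 1 / 2 ≤ 1 / q' := by linarith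
    rw [div_le_div_iff₀ (by norm_num) h0] at h2
    linarith
  have hal : al N q' = be N q := by
    unfold al be
    congr 1
    linarith
  have hAD : schatten q' A ≤ D := by
    refine (schatten_pert hN hqq.symm hq'2 e A).trans ?_
    rw [hD, hal]
    have := div_le_div_of_nonneg_right hg hβ.le
    linarith
  have hf2 : 3 / 4 ≤ ‖vec N A‖ ^ 2 := by
    refine le_trans ?_ hA1
    rw [le_div_iff₀ (by positivity)]
    have h1 : 3 * N ^ 2 ≤ 4 * finrank ℝ ((L.map (vec N).toLinearMap)ᗮ : Submodule ℝ (EF N)) := by omega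
    have h2 : (3 : ℝ) * (N : ℝ) ^ 2 ≤
        4 * (finrank ℝ ((L.map (vec N).toLinearMap)ᗮ : Submodule ℝ (EF N)) : ℝ) := by exact_mod_cast h1
    linarith
  refine ⟨mU e, schatten_mU hpp e, ?_⟩
  intro Y hY
  have h1 := inner_of_mem_orth hAK hY
  have h2 : ⟪vec N (mU e - Y), vec N A⟫_ℝ = ‖vec N A‖ ^ 2 := by
    rw [map_sub, inner_sub_left, h1, inner_mU, hA3, sub_zero]
  have h3 := holder hqq (mU e - Y) A (t := sv A) (sv_nonneg A)
  rw [← sum_smul_pc, ← schatten_eq, h2, abs_of_nonneg (sq_nonneg _)] at h3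
  rw [div_le_iff₀ hD0]
  calc (3 / 4 : ℝ) ≤ ‖vec N A‖ ^ 2 := hf2
    _ ≤ schatten q (mU e - Y) * schatten q' A := h3
    _ ≤ schatten q (mU e - Y) * D := mul_le_mul_of_nonneg_left hAD (schatten_nonneg _ _)

end SchEmb
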