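import Pool.Agent.H2.Sch.Tests

/-! Schatten norm bounds for `P - δ`, `P` a good projection. -/

open Module Finset
open scoped InnerProductSpace

namespace SchEmb

variable {N m : ℕ} {P : EF N →ₗ[ℝ] EF N}

/-- The order of the approximation numbers near the end. -/
noncomputable def ord (N m : ℕ) (p q : ℝ) : ℝ :=
  √(m : ℝ) / N * al N p + √(m : ℝ) / N * be N q + al N p * be N q

lemma ord_pos (hN : 1 ≤ N) (m : ℕ) (p q : ℝ) : 0 < ord N m p q := by
  unfold ord
  have h1 := al_pos hN p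
  have h2 := be_pos hN q
  have hN' : (0 : ℝ) < N := by exact_mod_cast hN
  positivity

lemma sqrt_mul_al (hN : 1 ≤ N) {p r : ℝ} (hpr : p.HolderConjugate r) :
    (N : ℝ) ^ (1 / r) = √(N : ℝ) * al N p := by
  unfold al
  rw [Real.sqrt_eq_rpow, ← Real.rpow_add (by exact_mod_cast hN)]
  congr 1
  have := hpr.inv_add_inv_eq_one
  rw [one_div, one_div, one_div]
  linarith

lemma sqrt_mul_be (hN : 1 ≤ N) (q : ℝ) : (N : ℝ) ^ (1 / q) = √(N : ℝ) * be N q := by
  unfold be
  rw [Real.sqrt_eq_rpow, ← Real.rpow_add (by exact_mod_cast hN)]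
  congr 1
  ring

/-- sums over singular values of the argument -/
lemma arg_sums (hN : 1 ≤ N) {p r : ℝ} (hpr : p.HolderConjugate r) {U : Mt N}
    (hU : schatten p U ≤ 1) : S1 N (sv U) ≤ √(N : ℝ) * al N p := by
  rw [S1_eq (sv_adm U), ← sqrt_mul_al hN hpr]
  refine (sum_le_rpow hpr (sv_nonneg U)).trans ?_
  rw [← schatten_eq]
  have h0 : (0 : ℝ) ≤ (N : ℝ) ^ (1 / r) := Real.rpow_nonneg (Nat.cast_nonneg _) _
  nlinarith

lemma arg_sums2 {p r : ℝ} (hpr : p.HolderConjugate r) (hr : 2 < r) {U : Mt N}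
    (hU : schatten p U ≤ 1) : S2 N (sv U) ≤ lor r := by
  refine (S2_le (sv_adm U)).trans ((sum_div_sqrt_le hpr hr (sv_nonneg U)).trans ?_)
  rw [← schatten_eq]
  have h0 := lor_nonneg r
  nlinarith

/-- sums over the coefficients of the norming matrix -/
lemma dual_sums (hN : 1 ≤ N) {q q' : ℝ} (hqq : q.HolderConjugate q') (W : Mt N) :
    S1 N (fun l => sv W l ^ (q - 1)) ≤ √(N : ℝ) * be N q * schatten q W ^ (q / q') := by
  rw [S1_eq (adm_dual hqq.lt W), ← sqrt_mul_be hN q, ← sum_dual_rpow_root hqq]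
  exact sum_le_rpow hqq.symm (adm_dual hqq.lt W).nonneg

lemma dual_sums2 {q q' : ℝ} (hqq : q.HolderConjugate q') (hq : 2 < q) (W : Mt N) :
    S2 N (fun l => sv W l ^ (q - 1)) ≤ lor q * schatten q W ^ (q / q') := by
  refine (S2_le (adm_dual hqq.lt W)).trans ?_
  rw [← sum_dual_rpow_root hqq]
  exact sum_div_sqrt_le hqq.symm hq (adm_dual hqq.lt W).nonneg

lemma S1_nonneg {s : ℕ → ℝ} (hs : Adm N s) : 0 ≤ S1 N s := by
  rw [S1_eq hs]
  exact sum_nonneg fun l _ => hs.nonneg l

lemma S2_nonneg {s : ℕ → ℝ} (hs : Adm N s) : 0 ≤ S2 N s := by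
  unfold S2
  apply sum_nonneg
  intro l _
  have := hs.anti (Nat.le_succ l)
  exact mul_nonneg (sub_nonneg.mpr this) (Real.sqrt_nonneg _)

lemma inner_eq_psi {U W : Mt N} {δ : ℝ} (hW : vec N W = P (vec N U) - δ • vec N U) (V : Mt N) :
    ⟪vec N W, vec N V⟫_ℝ = psi P δ U V := by
  rw [hW, inner_sub_left, real_inner_smul_left]
  rfl

lemma psi_comm_eq (hP : IsOProj P) (δ : ℝ) (U V : Mt N) :
    psi P δ U V = ⟪vec N U, P (vec N V) - δ • vec N V⟫_ℝ := by
  unfold psi
  rw [hP.comm, inner_sub_right, real_inner_smul_right]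

/-- interior case -/
lemma upper_interior (hP : IsGood m P) (hN : 1 ≤ N) (hm : 1 ≤ m) {p p' q q' : ℝ}
    (hpp : p.HolderConjugate p') (hp' : 2 < p') (hqq : q.HolderConjugate q') (hq : 2 < q)
    {U W : Mt N} (hU : schatten p U ≤ 1)
    (hW : vec N W = P (vec N U) - (m / (N : ℝ) ^ 2) • vec N U) :
    schatten q W ≤ 5000 * (lor q + lor p' + 1) * ord N m p q := by
  have hN' : (0 : ℝ) < N := by exact_mod_cast hN
  have hα := al_pos hN p
  have hβ := be_pos hN q
  have hl1 := lor_nonneg q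
  have hl2 := lor_nonneg p'
  have hord := ord_pos hN m p q
  apply schatten_le_of_dual hqq _ (by positivity)
  rw [inner_eq_psi hW]
  set T := schatten q W ^ (q / q') with hT
  have hT0 : 0 ≤ T := Real.rpow_nonneg (schatten_nonneg _ _) _
  have h1 := bil_rep hP hN hm (flatRep_self U) (flatRep_sum W fun l => sv W l ^ (q - 1))
    (sv_adm U) (adm_dual hqq.lt W)
  refine (le_abs_self _).trans (h1.trans ?_)
  have a1 := arg_sums hN hpp hU
  have a2 := arg_sums2 hpp hp' hU
  have b1 := dual_sums hN hqq W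
  have b2 := dual_sums2 hqq hq W
  rw [← hT] at b1 b2
  have a1' := S1_nonneg (sv_adm U)
  have a2' := S2_nonneg (sv_adm U)
  have b1' := S1_nonneg (adm_dual hqq.lt W)
  have b2' := S2_nonneg (adm_dual hqq.lt W)
  set s1 := S1 N (sv U)
  set s2 := S2 N (sv U)
  set t1 := S1 N fun l => sv W l ^ (q - 1)
  set t2 := S2 N fun l => sv W l ^ (q - 1)
  set μ := √(m : ℝ) with hμ
  set ν := √(N : ℝ) with hν
  have hν0 : 0 < ν := Real.sqrt_pos.mpr hN'
  have hμ0 : 0 ≤ μ := Real.sqrt_nonneg _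
  have eν : ν * ν = N := Real.mul_self_sqrt hN'.le
  have c1 : s1 * t2 ≤ (ν * al N p) * (lor q * T) := mul_le_mul a1 b2 b2' (by positivity)
  have c2 : s2 * t1 ≤ lor p' * (ν * be N q * T) := mul_le_mul a2 b1 b1' hl2
  have c3 : s1 * t1 ≤ (ν * al N p) * (ν * be N q * T) := mul_le_mul a1 b1 b1' (by positivity)
  have hx : 0 ≤ μ / N := by positivity
  calc 5000 / (N : ℝ) ^ 2 * (μ * ν * (s1 * t2 + s2 * t1) + N * (s1 * t1)) ≤
        5000 / (N : ℝ) ^ 2 * (μ * ν * ((ν * al N p) * (lor q * T) + lor p' * (ν * be N q * T)) +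
          N * ((ν * al N p) * (ν * be N q * T))) := by
        apply mul_le_mul_of_nonneg_left _ (by positivity)
        apply add_le_add
        · exact mul_le_mul_of_nonneg_left (add_le_add c1 c2) (by positivity)
        · exact mul_le_mul_of_nonneg_left c3 hN'.le
    _ = 5000 * (lor q * (μ / N * al N p) + lor p' * (μ / N * be N q) + al N p * be N q) * T := by
        have e1 : μ * ν * ((ν * al N p) * (lor q * T) + lor p' * (ν * be N q * T)) +
          N * ((ν * al N p) * (ν * be N q * T)) = (ν * ν) * (μ * (al N p * lor q + lor p' * be N q) +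
            N * (al N p * be N q)) * T := by ring
        rw [e1, eν]
        field_simp
    _ ≤ 5000 * (lor q + lor p' + 1) * ord N m p q * T := by
        apply mul_le_mul_of_nonneg_right _ hT0
        rw [mul_assoc]
        apply mul_le_mul_of_nonneg_left _ (by norm_num)
        unfold ord
        rw [← hμ]
        have d1 : 0 ≤ μ / N * al N p := by positivity
        have d2 : 0 ≤ μ / N * be N q := by positivity
        have d3 : 0 ≤ al N p * be N q := by positivity
        nlinarith [mul_nonneg hl1 d1, mul_nonneg hl1 d2, mul_nonneg hl1 d3, mul_nonneg hl2 d1,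
          mul_nonneg hl2 d2, mul_nonneg hl2 d3]

lemma al_two : al N 2 = 1 := by
  unfold al
  norm_num

lemma be_two : be N 2 = 1 := by
  unfold be
  norm_num

/-- case `q = 2` -/
lemma upper_q_two (hP : IsGood m P) (hN : 1 ≤ N) (hmN : m ≤ N ^ 2) {p p' : ℝ}
    (hpp : p.HolderConjugate p') (hp' : 2 < p') {U W : Mt N} (hU : schatten p U ≤ 1)
    (hW : vec N W = P (vec N U) - (m / (N : ℝ) ^ 2) • vec N U) :
    schatten 2 W ≤ 49 * (lor p' + 1) * ord N m p 2 := by
  have hN' : (0 : ℝ) < N := by exact_mod_cast hN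
  have hα := al_pos hN p
  have hl2 := lor_nonneg p'
  rw [schatten_two, hW]
  refine (one_sided_rep hP hN hmN (flatRep_self U) (sv_adm U)).trans ?_
  have a1 := arg_sums hN hpp hU
  have a2 := arg_sums2 hpp hp' hU
  set μ := √(m : ℝ) with hμ
  set ν := √(N : ℝ) with hν
  have hν0 : 0 < ν := Real.sqrt_pos.mpr hN'
  have hμ0 : 0 ≤ μ := Real.sqrt_nonneg _
  have eν : ν * ν = N := Real.mul_self_sqrt hN'.le
  calc 49 / (N : ℝ) * (μ * S2 N (sv U) + ν * S1 N (sv U)) ≤
        49 / N * (μ * lor p' + ν * (ν * al N p)) := by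
        apply mul_le_mul_of_nonneg_left _ (by positivity)
        exact add_le_add (mul_le_mul_of_nonneg_left a2 hμ0) (mul_le_mul_of_nonneg_left a1 hν0.le)
    _ = 49 * (lor p' * (μ / N) + al N p) := by
        rw [← mul_assoc ν ν, eν]
        field_simp
    _ ≤ _ := by
        rw [mul_assoc]
        apply mul_le_mul_of_nonneg_left _ (by norm_num)
        unfold ord
        rw [← hμ, be_two]
        have d1 : 0 ≤ μ / N * al N p := by positivity
        have d2 : 0 ≤ μ / N := by positivity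
        nlinarith [mul_nonneg hl2 d1, mul_nonneg hl2 d2, mul_nonneg hl2 hα.le]

/-- case `p = 2` -/
lemma upper_p_two (hP : IsGood m P) (hN : 1 ≤ N) (hmN : m ≤ N ^ 2) {q q' : ℝ}
    (hqq : q.HolderConjugate q') (hq : 2 < q) {U W : Mt N} (hU : schatten 2 U ≤ 1)
    (hW : vec N W = P (vec N U) - (m / (N : ℝ) ^ 2) • vec N U) :
    schatten q W ≤ 49 * (lor q + 1) * ord N m 2 q := by
  have hN' : (0 : ℝ) < N := by exact_mod_cast hN
  have hβ := be_pos hN q
  have hl1 := lor_nonneg q
  have hord := ord_pos hN m 2 q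
  apply schatten_le_of_dual hqq _ (by positivity)
  rw [inner_eq_psi hW, psi_comm_eq hP.proj]
  rw [schatten_two] at hU
  set T := schatten q W ^ (q / q') with hT
  have hT0 : 0 ≤ T := Real.rpow_nonneg (schatten_nonneg _ _) _
  have h1 := one_sided_rep hP hN hmN (flatRep_sum W fun l => sv W l ^ (q - 1)) (adm_dual hqq.lt W)
  have h2 := real_inner_le_norm (vec N U) (P (vec N (dualM q W)) - (m / (N : ℝ) ^ 2) • vec N (dualM q W))
  have h3 : ‖vec N U‖ * ‖P (vec N (dualM q W)) - (m / (N : ℝ) ^ 2) • vec N (dualM q W)‖ ≤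
      ‖P (vec N (dualM q W)) - (m / (N : ℝ) ^ 2) • vec N (dualM q W)‖ :=
    mul_le_of_le_one_left (norm_nonneg _) hU
  refine (h2.trans (h3.trans h1)).trans ?_
  have b1 := dual_sums hN hqq W
  have b2 := dual_sums2 hqq hq W
  rw [← hT] at b1 b2
  set μ := √(m : ℝ) with hμ
  set ν := √(N : ℝ) with hν
  have hν0 : 0 < ν := Real.sqrt_pos.mpr hN'
  have hμ0 : 0 ≤ μ := Real.sqrt_nonneg _
  have eν : ν * ν = N := Real.mul_self_sqrt hN'.le
  calc 49 / (N : ℝ) * (μ * S2 N (fun l => sv W l ^ (q - 1)) + ν * S1 N (fun l => sv W l ^ (q - 1))) ≤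
        49 / N * (μ * (lor q * T) + ν * (ν * be N q * T)) := by
        apply mul_le_mul_of_nonneg_left _ (by positivity)
        exact add_le_add (mul_le_mul_of_nonneg_left b2 hμ0) (mul_le_mul_of_nonneg_left b1 hν0.le)
    _ = 49 * (lor q * (μ / N) + be N q) * T := by
        have e1 : μ * (lor q * T) + ν * (ν * be N q * T) = (μ * lor q + ν * ν * be N q) * T := by ring
        rw [e1, eν]
        field_simp
    _ ≤ _ := by
        apply mul_le_mul_of_nonneg_right _ hT0
        rw [mul_assoc]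
        apply mul_le_mul_of_nonneg_left _ (by norm_num)
        unfold ord
        rw [← hμ, al_two]
        have d1 : 0 ≤ μ / N * be N q := by positivity
        have d2 : 0 ≤ μ / N := by positivity
        nlinarith [mul_nonneg hl1 d1, mul_nonneg hl1 d2, mul_nonneg hl1 hβ.le]

lemma proj_norm_le (hP : IsOProj P) (x : EF N) : ‖P x‖ ≤ ‖x‖ := by
  have h1 : ‖P x‖ ^ 2 ≤ ‖x‖ * ‖P x‖ := by
    rw [← real_inner_self_eq_norm_sq, ← hP.idem, hP.comm]
    exact real_inner_le_norm _ _
  by_contra hcon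
  push Not at hcon
  nlinarith [norm_nonneg x, norm_nonneg (P x)]

/-- case `p = q = 2` -/
lemma upper_two_two (hP : IsGood m P) (hN : 1 ≤ N) (hmN : m ≤ N ^ 2) {U W : Mt N}
    (hU : schatten 2 U ≤ 1)
    (hW : vec N W = P (vec N U) - (m / (N : ℝ) ^ 2) • vec N U) :
    schatten 2 W ≤ 2 * ord N m 2 2 := by
  have hN' : (0 : ℝ) < N := by exact_mod_cast hN
  rw [schatten_two] at hU ⊢
  rw [hW]
  have h1 : ‖P (vec N U)‖ ≤ 1 := (proj_norm_le hP.proj _).trans hU
  have h2 : ‖(m / (N : ℝ) ^ 2) • vec N U‖ ≤ 1 := by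
    rw [norm_smul, Real.norm_eq_abs, abs_of_nonneg (by positivity)]
    have h3 : (m : ℝ) / (N : ℝ) ^ 2 ≤ 1 := by
      rw [div_le_one (by positivity)]
      exact_mod_cast hmN
    calc (m : ℝ) / (N : ℝ) ^ 2 * ‖vec N U‖ ≤ 1 * 1 :=
          mul_le_mul h3 hU (norm_nonneg _) zero_le_one
      _ = 1 := one_mul 1
  refine (norm_sub_le _ _).trans ((add_le_add h1 h2).trans ?_)
  unfold ord
  rw [al_two, be_two]
  have : 0 ≤ √(m : ℝ) / N := by positivity
  linarith

/-- The upper bound, all cases. -/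
theorem upper_all {p q : ℝ} (hp1 : 1 < p) (hp2 : p ≤ 2) (hq : 2 ≤ q) :
    ∃ C : ℝ, 1 ≤ C ∧ ∀ (N m : ℕ) (P : EF N →ₗ[ℝ] EF N), IsGood m P → 1 ≤ N → 1 ≤ m → m ≤ N ^ 2 →
      ∀ U W : Mt N, schatten p U ≤ 1 →
        vec N W = P (vec N U) - (m / (N : ℝ) ^ 2) • vec N U → schatten q W ≤ C * ord N m p q := by
  set p' := p / (p - 1) with hp'
  set q' := q / (q - 1) with hq'
  have hpp : p.HolderConjugate p' := Real.HolderConjugate.conjExponent hp1
  have hqq : q.HolderConjugate q' := Real.HolderConjugate.conjExponent (by linarith)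
  have hl1 := lor_nonneg q
  have hl2 := lor_nonneg p'
  refine ⟨5000 * (lor q + lor p' + 1), by linarith, ?_⟩
  intro N m P hP hN hm hmN U W hU hW
  have hord := ord_pos hN m p q
  rcases eq_or_lt_of_le hp2 with h2 | h2
  · rcases eq_or_lt_of_le hq with h3 | h3
    · subst h2
      subst h3
      refine (upper_two_two hP hN hmN hU hW).trans ?_
      apply mul_le_mul_of_nonneg_right _ hord.le
      linarith
    · subst h2
      refine (upper_p_two hP hN hmN hqq h3 hU hW).trans ?_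
      apply mul_le_mul_of_nonneg_right _ hord.le
      linarith
  · have hp'2 : 2 < p' := by
      rw [hp', lt_div_iff₀ (by linarith)]
      linarith
    rcases eq_or_lt_of_le hq with h3 | h3
    · subst h3
      refine (upper_q_two hP hN hmN hpp hp'2 hU hW).trans ?_
      apply mul_le_mul_of_nonneg_right _ hord.le
      linarith
    · exact upper_interior hP hN hm hpp hp'2 hqq h3 hU hW

end SchEmb
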